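import Mathlib
import Pool.Graph.R_seed8.H344R3.PD.Greedy

/-!
# MP_7f399b_lc: choosing the letters one by one so that no instance of a one-variable
# pattern embeds
-/

namespace Pool.Agent.H54.PD

open Pool.Agent.PatDepth Pool.Agent.H344R3.PD

variable {A : Type}

/-- the variables of a pattern -/
def vs (p : List (ℕ ⊕ A)) : Finset ℕ := (p.filterMap Sum.getLeft?).toFinset

/-- the number of the variables of `p` outside `S` -/
def fr (S : Finset ℕ) (p : List (ℕ ⊕ A)) : ℕ := (vs p \ S).card

lemma mem_vs {p : List (ℕ ⊕ A)} {x : ℕ} : x ∈ vs p ↔ Sum.inl x ∈ p := mem_vars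

lemma vs_append (p p' : List (ℕ ⊕ A)) : vs (p ++ p') = vs p ∪ vs p' := by
  ext x
  rw [Finset.mem_union, mem_vs, mem_vs, mem_vs, List.mem_append]

lemma fr_empty (p : List (ℕ ⊕ A)) : fr ∅ p = nvar p := by
  rw [fr, Finset.sdiff_empty]; rfl

lemma fr_nil (S : Finset ℕ) : fr S ([] : List (ℕ ⊕ A)) = 0 := by
  simp [fr, vs]

lemma fr_append (S : Finset ℕ) (p p' : List (ℕ ⊕ A)) :
    fr S (p ++ p') = fr S p + fr (S ∪ vs p) p' := by
  rw [fr, fr, fr, vs_append, ← Finset.card_union_of_disjoint]
  · congr 1
    ext x
    simp only [Finset.mem_sdiff, Finset.mem_union]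
    tauto
  · rw [Finset.disjoint_left]
    intro x hx hx'
    simp only [Finset.mem_sdiff, Finset.mem_union] at hx hx'
    exact hx'.2 (Or.inr hx.1)

lemma fr_le (S : Finset ℕ) (p : List (ℕ ⊕ A)) : fr S p ≤ p.length := by
  have := later_add p S
  have h : fr S p = ((p.filterMap Sum.getLeft?).toFinset \ S).card := rfl
  omega

lemma fr_cons_inr (S : Finset ℕ) (a : A) (p : List (ℕ ⊕ A)) : fr S (Sum.inr a :: p) = fr S p := by
  rw [fr, vs, vars_cons_inr]; rfl

lemma fr_cons_mem {S : Finset ℕ} {x : ℕ} (hx : x ∈ S) (p : List (ℕ ⊕ A)) :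
    fr S (Sum.inl x :: p) = fr S p := by
  rw [fr, vs, vars_cons_inl, Finset.insert_sdiff_of_mem _ hx]; rfl

lemma fr_cons_new {S : Finset ℕ} {x : ℕ} (hx : x ∉ S) (p : List (ℕ ⊕ A)) :
    fr S (Sum.inl x :: p) = fr (insert x S) p + 1 := by
  have h := fr_append S [Sum.inl x] p
  have h1 : vs ([Sum.inl x] : List (ℕ ⊕ A)) = {x} := by
    ext y; rw [mem_vs]; simp
  have h2 : fr S ([Sum.inl x] : List (ℕ ⊕ A)) = 1 := by
    rw [fr, h1, Finset.sdiff_eq_self_of_disjoint (by simpa using hx), Finset.card_singleton]
  rw [List.singleton_append, h2, h1] at h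
  rw [h, add_comm, Finset.union_comm, Finset.insert_eq]

lemma lets_cons (f : ℕ → A) (s : ℕ ⊕ A) (p : List (ℕ ⊕ A)) :
    lets f (s :: p) = Sum.elim f id s :: lets f p := rfl

lemma lets_append (f : ℕ → A) (p p' : List (ℕ ⊕ A)) :
    lets f (p ++ p') = lets f p ++ lets f p' := by
  simp [lets]

lemma lets_congr {f g : ℕ → A} {p : List (ℕ ⊕ A)} (h : ∀ x, Sum.inl x ∈ p → f x = g x) :
    lets f p = lets g p := by
  apply List.map_congr_left
  intro s hs
  cases s with
  | inl x => exact h x hs
  | inr a => rfl

open Classical in
/-- one step of the embedding game -/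
noncomputable def stp (a : A) : List A → List A
  | [] => []
  | b :: l => if b = a then l else b :: l

lemma stp_length (a : A) (l : List A) : l.length ≤ (stp a l).length + 1 := by
  cases l with
  | nil => simp
  | cons b l =>
    rw [stp]
    split_ifs
    · simp
    · simp

lemma stp_sublist {a : A} {l w : List A} (h : l.Sublist (a :: w)) : (stp a l).Sublist w := by
  cases l with
  | nil => simp [stp]
  | cons b l =>
    rw [stp]
    split_ifs with hb
    · subst hb
      exact List.cons_sublist_cons.mp h
    · rcases List.sublist_cons_iff.mp h with h1 | ⟨r, h1, _⟩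
      · exact h1
      · exact absurd (List.cons.inj h1).1 hb

lemma skip_sublist {a : A} {l w : List A} (h : l.Sublist (a :: w)) (hh : l.head? ≠ some a) :
    l.Sublist w := by
  rcases List.sublist_cons_iff.mp h with h1 | ⟨r, h1, _⟩
  · exact h1
  · rw [h1] at hh
    exact absurd rfl hh

/-- a letter that is the first letter of no `u c` with `c ≠ c0` -/
lemma exists_letter [Fintype A] (c0 : A) (u : A → List A) :
    ∃ b : A, ∀ c, c ≠ c0 → (u c).head? ≠ some b := by
  classical
  by_contra hcon
  push Not at hcon
  choose g hg1 hg2 using hcon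
  have hinj : Function.Injective g := by
    intro b b' h
    have h1 := hg2 b
    rw [h, hg2 b'] at h1
    exact (Option.some.inj h1).symm
  obtain ⟨b, hb⟩ := (Finite.injective_iff_surjective.mp hinj) c0
  exact hg1 b hb

/-- no `u c` embeds in the instance -/
theorem kill2 [Fintype A] [Nontrivial A] (c0 : A) (p : List (ℕ ⊕ A)) :
    ∀ (S : Finset ℕ) (f0 : ℕ → A) (u : A → List A) (E0 E1 : ℕ),
      (∀ c, c ≠ c0 → p.length + 1 ≤ (u c).length + E1) →
      p.length + 1 ≤ (u c0).length + E0 → E0 + E1 ≤ fr S p →
      ∃ f : ℕ → A, (∀ x ∈ S, f x = f0 x) ∧ ∀ c, ¬ (u c).Sublist (lets f p) := by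
  classical
  induction p with
  | nil =>
    intro S f0 u E0 E1 h1 h0 h2
    rw [fr_nil] at h2
    refine ⟨f0, fun _ _ => rfl, fun c hc => ?_⟩
    have h3 : (u c) = [] := by simpa [lets] using hc
    by_cases hcc : c = c0
    · rw [← hcc, h3] at h0; simp at h0; omega
    · have := h1 c hcc
      rw [h3] at this; simp at this; omega
  | cons s p ih =>
    intro S f0 u E0 E1 h1 h0 h2
    rw [List.length_cons] at h0
    have h1' : ∀ c, c ≠ c0 → p.length + 1 + 1 ≤ (u c).length + E1 := by
      intro c hc; have := h1 c hc; rwa [List.length_cons] at this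
    -- determined positions
    have forced : ∀ a : A, E0 + E1 ≤ fr S p → ∃ f : ℕ → A, (∀ x ∈ S, f x = f0 x) ∧
        ∀ c, ¬ (u c).Sublist (a :: lets f p) := by
      intro a h3
      obtain ⟨f, hf1, hf2⟩ := ih S f0 (fun c => stp a (u c)) E0 E1
        (fun c hc => by have := h1' c hc; have := stp_length a (u c); omega)
        (by have := stp_length a (u c0); omega) h3
      exact ⟨f, hf1, fun c hc => hf2 c (stp_sublist hc)⟩
    cases s with
    | inr a =>
      rw [fr_cons_inr] at h2
      exact forced a h2
    | inl x =>
      by_cases hx : x ∈ S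
      · rw [fr_cons_mem hx] at h2
        obtain ⟨f, hf1, hf2⟩ := forced (f0 x) h2
        refine ⟨f, hf1, fun c hc => hf2 c ?_⟩
        rw [← hf1 x hx]
        exact hc
      · rw [fr_cons_new hx] at h2
        -- the free choice
        have free : ∀ (b : A) (u' : A → List A) (E0' E1' : ℕ),
            (∀ c, c ≠ c0 → p.length + 1 ≤ (u' c).length + E1') →
            p.length + 1 ≤ (u' c0).length + E0' → E0' + E1' ≤ fr (insert x S) p →
            (∀ c w, (u c).Sublist (b :: w) → (u' c).Sublist w) →
            ∃ f : ℕ → A, (∀ x ∈ S, f x = f0 x) ∧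
              ∀ c, ¬ (u c).Sublist (lets f (Sum.inl x :: p)) := by
          intro b u' E0' E1' h4 h5 h6 h7
          obtain ⟨f, hf1, hf2⟩ := ih (insert x S) (Function.update f0 x b) u' E0' E1' h4 h5 h6
          refine ⟨f, fun y hy => ?_, fun c hc => hf2 c (h7 c _ ?_)⟩
          · rw [hf1 y (Finset.mem_insert_of_mem hy), Function.update_of_ne]
            rintro rfl
            exact hx hy
          · have h8 : f x = b := by
              rw [hf1 x (Finset.mem_insert_self _ _), Function.update_self]
            rw [lets_cons, Sum.elim_inl, h8] at hc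
            exact hc
        rcases Nat.eq_zero_or_pos E1 with hE1 | hE1
        · rcases Nat.eq_zero_or_pos E0 with hE0 | hE0
          · refine ⟨f0, fun _ _ => rfl, fun c hc => ?_⟩
            have h3 := hc.length_le
            rw [lets_length, List.length_cons] at h3
            by_cases hcc : c = c0
            · rw [hcc] at h3; omega
            · have := h1' c hcc; omega
          · obtain ⟨b, hb⟩ : ∃ b, (u c0).head? ≠ some b := by
              obtain ⟨a, b, hab⟩ := exists_pair_ne A
              by_cases h : (u c0).head? = some a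
              · exact ⟨b, by rw [h]; intro h'; exact hab (Option.some.inj h')⟩
              · exact ⟨a, h⟩
            refine free b (fun c => if c = c0 then u c else stp b (u c)) (E0 - 1) E1
              (fun c hc => ?_) ?_ (by omega) (fun c w hw => ?_)
            · simp only [hc, if_false]
              have := h1' c hc; have := stp_length b (u c); omega
            · simp only [if_true]; omega
            · by_cases hc : c = c0
              · simp only [hc, if_true]
                rw [hc] at hw
                exact skip_sublist hw hb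
              · simp only [hc, if_false]
                exact stp_sublist hw
        · obtain ⟨b, hb⟩ := exists_letter c0 u
          refine free b (fun c => if c = c0 then stp b (u c) else u c) E0 (E1 - 1)
            (fun c hc => ?_) ?_ (by omega) (fun c w hw => ?_)
          · simp only [hc, if_false]
            have := h1' c hc; omega
          · simp only [if_true]
            have := stp_length b (u c0); omega
          · by_cases hc : c = c0
            · simp only [hc, if_true]
              rw [hc] at hw
              exact stp_sublist hw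
            · simp only [hc, if_false]
              exact skip_sublist hw (hb c hc)

end Pool.Agent.H54.PD
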