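import Mathlib
import Pool.Agent.H54.PD.Kill

/-!
# MP_7f399b_lc: the relaxed statement for a product of one-variable blocks
-/

namespace Pool.Agent.H54.PD

open Pool.Agent.PatDepth Pool.Agent.H344R3.PD

variable {A : Type}

/-- the blocks embed one after the other, each for some letter -/
def Emb : List (List (ℕ ⊕ A)) → List A → Prop
  | [], _ => True
  | Q :: Qs, w => ∃ (c : A) (w1 w2 : List A), w = w1 ++ w2 ∧
      (lets (fun _ => c) Q).Sublist w1 ∧ Emb Qs w2

lemma Emb_suffix {Qs : List (List (ℕ ⊕ A))} {w w' : List A} (h : Emb Qs w) (hw : w <:+ w') :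
    Emb Qs w' := by
  cases Qs with
  | nil => trivial
  | cons Q Qs =>
    obtain ⟨c, w1, w2, rfl, h1, h2⟩ := h
    obtain ⟨v, rfl⟩ := hw
    exact ⟨c, v ++ w1, w2, by rw [List.append_assoc], h1.trans (List.sublist_append_right _ _), h2⟩

/-- extending a partial choice of letters -/
lemma combine {p1 p2 : List (ℕ ⊕ A)} {s : ℕ ⊕ A} {S : Finset ℕ} {f0 f1 f2 : ℕ → A}
    (h1 : ∀ x ∈ S, f1 x = f0 x) (h2 : ∀ x ∈ S ∪ vs (p1 ++ [s]), f2 x = f1 x) :
    (∀ x ∈ S, f2 x = f0 x) ∧ lets f2 (p1 ++ s :: p2) =
      lets f1 p1 ++ Sum.elim f1 id s :: lets f2 p2 := by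
  constructor
  · intro x hx
    rw [h2 x (Finset.mem_union_left _ hx), h1 x hx]
  · have h3 : p1 ++ s :: p2 = (p1 ++ [s]) ++ p2 := by simp
    have h4 : lets f2 (p1 ++ [s]) = lets f1 (p1 ++ [s]) :=
      lets_congr fun x hx => h2 x (Finset.mem_union_right _ (mem_vs.mpr hx))
    rw [h3, lets_append, h4, lets_append, lets_cons]
    simp [lets]

/-- the first block ends beyond `w1`: the others embed in what follows -/
lemma Emb_tail {Q : List (ℕ ⊕ A)} {Qs : List (List (ℕ ⊕ A))} {w1 w2 : List A} {a : A}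
    (hE : Emb (Q :: Qs) (w1 ++ a :: w2)) (hk : ∀ c : A, ¬ (lets (fun _ => c) Q).Sublist w1) :
    Emb Qs w2 := by
  obtain ⟨c, v1, v2, hv, hs, hE2⟩ := hE
  apply Emb_suffix hE2
  have h1 : w1.length < v1.length := by
    by_contra hcon
    push Not at hcon
    have h2 : v1 <+: w1 := by
      apply List.prefix_of_prefix_length_le (l₃ := w1 ++ a :: w2) _ _ hcon
      · rw [hv]; exact List.prefix_append _ _
      · exact List.prefix_append _ _
    exact hk c (hs.trans h2.sublist)
  apply List.suffix_of_suffix_length_le (l₃ := w1 ++ a :: w2)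
  · rw [hv]; exact List.suffix_append _ _
  · exact (List.suffix_cons a w2).trans (List.suffix_append _ _)
  · have := congrArg List.length hv
    simp only [List.length_append, List.length_cons] at this
    omega

/-- the first `t` with `fr S (p.take t) + 2 * m ≤ 2 * t + 1` -/
lemma first_time (S : Finset ℕ) (p : List (ℕ ⊕ A)) {m : ℕ} (hm : 1 ≤ m) :
    2 * p.length + 2 ≤ fr S p + 2 * m ∨
    ∃ p1 s p2, p = p1 ++ s :: p2 ∧ fr S (p1 ++ [s]) + 2 * m ≤ 2 * p1.length + 3 ∧
      2 * p1.length + 2 ≤ fr S p1 + 2 * m := by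
  classical
  by_cases h : ∃ t, t ≤ p.length ∧ fr S (p.take t) + 2 * m ≤ 2 * t + 1
  · right
    obtain ⟨h1, h2⟩ := Nat.find_spec h
    set t := Nat.find h with ht
    have hmin : ∀ n, n < t → ¬ (n ≤ p.length ∧ fr S (p.take n) + 2 * m ≤ 2 * n + 1) :=
      fun n hn => Nat.find_min h hn
    cases hc : t with
    | zero =>
      rw [hc] at h2
      omega
    | succ t' =>
      rw [hc] at h1 h2 hmin
      have h3 := hmin t' (Nat.lt_succ_self _)
      have hlt : t' < p.length := h1
      refine ⟨p.take t', p[t'], p.drop (t' + 1), ?_, ?_, ?_⟩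
      · rw [← List.drop_eq_getElem_cons hlt, List.take_append_drop]
      · rw [List.take_append_getElem hlt, List.length_take, min_eq_left hlt.le]
        omega
      · rw [List.length_take, min_eq_left hlt.le]
        by_contra hcon
        exact h3 ⟨hlt.le, by omega⟩
  · left
    push Not at h
    have := h p.length le_rfl
    rw [List.take_length] at this
    omega

lemma lets_block_length (c : A) (Q : List (ℕ ⊕ A)) :
    (lets (fun _ => c) Q).length = Q.length := lets_length _ _

/-- the relaxed statement, with slack one -/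
theorem relax [Fintype A] [Nontrivial A] (Qs : List (List (ℕ ⊕ A))) :
    (∀ Q ∈ Qs, Q ≠ []) → ∀ (p : List (ℕ ⊕ A)) (S : Finset ℕ) (f0 : ℕ → A),
      Qs.length + 2 * p.length + 1 ≤ fr S p + 2 * Qs.flatten.length →
      ∃ f : ℕ → A, (∀ x ∈ S, f x = f0 x) ∧ ¬ Emb Qs (lets f p) := by
  obtain ⟨a0, _, _⟩ := exists_pair_ne A
  induction Qs with
  | nil =>
    intro _ p S f0 h
    have := fr_le S p
    simp at h
    omega
  | cons Q Qs ih =>
    intro hQ p S f0 h
    have hm : 1 ≤ Q.length := List.length_pos_iff.mpr (hQ Q (List.mem_cons_self))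
    rw [List.flatten_cons, List.length_append, List.length_cons] at h
    rcases first_time S p hm with h1 | ⟨p1, s, p2, rfl, h2, h3⟩
    · obtain ⟨f, hf1, hf2⟩ := kill2 a0 p S f0 (fun c => lets (fun _ => c) Q)
        (p.length + 1 - Q.length) (p.length + 1 - Q.length)
        (fun c _ => by rw [lets_length]; omega) (by rw [lets_length]; omega)
        (by omega)
      refine ⟨f, hf1, ?_⟩
      rintro ⟨c, w1, w2, hw, hs, -⟩
      refine hf2 c ?_
      rw [hw]
      exact hs.trans (List.sublist_append_left _ _)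
    · obtain ⟨f1, hf1, hf2⟩ := kill2 a0 p1 S f0 (fun c => lets (fun _ => c) Q)
        (p1.length + 1 - Q.length) (p1.length + 1 - Q.length)
        (fun c _ => by rw [lets_length]; omega) (by rw [lets_length]; omega)
        (by omega)
      have h4 : p1 ++ s :: p2 = (p1 ++ [s]) ++ p2 := by simp
      have h5 := fr_append S (p1 ++ [s]) p2
      rw [← h4] at h5
      obtain ⟨f2, hf3, hf4⟩ := ih (fun Q' hQ' => hQ Q' (List.mem_cons_of_mem _ hQ')) p2
        (S ∪ vs (p1 ++ [s])) f1 (by
          rw [h5, List.length_append, List.length_cons] at h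
          omega)
      obtain ⟨h6, h7⟩ := combine (p2 := p2) hf1 hf3
      refine ⟨f2, h6, fun hE => hf4 ?_⟩
      rw [h7] at hE
      exact Emb_tail hE hf2

end Pool.Agent.H54.PD
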