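import Mathlib
import Pool.Agent.H54.PD.Emb

/-!
# MP_7f399b_lc: one block with exact positions
-/

namespace Pool.Agent.H54.PD

open Pool.Agent.PatDepth Pool.Agent.H344R3.PD

variable {A : Type}

/-- `z` is the only variable of `Q` -/
def One (z : ℕ) (Q : List (ℕ ⊕ A)) : Prop := ∀ x, Sum.inl x ∈ Q → x = z

lemma One.append_left {z : ℕ} {Q1 Q2 : List (ℕ ⊕ A)} (h : One z (Q1 ++ Q2)) : One z Q1 :=
  fun x hx => h x (List.mem_append_left _ hx)

lemma One.append_right {z : ℕ} {Q1 Q2 : List (ℕ ⊕ A)} (h : One z (Q1 ++ Q2)) : One z Q2 :=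
  fun x hx => h x (List.mem_append_right _ hx)

/-- the letters `c` embed where `c` is the first letter of the image of the variable -/
lemma head_sub {z : ℕ} {Q : List (ℕ ⊕ A)} (h : One z Q) {τ : ℕ → List A} {c : A} {l : List A}
    (hc : τ z = c :: l) : (lets (fun _ => c) Q).Sublist (subst τ Q) := by
  induction Q with
  | nil => simp [lets]
  | cons s Q ih =>
    have h1 : One z Q := fun x hx => h x (List.mem_cons_of_mem _ hx)
    rw [lets_cons, subst_cons]
    cases s with
    | inr a =>
      exact List.cons_sublist_cons.mpr (ih h1)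
    | inl x =>
      have hx : x = z := h x (List.mem_cons_self)
      subst hx
      rw [Sum.elim_inl, Sum.elim_inl, hc, List.cons_append]
      exact List.cons_sublist_cons.mpr ((ih h1).trans (List.sublist_append_right _ _))

/-- only variables -/
def AllVar (Q : List (ℕ ⊕ A)) : Prop := ∀ s ∈ Q, ∃ x, s = Sum.inl x

lemma lets_allVar {Q : List (ℕ ⊕ A)} (h : AllVar Q) (c : A) :
    lets (fun _ => c) Q = List.replicate Q.length c := by
  induction Q with
  | nil => rfl
  | cons s Q ih =>
    obtain ⟨x, rfl⟩ := h s (List.mem_cons_self)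
    rw [lets_cons, ih fun s hs => h s (List.mem_cons_of_mem _ hs), List.length_cons,
      List.replicate_succ]
    rfl

lemma subst_allVar_length {Q : List (ℕ ⊕ A)} (h : AllVar Q) {z : ℕ} (hz : One z Q)
    (τ : ℕ → List A) : (subst τ Q).length = Q.length * (τ z).length := by
  induction Q with
  | nil => simp [subst]
  | cons s Q ih =>
    obtain ⟨x, rfl⟩ := h s (List.mem_cons_self)
    have hx : x = z := hz x (List.mem_cons_self)
    subst hx
    rw [subst_cons, List.length_append, ih (fun s hs => h s (List.mem_cons_of_mem _ hs))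
      (fun y hy => hz y (List.mem_cons_of_mem _ hy)), List.length_cons, Sum.elim_inl]
    ring

lemma fr_single_inr (S : Finset ℕ) (a : A) : fr S [Sum.inr a] = 0 := by
  rw [fr_cons_inr, fr_nil]

lemma fr_single_mem {S : Finset ℕ} {x : ℕ} (hx : x ∈ S) :
    fr S ([Sum.inl x] : List (ℕ ⊕ A)) = 0 := by
  rw [fr_cons_mem hx, fr_nil]

lemma fr_single_new {S : Finset ℕ} {x : ℕ} (hx : x ∉ S) :
    fr S ([Sum.inl x] : List (ℕ ⊕ A)) = 1 := by
  rw [fr_cons_new hx, fr_nil]

lemma fr_single (S : Finset ℕ) (s : ℕ ⊕ A) :
    fr S [s] = 0 ∨ ∃ x, s = Sum.inl x ∧ x ∉ S := by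
  cases s with
  | inr a => exact Or.inl (fr_single_inr S a)
  | inl x =>
    by_cases hx : x ∈ S
    · exact Or.inl (fr_single_mem hx)
    · exact Or.inr ⟨x, rfl, hx⟩

lemma fr_single_le (S : Finset ℕ) (s : ℕ ⊕ A) : fr S [s] ≤ 1 := fr_le S [s]

lemma fr_full {S : Finset ℕ} {P : List (ℕ ⊕ A)} (h : fr S P = P.length) :
    ∀ s ∈ P, ∃ x, s = Sum.inl x ∧ x ∉ S := by
  intro s hs
  obtain ⟨P1, P2, rfl⟩ := List.append_of_mem hs
  have h1 : P1 ++ s :: P2 = P1 ++ ([s] ++ P2) := by simp
  have h2 := fr_append S P1 ([s] ++ P2)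
  have h3 := fr_append (S ∪ vs P1) [s] P2
  have h4 := fr_le S P1
  have h5 := fr_le (S ∪ vs P1 ∪ vs [s]) P2
  rw [h1, List.length_append, List.length_append, List.length_singleton] at h
  rcases fr_single (S ∪ vs P1) s with h6 | ⟨x, hx, hx'⟩
  · omega
  · exact ⟨x, hx, fun hh => hx' (Finset.mem_union_left _ hh)⟩

lemma lets_full {S : Finset ℕ} {P : List (ℕ ⊕ A)} (h : fr S P = P.length) {f : ℕ → A} {b : A}
    (hf : ∀ x, Sum.inl x ∈ P → x ∉ S → f x = b) : lets f P = List.replicate P.length b := by
  have h1 := fr_full h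
  have h2 : lets f P = lets (fun _ => b) P := by
    apply lets_congr
    intro x hx
    obtain ⟨y, hy, hy'⟩ := h1 _ hx
    exact hf x hx (by rw [Sum.inl.inj hy]; exact hy')
  rw [h2]
  apply lets_allVar
  intro s hs
  obtain ⟨x, hx, _⟩ := h1 s hs
  exact ⟨x, hx⟩

/-- the leading positions that are new variables in `P` and variables in `Q` -/
lemma splitPQ (S : Finset ℕ) (P Q : List (ℕ ⊕ A)) (n : ℕ) : n ≤ P.length → n ≤ Q.length →
    (∃ P1 P2 Q1 Q2, P = P1 ++ P2 ∧ Q = Q1 ++ Q2 ∧ P1.length = n ∧ Q1.length = n ∧
      fr S P1 = n ∧ AllVar Q1) ∨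
    (∃ P1 s P2 Q1 r Q2, P = P1 ++ s :: P2 ∧ Q = Q1 ++ r :: Q2 ∧ P1.length = Q1.length ∧
      P1.length < n ∧ fr S P1 = P1.length ∧ AllVar Q1 ∧
      (fr (S ∪ vs P1) [s] = 0 ∨ ∃ d, r = Sum.inr d)) := by
  induction n with
  | zero =>
    intro _ _
    left
    exact ⟨[], P, [], Q, rfl, rfl, rfl, rfl, fr_nil S, fun s hs => absurd hs (by simp)⟩
  | succ n ih =>
    intro hP hQ
    rcases ih (by omega) (by omega) with ⟨P1, P2, Q1, Q2, rfl, rfl, h1, h2, h3, h4⟩ |
      ⟨P1, s, P2, Q1, r, Q2, h1, h2, h3, h4, h5, h6, h7⟩
    · cases P2 with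
      | nil => simp at hP; omega
      | cons s P2 =>
        cases Q2 with
        | nil => simp at hQ; omega
        | cons r Q2 =>
          by_cases hc : fr (S ∪ vs P1) [s] = 0 ∨ ∃ d, r = Sum.inr d
          · right
            exact ⟨P1, s, P2, Q1, r, Q2, rfl, rfl, by omega, by omega, by omega, h4, hc⟩
          · left
            push Not at hc
            obtain ⟨h5, h6⟩ := hc
            refine ⟨P1 ++ [s], P2, Q1 ++ [r], Q2, by simp, by simp, by simp [h1], by simp [h2],
              ?_, ?_⟩
            · rw [fr_append, h3]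
              have := fr_single_le (S ∪ vs P1) s
              omega
            · intro t ht
              rw [List.mem_append, List.mem_singleton] at ht
              rcases ht with ht | rfl
              · exact h4 t ht
              · cases t with
                | inl x => exact ⟨x, rfl⟩
                | inr a => exact absurd rfl (h6 a)
    · right
      exact ⟨P1, s, P2, Q1, r, Q2, h1, h2, h3, by omega, h5, h6, h7⟩

lemma skip_rep {b : A} {l w : List A} (hh : l.head? ≠ some b) (n : ℕ)
    (h : l.Sublist (List.replicate n b ++ w)) : l.Sublist w := by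
  induction n with
  | zero => simpa using h
  | succ n ih =>
    apply ih
    rw [List.replicate_succ, List.cons_append] at h
    exact skip_sublist h hh

lemma drop_sub {l1 : List A} : ∀ {l w : List A}, l.Sublist (l1 ++ w) →
    (l.drop l1.length).Sublist w := by
  induction l1 with
  | nil => intro l w h; simpa using h
  | cons a l1 ih =>
    intro l w h
    rw [List.cons_append] at h
    rcases List.sublist_cons_iff.mp h with h1 | ⟨r, rfl, h1⟩
    · have h2 := ih h1
      rw [List.length_cons]
      refine List.Sublist.trans ?_ h2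
      have : l.drop (l1.length + 1) = (l.drop l1.length).drop 1 := by
        rw [List.drop_drop]
      rw [this]
      exact List.drop_sublist _ _
    · rw [List.length_cons, List.drop_succ_cons]
      exact ih h1

lemma rep_sub {b d : A} (hd : d ≠ b) (i : ℕ) {R w : List A}
    (h : (List.replicate i b ++ d :: R).Sublist (List.replicate (i + 1) b ++ w)) :
    (d :: R).Sublist w := by
  induction i with
  | zero =>
    refine skip_rep (b := b) ?_ 1 (by simpa using h)
    simpa using hd
  | succ i ih =>
    apply ih
    rw [List.replicate_succ, List.cons_append, List.replicate_succ (n := i + 1),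
      List.cons_append] at h
    exact List.cons_sublist_cons.mp h

/-- the common part of the cases -/
lemma core [Fintype A] [Nontrivial A] {e z i k : ℕ} {P1 P2 Q : List (ℕ ⊕ A)} {s : ℕ ⊕ A}
    {S : Finset ℕ} {f0 f1 : ℕ → A} {b : A} (hz : One z Q)
    (hlen : (P1 ++ s :: P2).length = Q.length + e) (hi : P1.length = i) (hi' : i ≤ e)
    (hm : e + 1 ≤ Q.length) (hk : k ≤ i + 1) (hf1 : ∀ x ∈ S, f1 x = f0 x)
    (hP1 : lets f1 P1 = List.replicate i b) (hs : Sum.elim f1 id s = b)
    (hfr : 2 * (e - i) + k ≤ fr (S ∪ vs (P1 ++ [s])) P2)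
    (hb : ∀ w, (lets (fun _ => b) Q).Sublist (List.replicate (i + 1) b ++ w) →
      ((lets (fun _ => b) Q).drop k).Sublist w)
    (hc : ∀ c, c ≠ b → (lets (fun _ => c) Q).head? ≠ some b) :
    ∃ f : ℕ → A, (∀ x ∈ S, f x = f0 x) ∧ ∀ τ : ℕ → List A, (∀ x, τ x ≠ []) →
      ¬ (subst τ Q <:+: lets f (P1 ++ s :: P2)) := by
  classical
  rw [List.length_append, List.length_cons] at hlen
  obtain ⟨f, hfa, hfb⟩ := kill2 b P2 (S ∪ vs (P1 ++ [s])) f1
    (fun c => if c = b then (lets (fun _ => c) Q).drop k else lets (fun _ => c) Q)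
    (e - i + k) (e - i)
    (fun c hcb => by simp only [hcb, if_false]; rw [lets_length]; omega)
    (by simp only [if_true]; rw [List.length_drop, lets_length]; omega) (by omega)
  obtain ⟨h6, h7⟩ := combine (p2 := P2) hf1 hfa
  refine ⟨f, h6, fun τ hτ hinf => ?_⟩
  obtain ⟨c, l, hcl⟩ := List.exists_cons_of_ne_nil (hτ z)
  have h8 : (lets (fun _ => c) Q).Sublist (List.replicate (i + 1) b ++ lets f P2) := by
    have h9 := (head_sub hz hcl).trans hinf.sublist
    rw [h7, hP1, hs] at h9
    rw [List.replicate_succ', List.append_assoc, List.singleton_append]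
    exact h9
  refine hfb c ?_
  by_cases hcb : c = b
  · subst hcb
    simp only [if_true]
    exact hb _ h8
  · simp only [hcb, if_false]
    exact skip_rep (hc c hcb) _ h8

lemma head_lets_append {Q1 Q2 : List (ℕ ⊕ A)} (h : AllVar Q1) (hne : Q1 ≠ []) (c : A) :
    (lets (fun _ => c) (Q1 ++ Q2)).head? = some c := by
  cases Q1 with
  | nil => exact absurd rfl hne
  | cons s Q1 =>
    obtain ⟨x, rfl⟩ := h s (List.mem_cons_self)
    rfl

/-- the first case -/
lemma align {a b c : A} (hab : a ≠ b) {e : ℕ} {u R W : List A} (hu : u.length ≤ e)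
    (h : u ++ (List.replicate (e + 1) c ++ R) = List.replicate e a ++ b :: W) :
    u.length = e ∧ c = b := by
  have h1 : ∀ n, u.length ≤ n → n < u.length + (e + 1) →
      (u ++ (List.replicate (e + 1) c ++ R))[n]? = some c := by
    intro n hn hn'
    rw [List.getElem?_append_right hn, List.getElem?_append_left (by simp; omega),
      List.getElem?_replicate, if_pos (by omega)]
  have h2 : (List.replicate e a ++ b :: W)[e]? = some b := by
    rw [List.getElem?_append_right (by simp)]
    simp
  have h3 : c = b := by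
    have := h1 e hu (by omega)
    rw [h, h2] at this
    exact (Option.some.inj this).symm
  refine ⟨?_, h3⟩
  by_contra hne
  have h4 : u.length < e := by omega
  have h5 : (List.replicate e a ++ b :: W)[u.length]? = some a := by
    rw [List.getElem?_append_left (by simpa using h4), List.getElem?_replicate, if_pos h4]
  have h6 := h1 u.length le_rfl (by omega)
  rw [h, h5] at h6
  exact hab ((Option.some.inj h6).trans h3)

lemma avoid [Nontrivial A] {S : Finset ℕ} {p : List (ℕ ⊕ A)} (h : 1 ≤ fr S p) (f0 : ℕ → A)
    (W : List A) : ∃ f : ℕ → A, (∀ x ∈ S, f x = f0 x) ∧ lets f p ≠ W := by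
  classical
  obtain ⟨x, hx⟩ := Finset.card_pos.mp (show 0 < (vs p \ S).card from h)
  rw [Finset.mem_sdiff, mem_vs] at hx
  obtain ⟨a, b, hab⟩ := exists_pair_ne A
  have key : ∀ c, ∀ y ∈ S, Function.update f0 x c y = f0 y := by
    intro c y hy
    rw [Function.update_of_ne]
    rintro rfl
    exact hx.2 hy
  by_cases h1 : lets (Function.update f0 x a) p = W
  · refine ⟨Function.update f0 x b, key b, fun h2 => hab ?_⟩
    have h3 : lets (Function.update f0 x a) p = lets (Function.update f0 x b) p := h1.trans h2.symm
    have h4 := List.map_inj_left.mp h3 _ hx.1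
    simpa using h4
  · exact ⟨Function.update f0 x a, key a, h1⟩

/-- the case without common leading constants -/
lemma rk_np [Fintype A] [Nontrivial A] {e z : ℕ} (he : 1 ≤ e) {P Q : List (ℕ ⊕ A)}
    {S : Finset ℕ} {f0 : ℕ → A} (hz : One z Q) (hlen : P.length = Q.length + e)
    (hfr : 2 * e + 1 ≤ fr S P)
    (hnp : ∀ s P' a Q', P = s :: P' → Q = Sum.inr a :: Q' → fr S [s] = 0 →
      Sum.elim f0 id s ≠ a) :
    ∃ f : ℕ → A, (∀ x ∈ S, f x = f0 x) ∧ ∀ τ : ℕ → List A, (∀ x, τ x ≠ []) →
      ¬ (subst τ Q <:+: lets f P) := by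
  classical
  have hm : e + 1 ≤ Q.length := by
    have := fr_le S P
    omega
  rcases splitPQ S P Q (e + 1) (by omega) hm with
    ⟨P1, P2, Q1, Q2, rfl, rfl, h1, h2, h3, h4⟩ |
    ⟨P1, s, P2, Q1, r, Q2, rfl, rfl, h1, h2, h3, h4, h5⟩
  · -- `e + 1` new variables against `e + 1` variables
    obtain ⟨P1', s, rfl⟩ : ∃ P1' s, P1 = P1' ++ [s] := by
      have : P1 ≠ [] := by intro h; rw [h] at h1; simp at h1
      exact ⟨P1.dropLast, P1.getLast this, (List.dropLast_append_getLast this).symm⟩
    rw [List.length_append, List.length_singleton] at h1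
    have h5 := fr_append S P1' [s]
    have h6 := fr_le S P1'
    have h7 := fr_single_le (S ∪ vs P1') s
    obtain ⟨y, rfl, hy⟩ : ∃ y, s = Sum.inl y ∧ y ∉ S ∪ vs P1' := by
      rcases fr_single (S ∪ vs P1') s with h8 | h8
      · omega
      · exact h8
    obtain ⟨a, b, hab⟩ := exists_pair_ne A
    set f1 : ℕ → A := fun x => if x ∈ S then f0 x else if x = y then b else a with hf1
    have hyS : y ∉ S := fun h => hy (Finset.mem_union_left _ h)
    have hyP : Sum.inl y ∉ P1' := fun h => hy (Finset.mem_union_right _ (mem_vs.mpr h))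
    have hf1S : ∀ x ∈ S, f1 x = f0 x := fun x hx => by simp [hf1, hx]
    have hf1y : f1 y = b := by simp [hf1, hyS]
    have hP1 : lets f1 P1' = List.replicate e a := by
      have h8 : P1'.length = e := by omega
      rw [← h8]
      refine lets_full (S := S) (by omega) fun x hx hxS => ?_
      have : x ≠ y := by rintro rfl; exact hyP hx
      simp [hf1, hxS, this]
    have h8 := fr_append S (P1' ++ [Sum.inl y]) P2
    obtain ⟨f2, hf2, hf2'⟩ := avoid (S := S ∪ vs (P1' ++ [Sum.inl y])) (p := P2)
      (by omega) f1 (lets (fun _ => b) (Q1 ++ Q2)).tail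
    obtain ⟨h9, h10⟩ := combine (p2 := P2) hf1S hf2
    refine ⟨f2, h9, fun τ hτ hinf => hf2' ?_⟩
    have h11 : P1' ++ [Sum.inl y] ++ P2 = P1' ++ Sum.inl y :: P2 := by simp
    rw [h11, h10, hP1, Sum.elim_inl, hf1y] at hinf
    obtain ⟨u, v, huv⟩ := hinf
    have hlenu := congrArg List.length huv
    rw [List.length_append, List.length_append, List.length_append, List.length_cons,
      List.length_replicate, lets_length] at hlenu
    rw [List.length_append, List.length_append, List.length_append] at hlen
    rw [List.length_singleton] at hlen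
    have hz1 : One z Q1 := hz.append_left
    have hsl : (subst τ (Q1 ++ Q2)).length = Q1.length * (τ z).length + (subst τ Q2).length := by
      rw [subst_append, List.length_append, subst_allVar_length h4 hz1]
    have hsl2 := length_le hτ Q2
    have hpos := List.length_pos_iff.mpr (hτ z)
    have hone : (τ z).length = 1 := by
      by_contra hne
      have h12 : 2 ≤ (τ z).length := by omega
      have h13 : Q1.length * 2 ≤ Q1.length * (τ z).length := Nat.mul_le_mul_left _ h12
      omega
    obtain ⟨c, hcz⟩ := List.length_eq_one_iff.mp hone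
    have hsub : subst τ (Q1 ++ Q2) = lets (fun _ => c) (Q1 ++ Q2) := by
      rw [← subst_letter]
      apply subst_congr
      intro x hx
      rw [hz x hx, hcz]
    have hul : u.length ≤ e := by
      rw [hsub, lets_length, List.length_append] at hlenu
      omega
    have huv2 : u ++ (List.replicate (e + 1) c ++ (lets (fun _ => c) Q2 ++ v)) =
        List.replicate e a ++ b :: lets f2 P2 := by
      rw [← huv, hsub, lets_append, lets_allVar h4, h2]
      simp
    obtain ⟨h12, h13⟩ := align hab hul huv2
    subst h13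
    have hv : v = [] := by
      apply List.length_eq_zero_iff.mp
      rw [hsub, lets_length, List.length_append] at hlenu
      omega
    rw [hv, List.append_nil, hsub] at huv
    have h14 := List.append_inj_right huv (by rw [List.length_replicate]; exact h12)
    rw [h14, List.tail_cons]
  · -- the first position of another kind
    have h6 : P1 ++ s :: P2 = P1 ++ [s] ++ P2 := by simp
    have h7 := fr_append S (P1 ++ [s]) P2
    rw [← h6] at h7
    have h8 := fr_append S P1 [s]
    have hQ1 : P1 = [] ↔ Q1 = [] := by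
      rw [← List.length_eq_zero_iff, ← List.length_eq_zero_iff, h1]
    -- setting the new variables of `P1` to `b`
    have hset : ∀ b : A, ∃ f1 : ℕ → A, (∀ x ∈ S, f1 x = f0 x) ∧ (∀ x, x ∉ S → f1 x = b) ∧
        lets f1 P1 = List.replicate P1.length b := by
      intro b
      refine ⟨fun x => if x ∈ S then f0 x else b, fun x hx => by simp [hx],
        fun x hx => by simp [hx], ?_⟩
      exact lets_full h3 fun x _ hxS => by simp [hxS]
    by_cases hs : fr (S ∪ vs P1) [s] = 0
    · by_cases hcase : P1 ≠ [] ∨ ∃ x, r = Sum.inl x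
      · -- a determined letter
        obtain ⟨b, f1, hf1, hf1P, hf1s⟩ : ∃ (b : A) (f1 : ℕ → A), (∀ x ∈ S, f1 x = f0 x) ∧
            lets f1 P1 = List.replicate P1.length b ∧ Sum.elim f1 id s = b := by
          cases s with
          | inr a =>
            obtain ⟨f1, g1, g2, g3⟩ := hset a
            exact ⟨a, f1, g1, g3, rfl⟩
          | inl x =>
            by_cases hx : x ∈ S
            · obtain ⟨f1, g1, g2, g3⟩ := hset (f0 x)
              exact ⟨f0 x, f1, g1, g3, g1 x hx⟩
            · obtain ⟨a, _, _⟩ := exists_pair_ne A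
              obtain ⟨f1, g1, g2, g3⟩ := hset a
              exact ⟨a, f1, g1, g3, g2 x hx⟩
        refine core (i := P1.length) (k := P1.length + 1) hz hlen rfl (by omega) hm le_rfl hf1
          hf1P hf1s (by omega) (fun w hw => ?_) (fun c hc => ?_)
        · have := drop_sub hw
          rwa [List.length_replicate] at this
        · have h9 : (lets (fun _ => c) (Q1 ++ r :: Q2)).head? = some c := by
            rcases hcase with hcase | ⟨x, rfl⟩
            · exact head_lets_append h4 (fun h => hcase (hQ1.mpr h)) c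
            · by_cases hne : Q1 = []
              · rw [hne]; rfl
              · exact head_lets_append h4 hne c
          rw [h9]
          exact fun h => hc (Option.some.inj h)
      · -- a determined letter against another constant
        push Not at hcase
        obtain ⟨hP1, hr⟩ := hcase
        have hQ1' := hQ1.mp hP1
        subst hP1
        subst hQ1'
        cases r with
        | inl x => exact absurd rfl (hr x)
        | inr d =>
          have hv : S ∪ vs ([] : List (ℕ ⊕ A)) = S := by simp [vs]
          rw [hv] at hs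
          have hne := hnp s P2 d Q2 rfl rfl hs
          refine core (i := 0) (k := 0) (b := Sum.elim f0 id s) (f1 := f0) hz hlen rfl
            (by omega) hm (by omega) (fun _ _ => rfl) rfl rfl ?_ (fun w hw => ?_)
            (fun c hc => ?_)
          · have : fr S ([] : List (ℕ ⊕ A)) = 0 := fr_nil S
            have := fr_single_le (S ∪ vs ([] : List (ℕ ⊕ A))) s
            omega
          · rw [List.drop_zero]
            refine skip_rep ?_ _ hw
            exact fun h => hne (Option.some.inj h).symm
          · exact fun h => hne (Option.some.inj h).symm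
    · -- a new variable against a constant
      obtain ⟨d, rfl⟩ := h5.resolve_left hs
      obtain ⟨x, rfl, hx⟩ := (fr_single (S ∪ vs P1) s).resolve_left hs
      obtain ⟨b, hb⟩ := exists_ne d
      obtain ⟨f1, g1, g2, g3⟩ := hset b
      have hx1 := fr_single_le (S ∪ vs P1) (Sum.inl x : ℕ ⊕ A)
      refine core (i := P1.length) (k := P1.length) hz hlen rfl (by omega) hm (by omega) g1
        g3 (g2 x fun h => hx (Finset.mem_union_left _ h)) (by omega) (fun w hw => ?_)
        (fun c hc => ?_)
      · have h9 : lets (fun _ => b) (Q1 ++ Sum.inr d :: Q2) =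
            List.replicate P1.length b ++ d :: lets (fun _ => b) Q2 := by
          rw [lets_append, lets_allVar h4, lets_cons, h1]; rfl
        rw [h9] at hw ⊢
        have h10 : (List.replicate P1.length b ++ d :: lets (fun _ => b) Q2).drop P1.length =
            d :: lets (fun _ => b) Q2 := by
          rw [List.drop_left' (by simp)]
        rw [h10]
        exact rep_sub hb.symm _ hw
      · by_cases hne : Q1 = []
        · subst hne
          exact fun h => hb (Option.some.inj h).symm
        · rw [head_lets_append h4 hne c]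
          exact fun h => hc (Option.some.inj h)

/-- one block, exact positions -/
theorem rk [Fintype A] [Nontrivial A] {e z : ℕ} (he : 1 ≤ e) (P : List (ℕ ⊕ A)) :
    ∀ (Q : List (ℕ ⊕ A)) (S : Finset ℕ) (f0 : ℕ → A), One z Q → P.length = Q.length + e →
    2 * e + 1 ≤ fr S P →
    ∃ f : ℕ → A, (∀ x ∈ S, f x = f0 x) ∧ ∀ τ : ℕ → List A, (∀ x, τ x ≠ []) →
      ¬ (subst τ Q <:+: lets f P) := by
  classical
  induction P with
  | nil =>
    intro Q S f0 _ _ h
    rw [fr_nil] at h
    omega
  | cons s P ih =>
    intro Q S f0 hz hlen hfr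
    by_cases hp : ∃ a Q', Q = Sum.inr a :: Q' ∧ fr S [s] = 0 ∧ Sum.elim f0 id s = a
    · obtain ⟨a, Q', rfl, h1, h2⟩ := hp
      have h3 := fr_append S [s] P
      rw [List.singleton_append] at h3
      obtain ⟨f, hf1, hf2⟩ := ih Q' (S ∪ vs [s]) f0
        (fun x hx => hz x (List.mem_cons_of_mem _ hx))
        (by rw [List.length_cons, List.length_cons] at hlen; omega) (by omega)
      refine ⟨f, fun x hx => hf1 x (Finset.mem_union_left _ hx), fun τ hτ hinf => ?_⟩
      have h4 : lets f (s :: P) = a :: lets f P := by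
        rw [lets_cons, ← h2]
        congr 1
        cases s with
        | inr b => rfl
        | inl x => exact hf1 x (Finset.mem_union_right _ (mem_vs.mpr (List.mem_cons_self)))
      rw [h4] at hinf
      have h5 : subst τ (Sum.inr a :: Q') = a :: subst τ Q' := rfl
      rw [h5] at hinf
      refine hf2 τ hτ ?_
      rcases List.infix_cons_iff.mp hinf with h6 | h6
      · exact (List.cons_prefix_cons.mp h6).2.isInfix
      · exact ((List.suffix_cons a _).isInfix).trans h6
    · refine rk_np he hz hlen hfr ?_
      rintro s' P' a Q' hP hQ h1 h2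
      obtain ⟨rfl, rfl⟩ := List.cons.inj hP
      exact hp ⟨a, Q', hQ, h1, h2⟩

end Pool.Agent.H54.PD
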