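import Mathlib
import Pool.Agent.H54.PD.Real

/-!
# MP_7f399b_lc: the inclusion law for products of one-variable blocks
-/

namespace Pool.Agent.H54.PD

open Pool.Agent.PatDepth Pool.Agent.H344R3.PD

variable {A : Type}

/-- a product of words, the block `Q` being replaced by an instance of `Q` -/
def Par : List (List (ℕ ⊕ A)) → List A → Prop
  | [], w => w = []
  | Q :: Qs, w => ∃ (τ : ℕ → List A) (w2 : List A), (∀ x, τ x ≠ []) ∧ w = subst τ Q ++ w2 ∧
      Par Qs w2

lemma Par_subst {τ : ℕ → List A} (hτ : ∀ x, τ x ≠ []) (Qs : List (List (ℕ ⊕ A))) :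
    Par Qs (subst τ Qs.flatten) := by
  induction Qs with
  | nil => rfl
  | cons Q Qs ih =>
    rw [List.flatten_cons, subst_append]
    exact ⟨τ, _, hτ, rfl, ih⟩

/-- a block: not empty, at most one variable -/
def Blk (Q : List (ℕ ⊕ A)) : Prop := Q ≠ [] ∧ ∃ z, One z Q

lemma Par_Emb {Qs : List (List (ℕ ⊕ A))} (hQ : ∀ Q ∈ Qs, Blk Q) : ∀ {w : List A}, Par Qs w →
    Emb Qs w := by
  induction Qs with
  | nil => intro w _; trivial
  | cons Q Qs ih =>
    rintro w ⟨τ, w2, hτ, rfl, h2⟩
    obtain ⟨_, z, hz⟩ := hQ Q (List.mem_cons_self)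
    obtain ⟨c, l, hcl⟩ := List.exists_cons_of_ne_nil (hτ z)
    exact ⟨c, _, w2, rfl, head_sub hz hcl, ih (fun Q' h => hQ Q' (List.mem_cons_of_mem _ h)) h2⟩

/-- the exact statement -/
theorem strict [Fintype A] [Nontrivial A] (Qs : List (List (ℕ ⊕ A))) :
    (∀ Q ∈ Qs, Blk Q) → ∀ (p : List (ℕ ⊕ A)) (S : Finset ℕ) (f0 : ℕ → A),
      Qs.length + 2 * p.length ≤ fr S p + 2 * Qs.flatten.length →
      Qs.flatten.length < p.length →
      ∃ f : ℕ → A, (∀ x ∈ S, f x = f0 x) ∧ ∀ v, v <:+ lets f p → ¬ Par Qs v := by
  obtain ⟨a0, _, _⟩ := exists_pair_ne A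
  induction Qs with
  | nil =>
    intro _ p S f0 h h'
    have := fr_le S p
    simp at h h'
    omega
  | cons Q Qs ih =>
    intro hQ p S f0 h h'
    obtain ⟨hne, z, hz⟩ := hQ Q (List.mem_cons_self)
    have hm : 1 ≤ Q.length := List.length_pos_iff.mpr hne
    have hQs : ∀ Q' ∈ Qs, Blk Q' := fun Q' hQ' => hQ Q' (List.mem_cons_of_mem _ hQ')
    rw [List.flatten_cons, List.length_append] at h'
    by_cases hsl : (Q :: Qs).length + 2 * p.length + 1 ≤ fr S p + 2 * (Q :: Qs).flatten.length
    · obtain ⟨f, hf1, hf2⟩ := relax (Q :: Qs) (fun Q' h => (hQ Q' h).1) p S f0 hsl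
      exact ⟨f, hf1, fun v hv hP => hf2 (Emb_suffix (Par_Emb hQ hP) hv)⟩
    rw [List.flatten_cons, List.length_append, List.length_cons] at h hsl
    rcases first_time S p hm with h1 | ⟨p1, s, p2, rfl, h2, h3⟩
    · obtain ⟨f, hf1, hf2⟩ := kill2 a0 p S f0 (fun c => lets (fun _ => c) Q)
        (p.length + 1 - Q.length) (p.length + 1 - Q.length)
        (fun c _ => by rw [lets_length]; omega) (by rw [lets_length]; omega)
        (by omega)
      refine ⟨f, hf1, fun v hv hP => ?_⟩
      obtain ⟨c, w1, w2, hw, hs, -⟩ := Emb_suffix (Par_Emb hQ hP) hv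
      refine hf2 c ?_
      rw [hw]
      exact hs.trans (List.sublist_append_left _ _)
    · have h4 : p1 ++ s :: p2 = (p1 ++ [s]) ++ p2 := by simp
      have h5 := fr_append S (p1 ++ [s]) p2
      rw [← h4] at h5
      have h5' := fr_append S p1 [s]
      have h5'' := fr_single_le (S ∪ vs p1) s
      rw [h5, List.length_append, List.length_cons] at h hsl
      rw [List.length_append, List.length_cons] at h'
      by_cases hov : fr S (p1 ++ [s]) + 2 * Q.length ≤ 2 * p1.length + 2
      · -- overshoot
        obtain ⟨f1, hf1, hf2⟩ := kill2 a0 p1 S f0 (fun c => lets (fun _ => c) Q)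
          (p1.length + 1 - Q.length) (p1.length + 1 - Q.length)
          (fun c _ => by rw [lets_length]; omega) (by rw [lets_length]; omega)
          (by omega)
        obtain ⟨f2, hf3, hf4⟩ := relax Qs (fun Q' h => (hQs Q' h).1) p2
          (S ∪ vs (p1 ++ [s])) f1 (by omega)
        obtain ⟨h6, h7⟩ := combine (p2 := p2) hf1 hf3
        refine ⟨f2, h6, fun v hv hP => hf4 ?_⟩
        have hE := Emb_suffix (Par_Emb hQ hP) hv
        rw [h7] at hE
        exact Emb_tail hE hf2
      · have heq : fr S (p1 ++ [s]) + 2 * Q.length = 2 * p1.length + 3 := by omega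
        rcases Nat.lt_or_ge Q.length (p1.length + 1) with hlt | hge
        · -- more letters than symbols in the block
          obtain ⟨f1, hf1, hf2⟩ := rk (e := p1.length + 1 - Q.length) (z := z) (by omega)
            (p1 ++ [s]) Q S f0 hz (by rw [List.length_append, List.length_singleton]; omega)
            (by omega)
          cases p2 with
          | nil =>
            refine ⟨f1, hf1, ?_⟩
            rintro v hv ⟨τ, w2, hτ, rfl, hP⟩
            exact hf2 τ hτ (((List.prefix_append _ w2).isInfix).trans hv.isInfix)
          | cons s' p3 =>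
            have h8 : s' :: p3 = [s'] ++ p3 := rfl
            have h9 := fr_append (S ∪ vs (p1 ++ [s])) [s'] p3
            rw [← h8] at h9
            have h10 := fr_single_le (S ∪ vs (p1 ++ [s])) s'
            rw [List.length_cons] at h hsl
            obtain ⟨f2, hf3, hf4⟩ := relax Qs (fun Q' h => (hQs Q' h).1) p3
              (S ∪ vs (p1 ++ [s]) ∪ vs [s']) f1 (by omega)
            have hS : ∀ x ∈ S ∪ vs (p1 ++ [s]), f2 x = f1 x :=
              fun x hx => hf3 x (Finset.mem_union_left _ hx)
            have h11 : lets f2 (p1 ++ [s]) = lets f1 (p1 ++ [s]) :=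
              lets_congr fun x hx => hS x (Finset.mem_union_right _ (mem_vs.mpr hx))
            refine ⟨f2, fun x hx => by rw [hS x (Finset.mem_union_left _ hx), hf1 x hx], ?_⟩
            rintro v hv ⟨τ, w2, hτ, rfl, hP⟩
            have h12 : p1 ++ s :: s' :: p3 = (p1 ++ [s]) ++ (s' :: p3) := by simp
            rw [h12, lets_append, h11, lets_cons] at hv
            -- `w2` is short
            have hw2 : w2.length ≤ (lets f2 p3).length := by
              by_contra hcon
              push Not at hcon
              obtain ⟨u, hu⟩ := hv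
              rw [← List.append_assoc] at hu
              have h13 : (u ++ subst τ Q) <+: lets f1 (p1 ++ [s]) := by
                apply List.prefix_of_prefix_length_le
                  (l₃ := lets f1 (p1 ++ [s]) ++ Sum.elim f2 id s' :: lets f2 p3)
                · rw [← hu]; exact List.prefix_append _ _
                · exact List.prefix_append _ _
                · have := congrArg List.length hu
                  simp only [List.length_append, List.length_cons] at this ⊢
                  omega
              exact hf2 τ hτ ((List.suffix_append u _).isInfix.trans h13.isInfix)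
            refine hf4 (Emb_suffix (Par_Emb hQs hP) ?_)
            apply List.suffix_of_suffix_length_le
              (l₃ := lets f1 (p1 ++ [s]) ++ Sum.elim f2 id s' :: lets f2 p3)
            · exact (List.suffix_append _ w2).trans hv
            · exact (List.suffix_cons _ _).trans (List.suffix_append _ _)
            · exact hw2
        · -- as many letters as symbols in the block
          obtain ⟨f2, hf3, hf4⟩ := ih hQs p2 (S ∪ vs (p1 ++ [s])) f0 (by omega) (by omega)
          refine ⟨f2, fun x hx => hf3 x (Finset.mem_union_left _ hx), ?_⟩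
          rintro v hv ⟨τ, w2, hτ, rfl, hP⟩
          refine hf4 w2 ?_ hP
          rw [h4, lets_append] at hv
          apply List.suffix_of_suffix_length_le (l₃ := lets f2 (p1 ++ [s]) ++ lets f2 p2)
          · exact (List.suffix_append _ w2).trans hv
          · exact List.suffix_append _ _
          · have h13 := hv.length_le
            have h14 := length_le hτ Q
            rw [List.length_append, List.length_append, lets_length, lets_length,
              List.length_append, List.length_singleton] at h13
            rw [lets_length]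
            omega

lemma nvar_flatten_le {Qs : List (List (ℕ ⊕ A))} (hQ : ∀ Q ∈ Qs, Blk Q) :
    nvar Qs.flatten ≤ Qs.length := by
  induction Qs with
  | nil => simp [nvar]
  | cons Q Qs ih =>
    obtain ⟨_, z, hz⟩ := hQ Q (List.mem_cons_self)
    have h1 := ih fun Q' h => hQ Q' (List.mem_cons_of_mem _ h)
    have h2 : vs (Q :: Qs).flatten ⊆ insert z (vs Qs.flatten) := by
      intro x hx
      rw [List.flatten_cons, vs_append, Finset.mem_union] at hx
      rw [Finset.mem_insert]
      rcases hx with hx | hx
      · left; exact hz x (mem_vs.mp hx)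
      · exact Or.inr hx
    have h3 := (Finset.card_le_card h2).trans (Finset.card_insert_le _ _)
    have h4 : nvar (Q :: Qs).flatten = (vs (Q :: Qs).flatten).card := rfl
    have h5 : nvar Qs.flatten = (vs Qs.flatten).card := rfl
    rw [List.length_cons]
    omega

/-- the law for a product of one-variable blocks -/
theorem law_blocks [Fintype A] [Nontrivial A] {p : List (ℕ ⊕ A)} {Qs : List (List (ℕ ⊕ A))}
    (hQ : ∀ Q ∈ Qs, Blk Q) (h : Lang p ⊂ Lang Qs.flatten) :
    2 * Qs.flatten.length + nvar p < 2 * p.length + Qs.length := by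
  obtain ⟨a0, _, _⟩ := exists_pair_ne A
  have h1 := length_le_of_subset h.subset
  have h2 := nvar_flatten_le hQ
  rcases Nat.lt_or_ge Qs.flatten.length p.length with h3 | h3
  · by_contra hcon
    push Not at hcon
    obtain ⟨f, _, hf⟩ := strict Qs hQ p ∅ (fun _ => a0) (by rw [fr_empty]; omega) h3
    obtain ⟨τ, hτ, hw⟩ := h.subset (lets_mem f p)
    refine hf _ List.suffix_rfl ?_
    rw [hw]
    exact Par_subst hτ Qs
  · obtain ⟨h4, h5⟩ := same_length h.subset (le_antisymm h3 h1)
    have h6 : nvar p ≠ nvar Qs.flatten := fun h' => h.ne (h5 h')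
    omega

end Pool.Agent.H54.PD
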