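import Mathlib
import Pool.Agent.H54.PD.Law

/-!
# MP_7f399b_lc: non-cross patterns
-/

namespace Pool.Agent.H54.PD

open Pool.Agent.PatDepth Pool.Agent.H344R3.PD

/-- `q` is non-cross: no variable occurs between two occurrences of another variable. -/
def NonCross {A : Type} (q : List (ℕ ⊕ A)) : Prop :=
  ∀ x y : ℕ, x ≠ y → ¬ [Sum.inl x, Sum.inl y, Sum.inl x].Sublist q

/-- There are non-empty patterns `c 0, ..., c n` with
`L(x₁) = L(c 0) ⊋ L(c 1) ⊋ ... ⊋ L(c n) = L(p)`, all of which, except possibly the last one, are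
non-cross. -/
def HasNCChain {A : Type} (p : List (ℕ ⊕ A)) (n : ℕ) : Prop :=
  ∃ c : ℕ → List (ℕ ⊕ A), (∀ i ≤ n, c i ≠ []) ∧ (∀ i < n, NonCross (c i)) ∧
    Lang (c 0) = Lang [Sum.inl 1] ∧ Lang (c n) = Lang p ∧
    ∀ i < n, Lang (c (i + 1)) ⊂ Lang (c i)

variable {A : Type}

lemma NonCross.sublist {q q' : List (ℕ ⊕ A)} (h : NonCross q) (hs : q'.Sublist q) :
    NonCross q' := fun x y hxy h' => h x y hxy (h'.trans hs)

lemma nvar_cons_inr (a : A) (q : List (ℕ ⊕ A)) : nvar (Sum.inr a :: q) = nvar q := by
  rw [nvar, vars_cons_inr]; rfl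

lemma nvar_cons_inl_mem {x : ℕ} {q : List (ℕ ⊕ A)} (hx : x ∈ vs q) :
    nvar (Sum.inl x :: q) = nvar q := by
  rw [nvar, vars_cons_inl]
  show (insert x (vs q)).card = (vs q).card
  rw [Finset.insert_eq_of_mem hx]

lemma nvar_cons_inl_new {x : ℕ} {q : List (ℕ ⊕ A)} (hx : x ∉ vs q) :
    nvar (Sum.inl x :: q) = nvar q + 1 := by
  rw [nvar, vars_cons_inl]
  show (insert x (vs q)).card = (vs q).card + 1
  rw [Finset.card_insert_of_notMem hx]

/-- a non-cross pattern is a product of as many one-variable blocks as it has variables -/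
lemma blocks (q : List (ℕ ⊕ A)) : NonCross q → 1 ≤ nvar q →
    ∃ Qs : List (List (ℕ ⊕ A)), q = Qs.flatten ∧ (∀ Q ∈ Qs, Blk Q) ∧ Qs.length = nvar q := by
  induction q with
  | nil => intro _ h; simp [nvar] at h
  | cons s q ih =>
    intro hq hn
    have hq' : NonCross q := hq.sublist (List.sublist_cons_self _ _)
    cases s with
    | inr a =>
      rw [nvar_cons_inr] at hn ⊢
      obtain ⟨Qs, h1, h2, h3⟩ := ih hq' hn
      cases Qs with
      | nil => rw [List.length_nil] at h3; omega
      | cons Q Qs =>
        refine ⟨(Sum.inr a :: Q) :: Qs, by rw [h1]; simp, ?_, h3⟩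
        intro Q' hQ'
        rcases List.mem_cons.mp hQ' with rfl | hQ'
        · obtain ⟨_, z, hz⟩ := h2 Q (List.mem_cons_self)
          refine ⟨by simp, z, fun x hx => ?_⟩
          rcases List.mem_cons.mp hx with hx | hx
          · exact absurd hx (by simp)
          · exact hz x hx
        · exact h2 Q' (List.mem_cons_of_mem _ hQ')
    | inl x =>
      by_cases hx : x ∈ vs q
      · rw [nvar_cons_inl_mem hx] at hn ⊢
        obtain ⟨Qs, h1, h2, h3⟩ := ih hq' hn
        cases Qs with
        | nil => rw [List.length_nil] at h3; omega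
        | cons Q Qs =>
          refine ⟨(Sum.inl x :: Q) :: Qs, by rw [h1]; simp, ?_, h3⟩
          intro Q' hQ'
          rcases List.mem_cons.mp hQ' with rfl | hQ'
          · obtain ⟨_, z, hz⟩ := h2 Q (List.mem_cons_self)
            refine ⟨by simp, x, fun y hy => ?_⟩
            rcases List.mem_cons.mp hy with hy | hy
            · exact Sum.inl.inj hy
            · by_contra hne
              rw [mem_vs, h1, List.flatten_cons, List.mem_append] at hx
              rcases hx with hx | hx
              · exact hne ((hz y hy).trans (hz x hx).symm)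
              · refine hq x y (fun h => hne h.symm) ?_
                rw [h1, List.flatten_cons]
                refine List.cons_sublist_cons.mpr ?_
                exact List.Sublist.append (List.singleton_sublist.mpr hy)
                  (List.singleton_sublist.mpr hx)
          · exact h2 Q' (List.mem_cons_of_mem _ hQ')
      · rw [nvar_cons_inl_new hx]
        rcases Nat.eq_zero_or_pos (nvar q) with h0 | h0
        · refine ⟨[Sum.inl x :: q], by simp, ?_, by simp [h0]⟩
          intro Q' hQ'
          rw [List.mem_singleton] at hQ'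
          subst hQ'
          refine ⟨by simp, x, fun y hy => ?_⟩
          rcases List.mem_cons.mp hy with hy | hy
          · exact Sum.inl.inj hy
          · have h1 : vs q = ∅ := Finset.card_eq_zero.mp h0
            have h2 : y ∈ vs q := mem_vs.mpr hy
            rw [h1] at h2
            exact absurd h2 (Finset.notMem_empty _)
        · obtain ⟨Qs, h1, h2, h3⟩ := ih hq' h0
          refine ⟨[Sum.inl x] :: Qs, by rw [h1]; simp, ?_, by rw [List.length_cons, h3]⟩
          intro Q' hQ'
          rcases List.mem_cons.mp hQ' with rfl | hQ'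
          · refine ⟨by simp, x, fun y hy => ?_⟩
            rw [List.mem_singleton] at hy
            exact Sum.inl.inj hy
          · exact h2 Q' hQ'

/-- the law when the upper pattern is non-cross -/
theorem law_nonCross [Fintype A] [Nontrivial A] {p q : List (ℕ ⊕ A)} (hq : NonCross q)
    (h : Lang p ⊂ Lang q) : 2 * q.length + nvar p < 2 * p.length + nvar q := by
  obtain ⟨a0, _, _⟩ := exists_pair_ne A
  rcases Nat.eq_zero_or_pos (nvar q) with h0 | h0
  · exfalso
    have h1 : vs q = ∅ := Finset.card_eq_zero.mp h0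
    have h2 : ∀ τ τ' : ℕ → List A, subst τ q = subst τ' q := by
      intro τ τ'
      apply subst_congr
      intro x hx
      have : x ∈ vs q := mem_vs.mpr hx
      rw [h1] at this
      exact absurd this (Finset.notMem_empty _)
    apply h.2
    rintro w ⟨τ, _, rfl⟩
    obtain ⟨τ', _, h3⟩ := h.1 (lets_mem (fun _ => a0) p)
    rw [h2 τ τ', ← h3]
    exact lets_mem _ p
  · obtain ⟨Qs, h1, h2, h3⟩ := blocks q hq h0
    have h4 := h
    rw [h1] at h4
    have h5 := law_blocks h2 h4
    rw [← h1, h3] at h5
    exact h5

/-- the upper bound for chains of non-cross patterns -/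
theorem nc_upper [Fintype A] [Nontrivial A] {p : List (ℕ ⊕ A)} {n : ℕ} (h : HasNCChain p n) :
    n + 1 + nvar p ≤ 2 * p.length := by
  obtain ⟨c, _, hnc, hc0, hcn, hstep⟩ := h
  have key : ∀ i ≤ n, i + 1 + nvar (c i) ≤ 2 * (c i).length := by
    intro i
    induction i with
    | zero =>
      intro _
      obtain ⟨h1, h2⟩ := lang_eq_invariant hc0
      have h3 : nvar ([Sum.inl 1] : List (ℕ ⊕ A)) = 1 := by simp [nvar]
      rw [h1, h2, h3]
      simp
    | succ i ih =>
      intro hi
      have h3 := law_nonCross (hnc i (by omega)) (hstep i (by omega))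
      have h4 := ih (by omega)
      omega
  obtain ⟨h1, h2⟩ := lang_eq_invariant hcn
  have := key n le_rfl
  omega

end Pool.Agent.H54.PD
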