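import Mathlib
import Pool.Agent.H54.PD.Kill

/-!
# MP_7f399b_lc: words with wildcards, and the choice of the letters
-/

namespace Pool.Agent.H54.PD

open Pool.Agent.PatDepth Pool.Agent.H344R3.PD

variable {A : Type}

/-- an entry of a word with wildcards fits a letter -/
def Fit (o : Option A) (a : A) : Prop := o = none ∨ o = some a

/-- a word with wildcards embeds in a word -/
def SubW (u : List (Option A)) (w : List A) : Prop :=
  ∃ w', w'.Sublist w ∧ List.Forall₂ Fit u w'

/-- the number of wildcards -/
def nw (u : List (Option A)) : ℕ := u.countP Option.isNone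

lemma nw_nil : nw ([] : List (Option A)) = 0 := rfl

lemma nw_none (u : List (Option A)) : nw (none :: u) = nw u + 1 := by
  simp [nw]

lemma nw_some (a : A) (u : List (Option A)) : nw (some a :: u) = nw u := by
  simp [nw]

lemma nw_append (u v : List (Option A)) : nw (u ++ v) = nw u + nw v := by
  simp [nw]

lemma nw_cons_le (o : Option A) (u : List (Option A)) : nw u ≤ nw (o :: u) := by
  cases o with
  | none => rw [nw_none]; omega
  | some a => rw [nw_some]

lemma nw_drop_le (u : List (Option A)) (k : ℕ) : nw (u.drop k) ≤ nw u := by
  have h := nw_append (u.take k) (u.drop k)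
  rw [List.take_append_drop] at h
  omega

lemma SubW.mono {u : List (Option A)} {w w' : List A} (h : SubW u w) (hw : w.Sublist w') :
    SubW u w' := by
  obtain ⟨v, hv, h2⟩ := h
  exact ⟨v, hv.trans hw, h2⟩

lemma SubW.length {u : List (Option A)} {w : List A} (h : SubW u w) : u.length ≤ w.length := by
  obtain ⟨v, hv, h2⟩ := h
  rw [h2.length_eq]
  exact hv.length_le

open Classical in
/-- one step of the embedding game -/
noncomputable def stw (a : A) : List (Option A) → List (Option A)
  | [] => []
  | o :: l => if Fit o a then l else o :: l

lemma stw_cases (a : A) (u : List (Option A)) :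
    (u = [] ∧ stw a u = []) ∨ (∃ l, u = none :: l ∧ stw a u = l) ∨
      (∃ l, u = some a :: l ∧ stw a u = l) ∨
      (∃ d l, d ≠ a ∧ u = some d :: l ∧ stw a u = u) := by
  cases u with
  | nil => exact Or.inl ⟨rfl, rfl⟩
  | cons o l =>
    cases o with
    | none =>
      right; left
      exact ⟨l, rfl, by rw [stw, if_pos (show Fit none a from Or.inl rfl)]⟩
    | some d =>
      by_cases hd : d = a
      · subst hd
        right; right; left
        exact ⟨l, rfl, by rw [stw, if_pos (show Fit (some d) d from Or.inr rfl)]⟩
      · right; right; right
        refine ⟨d, l, hd, rfl, ?_⟩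
        rw [stw, if_neg]
        rintro (h | h)
        · cases h
        · exact hd (Option.some.inj h)

lemma stw_some_eq (a : A) (l : List (Option A)) : stw a (some a :: l) = l := by
  rw [stw, if_pos (show Fit (some a) a from Or.inr rfl)]

lemma stw_some_ne {a d : A} (h : d ≠ a) (l : List (Option A)) :
    stw a (some d :: l) = some d :: l := by
  rw [stw, if_neg]
  rintro (h' | h')
  · cases h'
  · exact h (Option.some.inj h')

lemma SubW.drop_one {u : List (Option A)} {a : A} {w : List A} (h : SubW u (a :: w)) :
    SubW (u.drop 1) w := by
  obtain ⟨v, hv, h2⟩ := h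
  cases h2 with
  | nil => exact ⟨[], List.nil_sublist _, List.Forall₂.nil⟩
  | cons h3 h4 =>
    rename_i o b l v'
    refine ⟨v', ?_, h4⟩
    rcases List.sublist_cons_iff.mp hv with h5 | ⟨r, h5, h6⟩
    · exact (List.sublist_cons_self _ _).trans h5
    · obtain ⟨rfl, rfl⟩ := List.cons.inj h5
      exact h6

lemma SubW.step {u : List (Option A)} {a : A} {w : List A} (h : SubW u (a :: w)) :
    SubW (stw a u) w := by
  rcases stw_cases a u with ⟨h1, h2⟩ | ⟨l, h1, h2⟩ | ⟨l, h1, h2⟩ | ⟨d, l, hd, h1, h2⟩
  · rw [h2]
    exact ⟨[], List.nil_sublist _, List.Forall₂.nil⟩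
  · rw [h2]
    have := h.drop_one
    rw [h1] at this
    exact this
  · rw [h2]
    have := h.drop_one
    rw [h1] at this
    exact this
  · rw [h2]
    obtain ⟨v, hv, h3⟩ := h
    refine ⟨v, ?_, h3⟩
    rcases List.sublist_cons_iff.mp hv with h5 | ⟨r, h5, h6⟩
    · exact h5
    · rw [h1, h5] at h3
      cases h3 with
      | cons h7 h8 =>
        rcases h7 with h7 | h7
        · cases h7
        · exact absurd (Option.some.inj h7) hd

lemma SubW.drop_append {l1 : List A} : ∀ {u : List (Option A)} {w : List A},
    SubW u (l1 ++ w) → SubW (u.drop l1.length) w := by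
  induction l1 with
  | nil => intro u w h; simpa using h
  | cons a l1 ih =>
    intro u w h
    have h1 := ih (SubW.drop_one h)
    rw [List.drop_drop] at h1
    rw [List.length_cons, add_comm]
    exact h1

lemma SubW.skip_rep {b d : A} (hd : d ≠ b) {l : List (Option A)} {w : List A} (n : ℕ)
    (h : SubW (some d :: l) (List.replicate n b ++ w)) : SubW (some d :: l) w := by
  induction n with
  | zero => simpa using h
  | succ n ih =>
    apply ih
    rw [List.replicate_succ, List.cons_append] at h
    have := h.step
    rwa [stw_some_ne hd] at this

lemma SubW.rep {b d : A} (hd : d ≠ b) (i : ℕ) {R : List (Option A)} {w : List A}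
    (h : SubW (List.replicate i (some b) ++ some d :: R) (List.replicate (i + 1) b ++ w)) :
    SubW (some d :: R) w := by
  induction i with
  | zero => exact SubW.skip_rep hd 1 (by simpa using h)
  | succ i ih =>
    apply ih
    rw [List.replicate_succ, List.cons_append, List.replicate_succ (n := i + 1),
      List.cons_append] at h
    have := h.step
    rwa [stw_some_eq] at this

/-- no `u c` embeds in the instance -/
theorem killW [Fintype A] {c0 c1 : A} (hc : c1 ≠ c0) (p : List (ℕ ⊕ A)) :
    ∀ (S : Finset ℕ) (f0 : ℕ → A) (u : A → List (Option A)),
      ((u c0).length ≤ p.length → (p.length + 1 - (u c0).length) + nw (u c0) +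
        (p.length + 1 - (u c1).length) ≤ fr S p) →
      (∀ c, c ≠ c0 → (u c).length ≤ p.length →
        (p.length + 1 - (u c).length) + nw (u c) ≤ fr S p) →
      ∃ f : ℕ → A, (∀ x ∈ S, f x = f0 x) ∧ ∀ c, ¬ SubW (u c) (lets f p) := by
  classical
  induction p with
  | nil =>
    intro S f0 u h0 h1
    refine ⟨f0, fun _ _ => rfl, fun c hcon => ?_⟩
    have h2 := hcon.length
    have h3 : (u c).length ≤ 0 := h2
    have h4 : fr S ([] : List (ℕ ⊕ A)) = 0 := fr_nil S
    by_cases hcc : c = c0
    · rw [hcc] at h3
      have := h0 (by simpa using h3)
      rw [h4, List.length_nil] at this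
      omega
    · have := h1 c hcc (by simpa using h3)
      rw [h4, List.length_nil] at this
      omega
  | cons s p ih =>
    intro S f0 u h0 h1
    have hfle := fr_le S (s :: p)
    simp only [List.length_cons] at h0 h1 hfle
    -- determined positions
    have forced : ∀ a : A, fr S (s :: p) = fr S p → ∃ f : ℕ → A, (∀ x ∈ S, f x = f0 x) ∧
        ∀ c, ¬ SubW (u c) (a :: lets f p) := by
      intro a h3
      rw [h3] at h0 h1
      have key : ∀ c, (stw a (u c)).length ≤ p.length → (u c).length ≤ p.length + 1 ∧
          (p.length + 1 - (stw a (u c)).length) + nw (stw a (u c)) ≤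
            (p.length + 1 + 1 - (u c).length) + nw (u c) := by
        intro c hl
        rcases stw_cases a (u c) with ⟨h4, h5⟩ | ⟨l, h4, h5⟩ | ⟨l, h4, h5⟩ | ⟨d, l, hd, h4, h5⟩
        · rw [h5] at hl ⊢
          rw [h4]
          simp only [List.length_nil, nw_nil] at hl ⊢
          omega
        · rw [h5] at hl ⊢
          rw [h4, nw_none, List.length_cons]
          omega
        · rw [h5] at hl ⊢
          rw [h4, nw_some, List.length_cons]
          omega
        · rw [h5] at hl ⊢
          omega
      have key2 : ∀ c, p.length + 1 - (stw a (u c)).length ≤ p.length + 1 + 1 - (u c).length := by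
        intro c
        rcases stw_cases a (u c) with ⟨h4, h5⟩ | ⟨l, h4, h5⟩ | ⟨l, h4, h5⟩ | ⟨d, l, hd, h4, h5⟩
        · rw [h5, h4]; simp
        · rw [h5, h4, List.length_cons]; omega
        · rw [h5, h4, List.length_cons]; omega
        · rw [h5]; omega
      obtain ⟨f, hf1, hf2⟩ := ih S f0 (fun c => stw a (u c))
        (fun hl => by
          obtain ⟨h6, h7⟩ := key c0 hl
          have h8 := key2 c1
          have h9 := h0 h6
          show (p.length + 1 - (stw a (u c0)).length) + nw (stw a (u c0)) +
            (p.length + 1 - (stw a (u c1)).length) ≤ fr S p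
          omega)
        (fun c hcc hl => by
          obtain ⟨h6, h7⟩ := key c hl
          have h9 := h1 c hcc h6
          show (p.length + 1 - (stw a (u c)).length) + nw (stw a (u c)) ≤ fr S p
          omega)
      exact ⟨f, hf1, fun c hcon => hf2 c hcon.step⟩
    cases s with
    | inr a => exact forced a (fr_cons_inr S a p)
    | inl x =>
      by_cases hx : x ∈ S
      · obtain ⟨f, hf1, hf2⟩ := forced (f0 x) (fr_cons_mem hx p)
        refine ⟨f, hf1, fun c hcon => hf2 c ?_⟩
        rw [← hf1 x hx]
        exact hcon
      · rw [fr_cons_new hx] at h0 h1 hfle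
        -- the free choice
        have free : ∀ (b : A),
            ((stw b (u c0)).length ≤ p.length → (p.length + 1 - (stw b (u c0)).length) +
              nw (stw b (u c0)) + (p.length + 1 - (stw b (u c1)).length) ≤ fr (insert x S) p) →
            (∀ c, c ≠ c0 → (stw b (u c)).length ≤ p.length →
              (p.length + 1 - (stw b (u c)).length) + nw (stw b (u c)) ≤ fr (insert x S) p) →
            ∃ f : ℕ → A, (∀ x ∈ S, f x = f0 x) ∧
              ∀ c, ¬ SubW (u c) (lets f (Sum.inl x :: p)) := by
          intro b h4 h5
          obtain ⟨f, hf1, hf2⟩ := ih (insert x S) (Function.update f0 x b)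
            (fun c => stw b (u c)) h4 h5
          refine ⟨f, fun y hy => ?_, fun c hcon => hf2 c ?_⟩
          · rw [hf1 y (Finset.mem_insert_of_mem hy), Function.update_of_ne]
            rintro rfl
            exact hx hy
          · have h8 : f x = b := by
              rw [hf1 x (Finset.mem_insert_self _ _), Function.update_self]
            rw [lets_cons, Sum.elim_inl, h8] at hcon
            exact hcon.step
        by_cases hfree : ∃ b, ∀ c, (u c).length ≤ p.length + 1 → (u c).head? ≠ some (some b)
        · obtain ⟨b, hb⟩ := hfree
          have key : ∀ c, (stw b (u c)).length ≤ p.length → (u c).length ≤ p.length + 1 ∧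
              ((p.length + 1 + 1 - (u c).length) + nw (u c) ≤ p.length + 1 →
              (p.length + 1 - (stw b (u c)).length) + nw (stw b (u c)) + 1 ≤
                (p.length + 1 + 1 - (u c).length) + nw (u c)) := by
            intro c hl
            rcases stw_cases b (u c) with ⟨h4, h5⟩ | ⟨l, h4, h5⟩ | ⟨l, h4, h5⟩ |
              ⟨d, l, hd, h4, h5⟩
            · rw [h5] at hl ⊢
              rw [h4]
              simp only [List.length_nil, nw_nil] at hl ⊢
              omega
            · rw [h5] at hl ⊢
              rw [h4, nw_none, List.length_cons]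
              omega
            · exfalso
              rw [h5] at hl
              refine hb c ?_ ?_
              · rw [h4, List.length_cons]; omega
              · rw [h4]; rfl
            · rw [h5] at hl ⊢
              omega
          have key2 : ∀ c, p.length + 1 - (stw b (u c)).length ≤
              p.length + 1 + 1 - (u c).length := by
            intro c
            rcases stw_cases b (u c) with ⟨h4, h5⟩ | ⟨l, h4, h5⟩ | ⟨l, h4, h5⟩ |
              ⟨d, l, hd, h4, h5⟩
            · rw [h5, h4]; simp
            · rw [h5, h4, List.length_cons]; omega
            · rw [h5, h4, List.length_cons]; omega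
            · rw [h5]; omega
          refine free b (fun hl => ?_) (fun c hcc hl => ?_)
          · obtain ⟨h6, h7⟩ := key c0 hl
            have h8 := key2 c1
            have h9 := h0 h6
            have h10 := h7 (by omega)
            omega
          · obtain ⟨h6, h7⟩ := key c hl
            have h9 := h1 c hcc h6
            have h10 := h7 (by omega)
            omega
        · push Not at hfree
          choose g hg1 hg2 using hfree
          have hinj : Function.Injective g := by
            intro b b' h
            have h3 := hg2 b
            rw [h, hg2 b'] at h3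
            exact (Option.some.inj (Option.some.inj h3)).symm
          have hsurj := Finite.injective_iff_surjective.mp hinj
          have hall : ∀ c, ∃ d l, u c = some d :: l ∧ g d = c ∧ (u c).length ≤ p.length + 1 := by
            intro c
            obtain ⟨d, rfl⟩ := hsurj c
            have h3 := hg2 d
            cases hu : u (g d) with
            | nil => rw [hu] at h3; simp at h3
            | cons o l =>
              rw [hu] at h3
              have h4 : o = some d := Option.some.inj h3
              refine ⟨d, l, by rw [h4], rfl, ?_⟩
              rw [← hu]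
              exact hg1 d
          obtain ⟨b, l0, hb, hgb, hl0⟩ := hall c0
          have hne : ∀ c, c ≠ c0 → stw b (u c) = u c ∧ (u c).length ≤ p.length + 1 := by
            intro c hcc
            obtain ⟨d, l, h3, h4, h5⟩ := hall c
            have h6 : d ≠ b := by
              rintro rfl
              exact hcc (h4.symm.trans hgb)
            refine ⟨?_, h5⟩
            rw [h3]
            exact stw_some_ne h6 l
          have h0b : stw b (u c0) = l0 := by rw [hb]; exact stw_some_eq b l0
          refine free b (fun hl => ?_) (fun c hcc hl => ?_)
          · obtain ⟨h3, h4⟩ := hne c1 hc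
            have h5 := h0 hl0
            rw [h0b, h3]
            rw [hb, List.length_cons, nw_some] at h5
            rw [hb, List.length_cons] at hl0
            omega
          · obtain ⟨h3, h4⟩ := hne c hcc
            have h5 := h1 c hcc h4
            rw [h3] at hl ⊢
            omega

end Pool.Agent.H54.PD
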