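import Mathlib
import Pool.Agent.H54.PD.KillW
import Pool.Agent.H54.PD.Emb

/-!
# MP_7f399b_lc: the relaxed statement for products of blocks with a chosen variable
-/

namespace Pool.Agent.H54.PD

open Pool.Agent.PatDepth Pool.Agent.H344R3.PD

variable {A : Type}

/-- the number of positions of `Q` with a variable other than `z` -/
def ns (z : ℕ) (Q : List (ℕ ⊕ A)) : ℕ := (Q.filterMap Sum.getLeft?).countP fun x => decide (x ≠ z)

lemma ns_nil (z : ℕ) : ns z ([] : List (ℕ ⊕ A)) = 0 := rfl

lemma ns_inr (z : ℕ) (a : A) (Q : List (ℕ ⊕ A)) : ns z (Sum.inr a :: Q) = ns z Q := by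
  rw [ns, List.filterMap_cons_none (by rfl)]; rfl

lemma ns_self (z : ℕ) (Q : List (ℕ ⊕ A)) : ns z (Sum.inl z :: Q) = ns z Q := by
  rw [ns, List.filterMap_cons_some (b := z) (by rfl), List.countP_cons_of_neg (by simp)]; rfl

lemma ns_other {z x : ℕ} (h : x ≠ z) (Q : List (ℕ ⊕ A)) :
    ns z (Sum.inl x :: Q) = ns z Q + 1 := by
  rw [ns, List.filterMap_cons_some (b := x) (by rfl), List.countP_cons_of_pos (by simpa using h)]
  rfl

lemma ns_append (z : ℕ) (Q Q' : List (ℕ ⊕ A)) : ns z (Q ++ Q') = ns z Q + ns z Q' := by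
  simp [ns, List.filterMap_append]

/-- the symbol needed -/
def wsym (z : ℕ) (c : A) : ℕ ⊕ A → Option A
  | Sum.inr a => some a
  | Sum.inl x => if x = z then some c else none

lemma wsym_inr (z : ℕ) (c a : A) : wsym z c (Sum.inr a) = some a := rfl

lemma wsym_self (z : ℕ) (c : A) : wsym z c (Sum.inl z) = some c := by simp [wsym]

lemma wsym_other {z x : ℕ} (h : x ≠ z) (c : A) : wsym z c (Sum.inl x) = none := by
  simp [wsym, h]

/-- the block `Q` with the letter `c` for `z`, the other variables being wildcards -/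
def ww (z : ℕ) (c : A) (Q : List (ℕ ⊕ A)) : List (Option A) := Q.map (wsym z c)

lemma ww_length (z : ℕ) (c : A) (Q : List (ℕ ⊕ A)) : (ww z c Q).length = Q.length := by
  simp [ww]

lemma ww_cons (z : ℕ) (c : A) (s : ℕ ⊕ A) (Q : List (ℕ ⊕ A)) :
    ww z c (s :: Q) = wsym z c s :: ww z c Q := rfl

lemma ww_append (z : ℕ) (c : A) (Q Q' : List (ℕ ⊕ A)) :
    ww z c (Q ++ Q') = ww z c Q ++ ww z c Q' := by simp [ww]

lemma nw_ww (z : ℕ) (c : A) (Q : List (ℕ ⊕ A)) : nw (ww z c Q) = ns z Q := by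
  induction Q with
  | nil => rfl
  | cons s Q ih =>
    rw [ww_cons]
    cases s with
    | inr a => rw [wsym_inr, nw_some, ns_inr, ih]
    | inl x =>
      by_cases hx : x = z
      · subst hx; rw [wsym_self, nw_some, ns_self, ih]
      · rw [wsym_other hx, nw_none, ns_other hx, ih]

lemma ns_le (z : ℕ) (Q : List (ℕ ⊕ A)) : ns z Q ≤ Q.length := by
  rw [ns]
  exact (List.countP_le_length).trans (List.length_filterMap_le _ _)

/-- the blocks embed one after the other, each for some letter -/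
def EmbW : List (ℕ × List (ℕ ⊕ A)) → List A → Prop
  | [], _ => True
  | B :: Bs, w => ∃ (c : A) (w1 w2 : List A), w = w1 ++ w2 ∧
      SubW (ww B.1 c B.2) w1 ∧ EmbW Bs w2

/-- the word of the blocks -/
def word (Bs : List (ℕ × List (ℕ ⊕ A))) : List (ℕ ⊕ A) := (Bs.map Prod.snd).flatten

lemma word_cons (B : ℕ × List (ℕ ⊕ A)) (Bs : List (ℕ × List (ℕ ⊕ A))) :
    word (B :: Bs) = B.2 ++ word Bs := rfl

/-- the cost of the blocks: one per block, and one per position with another variable than the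
chosen one -/
def cost : List (ℕ × List (ℕ ⊕ A)) → ℕ
  | [] => 0
  | B :: Bs => ns B.1 B.2 + 1 + cost Bs

lemma EmbW_suffix {Bs : List (ℕ × List (ℕ ⊕ A))} {w w' : List A} (h : EmbW Bs w)
    (hw : w <:+ w') : EmbW Bs w' := by
  cases Bs with
  | nil => trivial
  | cons B Bs =>
    obtain ⟨c, w1, w2, rfl, h1, h2⟩ := h
    obtain ⟨v, rfl⟩ := hw
    exact ⟨c, v ++ w1, w2, by rw [List.append_assoc], h1.mono (List.sublist_append_right _ _), h2⟩

/-- the first block ends beyond `w1`: the others embed in what follows -/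
lemma EmbW_tail {B : ℕ × List (ℕ ⊕ A)} {Bs : List (ℕ × List (ℕ ⊕ A))} {w1 w2 : List A} {a : A}
    (hE : EmbW (B :: Bs) (w1 ++ a :: w2)) (hk : ∀ c : A, ¬ SubW (ww B.1 c B.2) w1) :
    EmbW Bs w2 := by
  obtain ⟨c, v1, v2, hv, hs, hE2⟩ := hE
  apply EmbW_suffix hE2
  have h1 : w1.length < v1.length := by
    by_contra hcon
    push Not at hcon
    have h2 : v1 <+: w1 := by
      apply List.prefix_of_prefix_length_le (l₃ := w1 ++ a :: w2) _ _ hcon
      · rw [hv]; exact List.prefix_append _ _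
      · exact List.prefix_append _ _
    exact hk c (hs.mono h2.sublist)
  apply List.suffix_of_suffix_length_le (l₃ := w1 ++ a :: w2)
  · rw [hv]; exact List.suffix_append _ _
  · exact (List.suffix_cons a w2).trans (List.suffix_append _ _)
  · have := congrArg List.length hv
    simp only [List.length_append, List.length_cons] at this
    omega

/-- the first `t` with `fr S (p.take t) + 2 * m ≤ 2 * t + v` -/
lemma first_timeW (S : Finset ℕ) (p : List (ℕ ⊕ A)) {m v : ℕ} (hm : v + 1 ≤ 2 * m) :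
    2 * p.length + v + 1 ≤ fr S p + 2 * m ∨
    ∃ p1 s p2, p = p1 ++ s :: p2 ∧ fr S (p1 ++ [s]) + 2 * m ≤ 2 * p1.length + 2 + v ∧
      2 * p1.length + v + 1 ≤ fr S p1 + 2 * m := by
  classical
  by_cases h : ∃ t, t ≤ p.length ∧ fr S (p.take t) + 2 * m ≤ 2 * t + v
  · right
    obtain ⟨h1, h2⟩ := Nat.find_spec h
    set t := Nat.find h with ht
    have hmin : ∀ n, n < t → ¬ (n ≤ p.length ∧ fr S (p.take n) + 2 * m ≤ 2 * n + v) :=
      fun n hn => Nat.find_min h hn
    cases hc : t with
    | zero =>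
      rw [hc] at h2
      omega
    | succ t' =>
      rw [hc] at h1 h2 hmin
      have h3 := hmin t' (Nat.lt_succ_self _)
      have hlt : t' < p.length := h1
      refine ⟨p.take t', p[t'], p.drop (t' + 1), ?_, ?_, ?_⟩
      · rw [← List.drop_eq_getElem_cons hlt, List.take_append_drop]
      · rw [List.take_append_getElem hlt, List.length_take, min_eq_left hlt.le]
        omega
      · rw [List.length_take, min_eq_left hlt.le]
        by_contra hcon
        exact h3 ⟨hlt.le, by omega⟩
  · left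
    push Not at h
    have := h p.length le_rfl
    rw [List.take_length] at this
    omega

/-- a block is killed when there are enough new variables -/
lemma kill_block [Fintype A] [Nontrivial A] (z : ℕ) (Q p : List (ℕ ⊕ A)) (S : Finset ℕ)
    (f0 : ℕ → A) (h : 2 * p.length + (ns z Q + 1) + 1 ≤ fr S p + 2 * Q.length) :
    ∃ f : ℕ → A, (∀ x ∈ S, f x = f0 x) ∧ ∀ c, ¬ SubW (ww z c Q) (lets f p) := by
  obtain ⟨c0, c1, hc⟩ := exists_pair_ne A
  refine killW hc.symm p S f0 (fun c => ww z c Q) (fun hl => ?_) (fun c _ hl => ?_)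
  · rw [ww_length] at hl
    rw [ww_length, ww_length, nw_ww]
    omega
  · rw [ww_length] at hl
    rw [ww_length, nw_ww]
    omega

/-- the relaxed statement, with slack one -/
theorem relaxW [Fintype A] [Nontrivial A] (Bs : List (ℕ × List (ℕ ⊕ A))) :
    (∀ B ∈ Bs, ns B.1 B.2 + 1 ≤ B.2.length) → ∀ (p : List (ℕ ⊕ A)) (S : Finset ℕ) (f0 : ℕ → A),
      cost Bs + 2 * p.length + 1 ≤ fr S p + 2 * (word Bs).length →
      ∃ f : ℕ → A, (∀ x ∈ S, f x = f0 x) ∧ ¬ EmbW Bs (lets f p) := by
  induction Bs with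
  | nil =>
    intro _ p S f0 h
    have := fr_le S p
    simp [word, cost] at h
    omega
  | cons B Bs ih =>
    intro hB p S f0 h
    have hm := hB B (List.mem_cons_self)
    rw [word_cons, List.length_append] at h
    have hcost : cost (B :: Bs) = ns B.1 B.2 + 1 + cost Bs := rfl
    rw [hcost] at h
    rcases first_timeW S p (m := B.2.length) (v := ns B.1 B.2 + 1) (by omega) with h1 |
      ⟨p1, s, p2, rfl, h2, h3⟩
    · obtain ⟨f, hf1, hf2⟩ := kill_block B.1 B.2 p S f0 h1
      refine ⟨f, hf1, ?_⟩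
      rintro ⟨c, w1, w2, hw, hs, -⟩
      refine hf2 c ?_
      rw [hw]
      exact hs.mono (List.sublist_append_left _ _)
    · obtain ⟨f1, hf1, hf2⟩ := kill_block B.1 B.2 p1 S f0 h3
      have h4 : p1 ++ s :: p2 = (p1 ++ [s]) ++ p2 := by simp
      have h5 := fr_append S (p1 ++ [s]) p2
      rw [← h4] at h5
      obtain ⟨f2, hf3, hf4⟩ := ih (fun B' hB' => hB B' (List.mem_cons_of_mem _ hB')) p2
        (S ∪ vs (p1 ++ [s])) f1 (by
          rw [h5, List.length_append, List.length_cons] at h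
          omega)
      obtain ⟨h6, h7⟩ := combine (p2 := p2) hf1 hf3
      refine ⟨f2, h6, fun hE => hf4 ?_⟩
      rw [h7] at hE
      exact EmbW_tail hE hf2

end Pool.Agent.H54.PD
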