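import Mathlib
import Pool.Agent.H54.PD.EmbW
import Pool.Agent.H54.PD.Real

/-!
# MP_7f399b_lc: one block with a chosen variable, exact positions
-/

namespace Pool.Agent.H54.PD

open Pool.Agent.PatDepth Pool.Agent.H344R3.PD

variable {A : Type}

/-- the block embeds in its instances -/
lemma head_subW {z : ℕ} (Q : List (ℕ ⊕ A)) {τ : ℕ → List A} (hτ : ∀ x, τ x ≠ []) {c : A}
    {l : List A} (hc : τ z = c :: l) : SubW (ww z c Q) (subst τ Q) := by
  induction Q with
  | nil => exact ⟨[], List.nil_sublist _, List.Forall₂.nil⟩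
  | cons s Q ih =>
    obtain ⟨v, hv, h2⟩ := ih
    rw [ww_cons, subst_cons]
    cases s with
    | inr a =>
      exact ⟨a :: v, List.cons_sublist_cons.mpr hv, List.Forall₂.cons (Or.inr rfl) h2⟩
    | inl x =>
      rw [Sum.elim_inl]
      by_cases hx : x = z
      · subst hx
        rw [wsym_self, hc, List.cons_append]
        exact ⟨c :: v, List.cons_sublist_cons.mpr (hv.trans (List.sublist_append_right _ _)),
          List.Forall₂.cons (Or.inr rfl) h2⟩
      · obtain ⟨d, m, hd⟩ := List.exists_cons_of_ne_nil (hτ x)
        rw [wsym_other hx, hd, List.cons_append]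
        exact ⟨d :: v, List.cons_sublist_cons.mpr (hv.trans (List.sublist_append_right _ _)),
          List.Forall₂.cons (Or.inl rfl) h2⟩

/-- only the variable `z` -/
def AllZ (z : ℕ) (Q : List (ℕ ⊕ A)) : Prop := ∀ s ∈ Q, s = Sum.inl z

lemma allZ_rep {z : ℕ} {Q : List (ℕ ⊕ A)} (h : AllZ z Q) :
    Q = List.replicate Q.length (Sum.inl z) := List.eq_replicate_of_mem h

lemma ww_allZ {z : ℕ} {Q : List (ℕ ⊕ A)} (h : AllZ z Q) (c : A) :
    ww z c Q = List.replicate Q.length (some c) := by
  rw [allZ_rep h]
  simp [ww, wsym_self]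

lemma ns_allZ {z : ℕ} {Q : List (ℕ ⊕ A)} (h : AllZ z Q) : ns z Q = 0 := by
  induction Q with
  | nil => rfl
  | cons s Q ih =>
    have h1 := h s (List.mem_cons_self)
    subst h1
    rw [ns_self]
    exact ih fun s hs => h s (List.mem_cons_of_mem _ hs)

lemma subst_allZ {z : ℕ} {Q : List (ℕ ⊕ A)} (h : AllZ z Q) (τ : ℕ → List A) :
    (subst τ Q).length = Q.length * (τ z).length := by
  induction Q with
  | nil => simp [subst]
  | cons s Q ih =>
    have h1 := h s (List.mem_cons_self)
    subst h1
    rw [subst_cons, List.length_append, ih (fun s hs => h s (List.mem_cons_of_mem _ hs)),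
      List.length_cons, Sum.elim_inl]
    ring

lemma subst_allZ_letter {z : ℕ} {Q : List (ℕ ⊕ A)} (h : AllZ z Q) {τ : ℕ → List A} {c : A}
    (hc : τ z = [c]) : subst τ Q = List.replicate Q.length c := by
  induction Q with
  | nil => simp [subst]
  | cons s Q ih =>
    have h1 := h s (List.mem_cons_self)
    subst h1
    rw [subst_cons, ih (fun s hs => h s (List.mem_cons_of_mem _ hs)), List.length_cons,
      Sum.elim_inl, hc, List.replicate_succ]
    rfl

/-- the leading positions that are new variables in `P` and the variable `z` in `Q` -/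
lemma splitZ (z : ℕ) (S : Finset ℕ) (P Q : List (ℕ ⊕ A)) (n : ℕ) : n ≤ P.length →
    n ≤ Q.length →
    (∃ P1 P2 Q1 Q2, P = P1 ++ P2 ∧ Q = Q1 ++ Q2 ∧ P1.length = n ∧ Q1.length = n ∧
      fr S P1 = n ∧ AllZ z Q1) ∨
    (∃ P1 s P2 Q1 r Q2, P = P1 ++ s :: P2 ∧ Q = Q1 ++ r :: Q2 ∧ P1.length = Q1.length ∧
      P1.length < n ∧ fr S P1 = P1.length ∧ AllZ z Q1 ∧
      (fr (S ∪ vs P1) [s] = 0 ∨ r ≠ Sum.inl z)) := by
  induction n with
  | zero =>
    intro _ _
    left
    exact ⟨[], P, [], Q, rfl, rfl, rfl, rfl, fr_nil S, fun s hs => absurd hs (by simp)⟩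
  | succ n ih =>
    intro hP hQ
    rcases ih (by omega) (by omega) with ⟨P1, P2, Q1, Q2, rfl, rfl, h1, h2, h3, h4⟩ |
      ⟨P1, s, P2, Q1, r, Q2, h1, h2, h3, h4, h5, h6, h7⟩
    · cases P2 with
      | nil => simp at hP; omega
      | cons s P2 =>
        cases Q2 with
        | nil => simp at hQ; omega
        | cons r Q2 =>
          by_cases hc : fr (S ∪ vs P1) [s] = 0 ∨ r ≠ Sum.inl z
          · right
            exact ⟨P1, s, P2, Q1, r, Q2, rfl, rfl, by omega, by omega, by omega, h4, hc⟩
          · left
            push Not at hc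
            obtain ⟨h5, h6⟩ := hc
            refine ⟨P1 ++ [s], P2, Q1 ++ [r], Q2, by simp, by simp, by simp [h1], by simp [h2],
              ?_, ?_⟩
            · rw [fr_append, h3]
              have := fr_single_le (S ∪ vs P1) s
              omega
            · intro t ht
              rw [List.mem_append, List.mem_singleton] at ht
              rcases ht with ht | rfl
              · exact h4 t ht
              · exact h6
    · right
      exact ⟨P1, s, P2, Q1, r, Q2, h1, h2, h3, by omega, h5, h6, h7⟩

/-- the common part of the cases -/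
lemma coreW [Fintype A] [Nontrivial A] {e z i k : ℕ} {P1 P2 Q : List (ℕ ⊕ A)} {s : ℕ ⊕ A}
    {S : Finset ℕ} {f0 f1 : ℕ → A} {b : A}
    (hlen : (P1 ++ s :: P2).length = Q.length + e) (hi : P1.length = i) (hi' : i ≤ e)
    (hm : e + 1 ≤ Q.length) (hk : k ≤ i + 1) (hf1 : ∀ x ∈ S, f1 x = f0 x)
    (hP1 : lets f1 P1 = List.replicate i b) (hs : Sum.elim f1 id s = b)
    (hfr : 2 * (e - i) + k + nw ((ww z b Q).drop k) ≤ fr (S ∪ vs (P1 ++ [s])) P2)
    (hfr' : e - i + ns z Q ≤ fr (S ∪ vs (P1 ++ [s])) P2)
    (hb : ∀ w, SubW (ww z b Q) (List.replicate (i + 1) b ++ w) → SubW ((ww z b Q).drop k) w)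
    (hc : ∀ c, c ≠ b → ∃ d l, d ≠ b ∧ ww z c Q = some d :: l) :
    ∃ f : ℕ → A, (∀ x ∈ S, f x = f0 x) ∧ ∀ τ : ℕ → List A, (∀ x, τ x ≠ []) →
      ¬ (subst τ Q <:+: lets f (P1 ++ s :: P2)) := by
  classical
  rw [List.length_append, List.length_cons] at hlen
  obtain ⟨b', hb'⟩ := exists_ne b
  obtain ⟨f, hfa, hfb⟩ := killW hb' P2 (S ∪ vs (P1 ++ [s])) f1
    (fun c => if c = b then (ww z c Q).drop k else ww z c Q)
    (fun hl => by
      simp only [if_true, hb', if_false] at hl ⊢
      rw [List.length_drop, ww_length, ww_length]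
      omega)
    (fun c hcb hl => by
      simp only [hcb, if_false] at hl ⊢
      rw [ww_length, nw_ww]
      omega)
  obtain ⟨h6, h7⟩ := combine (p2 := P2) hf1 hfa
  refine ⟨f, h6, fun τ hτ hinf => ?_⟩
  obtain ⟨c, l, hcl⟩ := List.exists_cons_of_ne_nil (hτ z)
  have h8 : SubW (ww z c Q) (List.replicate (i + 1) b ++ lets f P2) := by
    have h9 := (head_subW Q hτ hcl).mono hinf.sublist
    rw [h7, hP1, hs] at h9
    rw [List.replicate_succ', List.append_assoc, List.singleton_append]
    exact h9
  refine hfb c ?_
  by_cases hcb : c = b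
  · subst hcb
    simp only [if_true]
    exact hb _ h8
  · simp only [hcb, if_false]
    obtain ⟨d, l', hd, hl'⟩ := hc c hcb
    rw [hl'] at h8 ⊢
    exact SubW.skip_rep hd _ h8

/-- a single word with wildcards is avoided -/
lemma avoidW [Fintype A] [Nontrivial A] {S : Finset ℕ} {p : List (ℕ ⊕ A)}
    {U : List (Option A)} (hU : U.length = p.length) (h : nw U + 1 ≤ fr S p) (f0 : ℕ → A) :
    ∃ f : ℕ → A, (∀ x ∈ S, f x = f0 x) ∧ ¬ SubW U (lets f p) := by
  classical
  obtain ⟨c0, c1, hc⟩ := exists_pair_ne A
  obtain ⟨f, hf1, hf2⟩ := killW hc.symm p S f0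
    (fun c => if c = c0 then List.replicate (p.length + 1) none else U)
    (fun hl => by
      simp only [if_true] at hl
      rw [List.length_replicate] at hl
      omega)
    (fun c hcc hl => by
      simp only [hcc, if_false] at hl ⊢
      omega)
  refine ⟨f, hf1, ?_⟩
  have := hf2 c1
  simp only [hc.symm, if_false] at this
  exact this

/-- the case without common leading symbols -/
lemma rkW_np [Fintype A] [Nontrivial A] {e z : ℕ} (he : 1 ≤ e) {P Q : List (ℕ ⊕ A)}
    {S : Finset ℕ} {f0 : ℕ → A} (hlen : P.length = Q.length + e)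
    (hfr : 2 * e + 1 + ns z Q ≤ fr S P)
    (hnp : ∀ s P' a Q', P = s :: P' → Q = Sum.inr a :: Q' → fr S [s] = 0 →
      Sum.elim f0 id s ≠ a)
    (hnp2 : ∀ s P' x Q', P = s :: P' → Q = Sum.inl x :: Q' → x ≠ z → fr S [s] = 0) :
    ∃ f : ℕ → A, (∀ x ∈ S, f x = f0 x) ∧ ∀ τ : ℕ → List A, (∀ x, τ x ≠ []) →
      ¬ (subst τ Q <:+: lets f P) := by
  classical
  have hm : e + 1 ≤ Q.length := by
    have := fr_le S P
    omega
  rcases splitZ z S P Q (e + 1) (by omega) hm with
    ⟨P1, P2, Q1, Q2, rfl, rfl, h1, h2, h3, h4⟩ |
    ⟨P1, s, P2, Q1, r, Q2, rfl, rfl, h1, h2, h3, h4, h5⟩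
  · -- `e + 1` new variables against `e + 1` times `z`
    obtain ⟨P1', s, rfl⟩ : ∃ P1' s, P1 = P1' ++ [s] := by
      have : P1 ≠ [] := by intro h; rw [h] at h1; simp at h1
      exact ⟨P1.dropLast, P1.getLast this, (List.dropLast_append_getLast this).symm⟩
    rw [List.length_append, List.length_singleton] at h1
    have h5 := fr_append S P1' [s]
    have h6 := fr_le S P1'
    have h7 := fr_single_le (S ∪ vs P1') s
    obtain ⟨y, rfl, hy⟩ : ∃ y, s = Sum.inl y ∧ y ∉ S ∪ vs P1' := by
      rcases fr_single (S ∪ vs P1') s with h8 | h8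
      · omega
      · exact h8
    obtain ⟨a, b, hab⟩ := exists_pair_ne A
    set f1 : ℕ → A := fun x => if x ∈ S then f0 x else if x = y then b else a with hf1
    have hyS : y ∉ S := fun h => hy (Finset.mem_union_left _ h)
    have hyP : Sum.inl y ∉ P1' := fun h => hy (Finset.mem_union_right _ (mem_vs.mpr h))
    have hf1S : ∀ x ∈ S, f1 x = f0 x := fun x hx => by simp [hf1, hx]
    have hf1y : f1 y = b := by simp [hf1, hyS]
    have hP1 : lets f1 P1' = List.replicate e a := by
      have h8 : P1'.length = e := by omega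
      rw [← h8]
      refine lets_full (S := S) (by omega) fun x hx hxS => ?_
      have : x ≠ y := by rintro rfl; exact hyP hx
      simp [hf1, hxS, this]
    have h8 := fr_append S (P1' ++ [Sum.inl y]) P2
    -- the rest of the block
    obtain ⟨t, Q1', rfl⟩ : ∃ t Q1', Q1 = t :: Q1' := by
      cases Q1 with
      | nil => simp at h2
      | cons t Q1' => exact ⟨t, Q1', rfl⟩
    have ht := h4 t (List.mem_cons_self)
    subst ht
    rw [List.length_append, List.length_append, List.length_append, List.length_singleton,
      List.length_cons] at hlen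
    rw [List.cons_append, ns_self] at hfr
    rw [List.length_cons] at h2
    obtain ⟨f2, hf2, hf2'⟩ := avoidW (S := S ∪ vs (P1' ++ [Sum.inl y])) (p := P2)
      (U := ww z b (Q1' ++ Q2)) (by rw [ww_length, List.length_append]; omega)
      (by rw [nw_ww]; omega) f1
    obtain ⟨h9, h10⟩ := combine (p2 := P2) hf1S hf2
    refine ⟨f2, h9, fun τ hτ hinf => hf2' ?_⟩
    have h11 : P1' ++ [Sum.inl y] ++ P2 = P1' ++ Sum.inl y :: P2 := by simp
    rw [h11, h10, hP1, Sum.elim_inl, hf1y] at hinf
    obtain ⟨u, v, huv⟩ := hinf
    have hlenu := congrArg List.length huv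
    rw [subst_append, List.length_append, List.length_append, List.length_append,
      List.length_append, List.length_cons, List.length_replicate, lets_length,
      subst_allZ h4, List.length_cons] at hlenu
    have hsl2 := length_le hτ Q2
    have hpos := List.length_pos_iff.mpr (hτ z)
    have hone : (τ z).length = 1 := by
      by_contra hne
      have h12 : 2 ≤ (τ z).length := by omega
      have h13 : (Q1'.length + 1) * 2 ≤ (Q1'.length + 1) * (τ z).length :=
        Nat.mul_le_mul_left _ h12
      omega
    obtain ⟨c, hcz⟩ := List.length_eq_one_iff.mp hone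
    rw [hone, mul_one] at hlenu
    have hsub1 := subst_allZ_letter h4 hcz
    have hul : u.length ≤ e := by omega
    have huv2 : u ++ (List.replicate (e + 1) c ++ (subst τ Q2 ++ v)) =
        List.replicate e a ++ b :: lets f2 P2 := by
      rw [← huv, subst_append, hsub1, List.length_cons, h2]
      simp
    obtain ⟨h12, h13⟩ := align hab hul huv2
    subst h13
    have hv : v = [] := by
      apply List.length_eq_zero_iff.mp
      omega
    rw [hv, List.append_nil] at huv
    have h14 := List.append_inj_right huv (by rw [List.length_replicate]; exact h12)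
    have h15 := head_subW (Sum.inl z :: Q1' ++ Q2) hτ hcz
    rw [h14, List.cons_append, ww_cons, wsym_self] at h15
    have h16 := h15.step
    rwa [stw_some_eq] at h16
  · -- the first position of another kind
    have h6 : P1 ++ s :: P2 = P1 ++ [s] ++ P2 := by simp
    have h7 := fr_append S (P1 ++ [s]) P2
    rw [← h6] at h7
    have h8 := fr_append S P1 [s]
    have hQ1 : P1 = [] ↔ Q1 = [] := by
      rw [← List.length_eq_zero_iff, ← List.length_eq_zero_iff, h1]
    -- setting the new variables of `P1` to `b`
    have hset : ∀ b : A, ∃ f1 : ℕ → A, (∀ x ∈ S, f1 x = f0 x) ∧ (∀ x, x ∉ S → f1 x = b) ∧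
        lets f1 P1 = List.replicate P1.length b := by
      intro b
      refine ⟨fun x => if x ∈ S then f0 x else b, fun x hx => by simp [hx],
        fun x hx => by simp [hx], ?_⟩
      exact lets_full h3 fun x _ hxS => by simp [hxS]
    have hhead : ∀ b c : A, c ≠ b → P1 ≠ [] →
        ∃ d l, d ≠ b ∧ ww z c (Q1 ++ r :: Q2) = some d :: l := by
      intro b c hcb hne
      cases hq : Q1 with
      | nil => exact absurd (hQ1.mpr hq) hne
      | cons t Q1' =>
        have ht : t = Sum.inl z := h4 t (by rw [hq]; exact List.mem_cons_self)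
        exact ⟨c, _, hcb, by rw [ht, List.cons_append, ww_cons, wsym_self]⟩
    have hdrop : ∀ b w, SubW (ww z b (Q1 ++ r :: Q2)) (List.replicate (P1.length + 1) b ++ w) →
        SubW ((ww z b (Q1 ++ r :: Q2)).drop (P1.length + 1)) w := by
      intro b w hw
      have := hw.drop_append
      rwa [List.length_replicate] at this
    have hnsle : ∀ b k, nw ((ww z b (Q1 ++ r :: Q2)).drop k) ≤ ns z (Q1 ++ r :: Q2) := by
      intro b k
      have := nw_drop_le (ww z b (Q1 ++ r :: Q2)) k
      rwa [nw_ww] at this
    -- the wildcard at position `P1.length`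
    have hwild : ∀ b x, r = Sum.inl x → x ≠ z →
        nw ((ww z b (Q1 ++ r :: Q2)).drop (P1.length + 1)) + 1 = ns z (Q1 ++ r :: Q2) := by
      intro b x hr hx
      have e1 : (ww z b (Q1 ++ r :: Q2)).drop (P1.length + 1) = ww z b Q2 := by
        have e2 : Q1 ++ r :: Q2 = (Q1 ++ [r]) ++ Q2 := by simp
        rw [e2, ww_append, List.drop_left' (by rw [ww_length, List.length_append,
          List.length_singleton, h1])]
      rw [e1, nw_ww, ns_append, hr, ns_other hx, ns_allZ h4]
      omega
    by_cases hs : fr (S ∪ vs P1) [s] = 0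
    · -- the letter of `s` is determined
      obtain ⟨b, f1, hf1, hf1P, hf1s, hbs⟩ : ∃ (b : A) (f1 : ℕ → A), (∀ x ∈ S, f1 x = f0 x) ∧
          lets f1 P1 = List.replicate P1.length b ∧ Sum.elim f1 id s = b ∧
          (P1 = [] → Sum.elim f0 id s = b) := by
        cases s with
        | inr a =>
          obtain ⟨f1, g1, g2, g3⟩ := hset a
          exact ⟨a, f1, g1, g3, rfl, fun _ => rfl⟩
        | inl x =>
          by_cases hx : x ∈ S
          · obtain ⟨f1, g1, g2, g3⟩ := hset (f0 x)
            exact ⟨f0 x, f1, g1, g3, g1 x hx, fun _ => rfl⟩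
          · obtain ⟨a, _, _⟩ := exists_pair_ne A
            obtain ⟨f1, g1, g2, g3⟩ := hset a
            refine ⟨a, f1, g1, g3, g2 x hx, fun hP1 => ?_⟩
            exfalso
            rw [hP1] at hs
            have hv : S ∪ vs ([] : List (ℕ ⊕ A)) = S := by simp [vs]
            rw [hv, fr_single_new hx] at hs
            exact absurd hs one_ne_zero
      by_cases hcase : P1 ≠ [] ∨ r = Sum.inl z
      · refine coreW (z := z) (i := P1.length) (k := P1.length + 1) (b := b) hlen rfl (by omega) hm
          le_rfl hf1 hf1P hf1s ?_ (by omega) (hdrop b) (fun c hc => ?_)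
        · have := hnsle b (P1.length + 1)
          omega
        · by_cases hne : P1 = []
          · have hr := hcase.resolve_left (fun h => h hne)
            have hq := hQ1.mp hne
            rw [hq, hr, List.nil_append, ww_cons, wsym_self]
            exact ⟨c, _, hc, rfl⟩
          · exact hhead b c hc hne
      · push Not at hcase
        obtain ⟨hP1, hr⟩ := hcase
        have hQ1' := hQ1.mp hP1
        have hbs' := hbs hP1
        subst hP1
        subst hQ1'
        rw [List.nil_append, List.nil_append] at *
        have hv : S ∪ vs ([] : List (ℕ ⊕ A)) = S := by simp [vs]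
        rw [hv] at hs
        have hfr0 : fr S ([] : List (ℕ ⊕ A)) = 0 := fr_nil S
        rw [List.length_nil] at *
        cases r with
        | inr d =>
          have hne : b ≠ d := by
            rw [← hbs']
            exact hnp s P2 d Q2 rfl rfl hs
          refine coreW (z := z) (P1 := []) (i := 0) (k := 0) (b := b) (f1 := f1) (by
              simpa using hlen) rfl
            (by omega) hm (by omega) hf1 rfl hf1s ?_ ?_ (fun w hw => ?_)
            (fun c hc => ?_)
          · have := hnsle b 0
            rw [List.nil_append]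
            rw [hv] at h8
            omega
          · rw [List.nil_append]
            rw [hv] at h8
            omega
          · rw [List.drop_zero]
            rw [ww_cons, wsym_inr] at hw ⊢
            exact SubW.skip_rep hne.symm _ hw
          · exact ⟨d, _, hne.symm, by rw [ww_cons, wsym_inr]⟩
        | inl x =>
          have hx : x ≠ z := fun h => hr (by rw [h])
          -- all blocks advance
          rw [hv] at h8
          rw [ns_other hx] at hfr
          simp only [List.length_cons] at hlen
          obtain ⟨f, hfa, hfb⟩ := kill_block z Q2 P2 (S ∪ vs [s]) f0 (by omega)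
          refine ⟨f, fun y hy => hfa y (Finset.mem_union_left _ hy), fun τ hτ hinf => ?_⟩
          obtain ⟨c, l, hcl⟩ := List.exists_cons_of_ne_nil (hτ z)
          refine hfb c ?_
          have h9 := (head_subW (Sum.inl x :: Q2) hτ hcl).mono hinf.sublist
          rw [lets_cons] at h9
          exact h9.drop_one
    · -- a new variable against another symbol
      have hr := h5.resolve_left hs
      obtain ⟨y, rfl, hy⟩ := (fr_single (S ∪ vs P1) s).resolve_left hs
      have hx1 := fr_single_le (S ∪ vs P1) (Sum.inl y : ℕ ⊕ A)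
      cases r with
      | inr d =>
        obtain ⟨b, hb⟩ := exists_ne d
        obtain ⟨f1, g1, g2, g3⟩ := hset b
        refine coreW (z := z) (i := P1.length) (k := P1.length) (b := b) hlen rfl (by omega) hm
          (by omega) g1 g3 (g2 y fun h => hy (Finset.mem_union_left _ h)) ?_ (by omega)
          (fun w hw => ?_) (fun c hc => ?_)
        · have := hnsle b P1.length
          omega
        · have h9 : ww z b (Q1 ++ Sum.inr d :: Q2) =
              List.replicate P1.length (some b) ++ some d :: ww z b Q2 := by
            rw [ww_append, ww_allZ h4, ww_cons, wsym_inr, h1]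
          rw [h9] at hw ⊢
          have h10 : (List.replicate P1.length (some b) ++ some d :: ww z b Q2).drop P1.length =
              some d :: ww z b Q2 := by
            rw [List.drop_left' (by simp)]
          rw [h10]
          exact SubW.rep hb.symm _ hw
        · by_cases hne : P1 = []
          · have hq := hQ1.mp hne
            rw [hq, List.nil_append, ww_cons, wsym_inr]
            exact ⟨d, _, hb.symm, rfl⟩
          · exact hhead b c hc hne
      | inl x =>
        have hx : x ≠ z := fun h => hr (by rw [h])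
        by_cases hne : P1 = []
        · exfalso
          have hq := hQ1.mp hne
          subst hne
          subst hq
          have := hnp2 (Sum.inl y) P2 x Q2 rfl rfl hx
          have hv : S ∪ vs ([] : List (ℕ ⊕ A)) = S := by simp [vs]
          rw [hv] at hs
          exact hs this
        · obtain ⟨b, _, _⟩ := exists_pair_ne A
          obtain ⟨f1, g1, g2, g3⟩ := hset b
          refine coreW (z := z) (i := P1.length) (k := P1.length + 1) (b := b) hlen rfl (by omega)
            hm le_rfl g1 g3 (g2 y fun h => hy (Finset.mem_union_left _ h)) ?_ (by omega)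
            (hdrop b) (fun c hc => hhead b c hc hne)
          have := hwild b x rfl hx
          omega

/-- one block, exact positions -/
theorem rkW [Fintype A] [Nontrivial A] {e z : ℕ} (he : 1 ≤ e) (P : List (ℕ ⊕ A)) :
    ∀ (Q : List (ℕ ⊕ A)) (S : Finset ℕ) (f0 : ℕ → A), P.length = Q.length + e →
    2 * e + 1 + ns z Q ≤ fr S P →
    ∃ f : ℕ → A, (∀ x ∈ S, f x = f0 x) ∧ ∀ τ : ℕ → List A, (∀ x, τ x ≠ []) →
      ¬ (subst τ Q <:+: lets f P) := by
  classical
  induction P with
  | nil =>
    intro Q S f0 _ h
    rw [fr_nil] at h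
    omega
  | cons s P ih =>
    intro Q S f0 hlen hfr
    by_cases hp : ∃ a Q', Q = Sum.inr a :: Q' ∧ fr S [s] = 0 ∧ Sum.elim f0 id s = a
    · obtain ⟨a, Q', rfl, h1, h2⟩ := hp
      have h3 := fr_append S [s] P
      rw [List.singleton_append] at h3
      rw [ns_inr] at hfr
      obtain ⟨f, hf1, hf2⟩ := ih Q' (S ∪ vs [s]) f0
        (by rw [List.length_cons, List.length_cons] at hlen; omega) (by omega)
      refine ⟨f, fun x hx => hf1 x (Finset.mem_union_left _ hx), fun τ hτ hinf => ?_⟩
      have h4 : lets f (s :: P) = a :: lets f P := by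
        rw [lets_cons, ← h2]
        congr 1
        cases s with
        | inr b => rfl
        | inl x => exact hf1 x (Finset.mem_union_right _ (mem_vs.mpr (List.mem_cons_self)))
      rw [h4] at hinf
      have h5 : subst τ (Sum.inr a :: Q') = a :: subst τ Q' := rfl
      rw [h5] at hinf
      refine hf2 τ hτ ?_
      rcases List.infix_cons_iff.mp hinf with h6 | h6
      · exact (List.cons_prefix_cons.mp h6).2.isInfix
      · exact ((List.suffix_cons a _).isInfix).trans h6
    · by_cases hp2 : ∃ x Q', Q = Sum.inl x :: Q' ∧ x ≠ z ∧ fr S [s] ≠ 0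
      · obtain ⟨x, Q', rfl, hx, h1⟩ := hp2
        have h3 := fr_append S [s] P
        have h3' := fr_single_le S s
        rw [List.singleton_append] at h3
        rw [ns_other hx] at hfr
        obtain ⟨f, hf1, hf2⟩ := ih Q' (S ∪ vs [s]) f0
          (by rw [List.length_cons, List.length_cons] at hlen; omega) (by omega)
        refine ⟨f, fun x hx => hf1 x (Finset.mem_union_left _ hx), fun τ hτ hinf => ?_⟩
        rw [lets_cons] at hinf
        have h5 : subst τ (Sum.inl x :: Q') = τ x ++ subst τ Q' := rfl
        obtain ⟨d, m, hd⟩ := List.exists_cons_of_ne_nil (hτ x)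
        rw [h5, hd, List.cons_append] at hinf
        refine hf2 τ hτ ?_
        rcases List.infix_cons_iff.mp hinf with h6 | h6
        · exact ((List.suffix_append m _).isInfix).trans (List.cons_prefix_cons.mp h6).2.isInfix
        · exact ((List.suffix_append m _).trans (List.suffix_cons d _)).isInfix.trans h6
      · refine rkW_np (z := z) he hlen hfr ?_ ?_
        · rintro s' P' a Q' hP hQ h1 h2
          obtain ⟨rfl, rfl⟩ := List.cons.inj hP
          exact hp ⟨a, Q', hQ, h1, h2⟩
        · rintro s' P' x Q' hP hQ hx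
          obtain ⟨rfl, rfl⟩ := List.cons.inj hP
          by_contra h1
          exact hp2 ⟨x, Q', hQ, hx, h1⟩

end Pool.Agent.H54.PD
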