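import Mathlib
import Pool.Agent.H54.PD.RealW
import Pool.Agent.H54.PD.NonCross

/-!
# MP_7f399b_lc: the inclusion law for products of blocks with a chosen variable
-/

namespace Pool.Agent.H54.PD

open Pool.Agent.PatDepth Pool.Agent.H344R3.PD

variable {A : Type}

/-- a product of words, each block being replaced by an instance of it -/
def ParW : List (ℕ × List (ℕ ⊕ A)) → List A → Prop
  | [], w => w = []
  | B :: Bs, w => ∃ (τ : ℕ → List A) (w2 : List A), (∀ x, τ x ≠ []) ∧ w = subst τ B.2 ++ w2 ∧
      ParW Bs w2

lemma ParW_subst {τ : ℕ → List A} (hτ : ∀ x, τ x ≠ []) (Bs : List (ℕ × List (ℕ ⊕ A))) :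
    ParW Bs (subst τ (word Bs)) := by
  induction Bs with
  | nil => rfl
  | cons B Bs ih =>
    rw [word_cons, subst_append]
    exact ⟨τ, _, hτ, rfl, ih⟩

lemma ParW_EmbW (Bs : List (ℕ × List (ℕ ⊕ A))) : ∀ {w : List A}, ParW Bs w → EmbW Bs w := by
  induction Bs with
  | nil => intro w _; trivial
  | cons B Bs ih =>
    rintro w ⟨τ, w2, hτ, rfl, h2⟩
    obtain ⟨c, l, hcl⟩ := List.exists_cons_of_ne_nil (hτ B.1)
    exact ⟨c, _, w2, rfl, head_subW B.2 hτ hcl, ih h2⟩

/-- the exact statement -/
theorem strictW [Fintype A] [Nontrivial A] (Bs : List (ℕ × List (ℕ ⊕ A))) :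
    (∀ B ∈ Bs, ns B.1 B.2 + 1 ≤ B.2.length) → ∀ (p : List (ℕ ⊕ A)) (S : Finset ℕ) (f0 : ℕ → A),
      cost Bs + 2 * p.length ≤ fr S p + 2 * (word Bs).length →
      (word Bs).length < p.length →
      ∃ f : ℕ → A, (∀ x ∈ S, f x = f0 x) ∧ ∀ v, v <:+ lets f p → ¬ ParW Bs v := by
  induction Bs with
  | nil =>
    intro _ p S f0 h h'
    have := fr_le S p
    simp [word, cost] at h h'
    omega
  | cons B Bs ih =>
    intro hB p S f0 h h'
    have hm := hB B (List.mem_cons_self)
    have hBs : ∀ B' ∈ Bs, ns B'.1 B'.2 + 1 ≤ B'.2.length :=
      fun B' hB' => hB B' (List.mem_cons_of_mem _ hB')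
    by_cases hsl : cost (B :: Bs) + 2 * p.length + 1 ≤ fr S p + 2 * (word (B :: Bs)).length
    · obtain ⟨f, hf1, hf2⟩ := relaxW (B :: Bs) hB p S f0 hsl
      exact ⟨f, hf1, fun v hv hP => hf2 (EmbW_suffix (ParW_EmbW _ hP) hv)⟩
    rw [word_cons, List.length_append] at h h' hsl
    have hcost : cost (B :: Bs) = ns B.1 B.2 + 1 + cost Bs := rfl
    rw [hcost] at h hsl
    rcases first_timeW S p (m := B.2.length) (v := ns B.1 B.2 + 1) (by omega) with h1 |
      ⟨p1, s, p2, rfl, h2, h3⟩
    · obtain ⟨f, hf1, hf2⟩ := kill_block B.1 B.2 p S f0 h1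
      refine ⟨f, hf1, fun v hv hP => ?_⟩
      obtain ⟨c, w1, w2, hw, hs, -⟩ := EmbW_suffix (ParW_EmbW _ hP) hv
      refine hf2 c ?_
      rw [hw]
      exact hs.mono (List.sublist_append_left _ _)
    · have h4 : p1 ++ s :: p2 = (p1 ++ [s]) ++ p2 := by simp
      have h5 := fr_append S (p1 ++ [s]) p2
      rw [← h4] at h5
      have h5' := fr_append S p1 [s]
      have h5'' := fr_single_le (S ∪ vs p1) s
      rw [h5, List.length_append, List.length_cons] at h hsl
      rw [List.length_append, List.length_cons] at h'
      by_cases hov : fr S (p1 ++ [s]) + 2 * B.2.length ≤ 2 * p1.length + 1 + (ns B.1 B.2 + 1)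
      · -- overshoot
        obtain ⟨f1, hf1, hf2⟩ := kill_block B.1 B.2 p1 S f0 h3
        obtain ⟨f2, hf3, hf4⟩ := relaxW Bs hBs p2 (S ∪ vs (p1 ++ [s])) f1 (by omega)
        obtain ⟨h6, h7⟩ := combine (p2 := p2) hf1 hf3
        refine ⟨f2, h6, fun v hv hP => hf4 ?_⟩
        have hE := EmbW_suffix (ParW_EmbW _ hP) hv
        rw [h7] at hE
        exact EmbW_tail hE hf2
      · rcases Nat.lt_or_ge B.2.length (p1.length + 1) with hlt | hge
        · -- more letters than symbols in the block
          obtain ⟨f1, hf1, hf2⟩ := rkW (e := p1.length + 1 - B.2.length) (z := B.1) (by omega)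
            (p1 ++ [s]) B.2 S f0 (by rw [List.length_append, List.length_singleton]; omega)
            (by omega)
          cases p2 with
          | nil =>
            refine ⟨f1, hf1, ?_⟩
            rintro v hv ⟨τ, w2, hτ, rfl, hP⟩
            exact hf2 τ hτ (((List.prefix_append _ w2).isInfix).trans hv.isInfix)
          | cons s' p3 =>
            have h8 : s' :: p3 = [s'] ++ p3 := rfl
            have h9 := fr_append (S ∪ vs (p1 ++ [s])) [s'] p3
            rw [← h8] at h9
            have h10 := fr_single_le (S ∪ vs (p1 ++ [s])) s'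
            rw [List.length_cons] at h hsl
            obtain ⟨f2, hf3, hf4⟩ := relaxW Bs hBs p3
              (S ∪ vs (p1 ++ [s]) ∪ vs [s']) f1 (by omega)
            have hS : ∀ x ∈ S ∪ vs (p1 ++ [s]), f2 x = f1 x :=
              fun x hx => hf3 x (Finset.mem_union_left _ hx)
            have h11 : lets f2 (p1 ++ [s]) = lets f1 (p1 ++ [s]) :=
              lets_congr fun x hx => hS x (Finset.mem_union_right _ (mem_vs.mpr hx))
            refine ⟨f2, fun x hx => by rw [hS x (Finset.mem_union_left _ hx), hf1 x hx], ?_⟩
            rintro v hv ⟨τ, w2, hτ, rfl, hP⟩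
            have h12 : p1 ++ s :: s' :: p3 = (p1 ++ [s]) ++ (s' :: p3) := by simp
            rw [h12, lets_append, h11, lets_cons] at hv
            -- `w2` is short
            have hw2 : w2.length ≤ (lets f2 p3).length := by
              by_contra hcon
              push Not at hcon
              obtain ⟨u, hu⟩ := hv
              rw [← List.append_assoc] at hu
              have h13 : (u ++ subst τ B.2) <+: lets f1 (p1 ++ [s]) := by
                apply List.prefix_of_prefix_length_le
                  (l₃ := lets f1 (p1 ++ [s]) ++ Sum.elim f2 id s' :: lets f2 p3)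
                · rw [← hu]; exact List.prefix_append _ _
                · exact List.prefix_append _ _
                · have := congrArg List.length hu
                  simp only [List.length_append, List.length_cons] at this ⊢
                  omega
              exact hf2 τ hτ ((List.suffix_append u _).isInfix.trans h13.isInfix)
            refine hf4 (EmbW_suffix (ParW_EmbW _ hP) ?_)
            apply List.suffix_of_suffix_length_le
              (l₃ := lets f1 (p1 ++ [s]) ++ Sum.elim f2 id s' :: lets f2 p3)
            · exact (List.suffix_append _ w2).trans hv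
            · exact (List.suffix_cons _ _).trans (List.suffix_append _ _)
            · exact hw2
        · -- at most as many letters as symbols in the block
          obtain ⟨g, hg⟩ : ∃ g, B.2.length = p1.length + 1 + g := ⟨_, (Nat.add_sub_of_le hge).symm⟩
          have hp2 : p2 = p2.take g ++ p2.drop g := (List.take_append_drop g p2).symm
          have hgl : (p2.take g).length = g := by
            rw [List.length_take]
            omega
          have h6 := fr_append (S ∪ vs (p1 ++ [s])) (p2.take g) (p2.drop g)
          rw [← hp2] at h6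
          have h7 := fr_le (S ∪ vs (p1 ++ [s])) (p2.take g)
          have h8 : (p2.drop g).length + g = p2.length := by
            rw [List.length_drop]
            omega
          obtain ⟨f2, hf3, hf4⟩ := ih hBs (p2.drop g) (S ∪ vs (p1 ++ [s]) ∪ vs (p2.take g)) f0
            (by omega) (by omega)
          refine ⟨f2, fun x hx => hf3 x
            (Finset.mem_union_left _ (Finset.mem_union_left _ hx)), ?_⟩
          rintro v hv ⟨τ, w2, hτ, rfl, hP⟩
          refine hf4 w2 ?_ hP
          have h9 : p1 ++ s :: p2 = (p1 ++ [s] ++ p2.take g) ++ p2.drop g := by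
            rw [List.append_assoc, List.take_append_drop]
            simp
          rw [h9, lets_append] at hv
          apply List.suffix_of_suffix_length_le
            (l₃ := lets f2 (p1 ++ [s] ++ p2.take g) ++ lets f2 (p2.drop g))
          · exact (List.suffix_append _ w2).trans hv
          · exact List.suffix_append _ _
          · have h13 := hv.length_le
            have h14 := length_le hτ B.2
            rw [List.length_append, List.length_append, lets_length, lets_length,
              List.length_append, List.length_append, List.length_singleton, hgl] at h13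
            rw [lets_length]
            omega

lemma nvar_block (z : ℕ) (Q : List (ℕ ⊕ A)) : (vs Q).card ≤ ns z Q + 1 := by
  classical
  have h1 : vs Q ⊆ insert z ((Q.filterMap Sum.getLeft?).filter fun x => decide (x ≠ z)).toFinset := by
    intro x hx
    rw [Finset.mem_insert]
    by_cases h : x = z
    · exact Or.inl h
    · right
      rw [List.mem_toFinset, List.mem_filter]
      exact ⟨List.mem_toFinset.mp hx, by simpa using h⟩
  have h2 := (Finset.card_le_card h1).trans (Finset.card_insert_le _ _)
  have h3 := List.toFinset_card_le ((Q.filterMap Sum.getLeft?).filter fun x => decide (x ≠ z))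
  rw [← List.countP_eq_length_filter] at h3
  have h4 : ns z Q = (Q.filterMap Sum.getLeft?).countP fun x => decide (x ≠ z) := rfl
  omega

lemma nvar_word_le (Bs : List (ℕ × List (ℕ ⊕ A))) : nvar (word Bs) ≤ cost Bs := by
  induction Bs with
  | nil => simp [nvar, word]
  | cons B Bs ih =>
    have h1 : vs (word (B :: Bs)) = vs B.2 ∪ vs (word Bs) := by
      rw [word_cons, vs_append]
    have h2 : nvar (word (B :: Bs)) = (vs (word (B :: Bs))).card := rfl
    have h3 : nvar (word Bs) = (vs (word Bs)).card := rfl
    have h4 := Finset.card_union_le (vs B.2) (vs (word Bs))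
    have h5 := nvar_block B.1 B.2
    have h6 : cost (B :: Bs) = ns B.1 B.2 + 1 + cost Bs := rfl
    rw [h2, h1, h6]
    omega

/-- the law for a product of blocks with chosen variables -/
theorem law_word [Fintype A] [Nontrivial A] {p : List (ℕ ⊕ A)}
    {Bs : List (ℕ × List (ℕ ⊕ A))} (hB : ∀ B ∈ Bs, ns B.1 B.2 + 1 ≤ B.2.length)
    (h : Lang p ⊂ Lang (word Bs)) :
    2 * (word Bs).length + nvar p < 2 * p.length + cost Bs := by
  obtain ⟨a0, _, _⟩ := exists_pair_ne A
  have h1 := length_le_of_subset h.subset
  have h2 := nvar_word_le Bs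
  rcases Nat.lt_or_ge (word Bs).length p.length with h3 | h3
  · by_contra hcon
    push Not at hcon
    obtain ⟨f, _, hf⟩ := strictW Bs hB p ∅ (fun _ => a0) (by rw [fr_empty]; omega) h3
    obtain ⟨τ, hτ, hw⟩ := h.subset (lets_mem f p)
    refine hf _ List.suffix_rfl ?_
    rw [hw]
    exact ParW_subst hτ Bs
  · obtain ⟨h4, h5⟩ := same_length h.subset (le_antisymm h3 h1)
    have h6 : nvar p ≠ nvar (word Bs) := fun h' => h.ne (h5 h')
    omega

/-! ### patterns whose repeated variables are non-cross -/

/-- no repeated variable of `q` occurs between two occurrences of another variable -/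
def RNonCross (q : List (ℕ ⊕ A)) : Prop :=
  ∀ x y : ℕ, x ≠ y → [Sum.inl y, Sum.inl y].Sublist q →
    ¬ [Sum.inl x, Sum.inl y, Sum.inl x].Sublist q

lemma RNonCross.sublist {q q' : List (ℕ ⊕ A)} (h : RNonCross q) (hs : q'.Sublist q) :
    RNonCross q' := fun x y hxy hy h' => h x y hxy (hy.trans hs) (h'.trans hs)

lemma ns_mem {z : ℕ} {Q : List (ℕ ⊕ A)} (h : Sum.inl z ∈ Q) : ns z Q + 1 ≤ Q.length := by
  obtain ⟨Q1, Q2, rfl⟩ := List.append_of_mem h
  have h1 := ns_le z Q1
  have h2 := ns_le z Q2
  rw [ns_append, ns_self, List.length_append, List.length_cons]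
  omega

/-- the number of positions with a variable outside `T` -/
def po (T : Finset ℕ) (q : List (ℕ ⊕ A)) : ℕ :=
  (q.filterMap Sum.getLeft?).countP fun x => decide (x ∉ T)

lemma po_inr (T : Finset ℕ) (a : A) (q : List (ℕ ⊕ A)) : po T (Sum.inr a :: q) = po T q := by
  rw [po, List.filterMap_cons_none (by rfl)]; rfl

lemma po_in {T : Finset ℕ} {x : ℕ} (h : x ∈ T) (q : List (ℕ ⊕ A)) :
    po T (Sum.inl x :: q) = po T q := by
  rw [po, List.filterMap_cons_some (b := x) (by rfl), List.countP_cons_of_neg (by simpa using h)]
  rfl

lemma po_out {T : Finset ℕ} {x : ℕ} (h : x ∉ T) (q : List (ℕ ⊕ A)) :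
    po T (Sum.inl x :: q) = po T q + 1 := by
  rw [po, List.filterMap_cons_some (b := x) (by rfl), List.countP_cons_of_pos (by simpa using h)]
  rfl

lemma vs_inr (a : A) (q : List (ℕ ⊕ A)) : vs (Sum.inr a :: q) = vs q := vars_cons_inr a q

lemma vs_inl (x : ℕ) (q : List (ℕ ⊕ A)) : vs (Sum.inl x :: q) = insert x (vs q) :=
  vars_cons_inl x q

/-- without variables in `T` -/
lemma ns_po {T : Finset ℕ} {x : ℕ} (hx : x ∈ T) (q : List (ℕ ⊕ A)) (h : vs q ∩ T = ∅) :
    ns x q = po T q := by
  induction q with
  | nil => rfl
  | cons s q ih =>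
    cases s with
    | inr a =>
      rw [vs_inr] at h
      rw [ns_inr, po_inr, ih h]
    | inl y =>
      rw [vs_inl] at h
      have hy : y ∉ T := by
        intro hy
        have : y ∈ insert y (vs q) ∩ T := Finset.mem_inter.mpr ⟨Finset.mem_insert_self _ _, hy⟩
        rw [h] at this
        exact absurd this (Finset.notMem_empty _)
      have h' : vs q ∩ T = ∅ := by
        rw [← Finset.subset_empty, ← h]
        exact Finset.inter_subset_inter (Finset.subset_insert _ _) (Finset.Subset.refl _)
      have hyx : y ≠ x := by rintro rfl; exact hy hx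
      rw [ns_other hyx, po_out hy, ih h']

lemma blocksW (T : Finset ℕ) (q : List (ℕ ⊕ A)) :
    (∀ x ∈ T, ∀ y ∈ T, x ≠ y → ¬ [Sum.inl x, Sum.inl y, Sum.inl x].Sublist q) →
    (vs q ∩ T).Nonempty →
    ∃ Bs : List (ℕ × List (ℕ ⊕ A)), q = word Bs ∧
      (∀ B ∈ Bs, B.1 ∈ T ∧ Sum.inl B.1 ∈ B.2) ∧ cost Bs = (vs q ∩ T).card + po T q ∧
      ∀ x ∈ T, Sum.inl x ∈ q → ∀ B Bs', Bs = B :: Bs' → Sum.inl x ∈ B.2 → x = B.1 := by
  classical
  induction q with
  | nil => intro _ h; simp [vs] at h
  | cons s q ih =>
    intro hq hn
    have hq' : ∀ x ∈ T, ∀ y ∈ T, x ≠ y → ¬ [Sum.inl x, Sum.inl y, Sum.inl x].Sublist q :=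
      fun x hx y hy hxy h => hq x hx y hy hxy (h.trans (List.sublist_cons_self _ _))
    -- prepending a symbol to the first block
    have prep : ∀ (B : ℕ × List (ℕ ⊕ A)) (Bs : List (ℕ × List (ℕ ⊕ A))), q = word (B :: Bs) →
        s :: q = word ((B.1, s :: B.2) :: Bs) := by
      intro B Bs h
      rw [h, word_cons, word_cons]
      rfl
    cases s with
    | inr a =>
      rw [vs_inr] at hn ⊢
      rw [po_inr]
      obtain ⟨Bs, h1, h2, h3, h4⟩ := ih hq' hn
      cases Bs with
      | nil =>
        have : (vs q ∩ T).card = 0 := by
          have : cost ([] : List (ℕ × List (ℕ ⊕ A))) = 0 := rfl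
          omega
        exact absurd (Finset.card_eq_zero.mp this) hn.ne_empty
      | cons B Bs =>
        refine ⟨(B.1, Sum.inr a :: B.2) :: Bs, prep B Bs h1, ?_, ?_, ?_⟩
        · intro B' hB'
          rcases List.mem_cons.mp hB' with rfl | hB'
          · obtain ⟨h5, h6⟩ := h2 B (List.mem_cons_self)
            exact ⟨h5, List.mem_cons_of_mem _ h6⟩
          · exact h2 B' (List.mem_cons_of_mem _ hB')
        · have h5 : cost ((B.1, Sum.inr a :: B.2) :: Bs) = ns B.1 (Sum.inr a :: B.2) + 1 + cost Bs :=
            rfl
          rw [h5, ns_inr, ← h3]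
          rfl
        · intro x hx hxq B' Bs' hB' hxB
          obtain ⟨rfl, rfl⟩ := List.cons.inj hB'
          have h5 : Sum.inl x ∈ B.2 := by
            rcases List.mem_cons.mp hxB with h | h
            · exact absurd h (by simp)
            · exact h
          have h6 : Sum.inl x ∈ q := by
            rw [h1, word_cons]
            exact List.mem_append_left _ h5
          exact h4 x hx h6 B Bs rfl h5
    | inl x =>
      by_cases hxT : x ∈ T
      · rw [po_in hxT]
        by_cases hxq : x ∈ vs q
        · -- the variable occurs later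
          have hv : vs (Sum.inl x :: q) = vs q := by rw [vs_inl, Finset.insert_eq_of_mem hxq]
          rw [hv]
          have hn' : (vs q ∩ T).Nonempty := ⟨x, Finset.mem_inter.mpr ⟨hxq, hxT⟩⟩
          obtain ⟨Bs, h1, h2, h3, h4⟩ := ih hq' hn'
          cases Bs with
          | nil =>
            have : (vs q ∩ T).card = 0 := by
              have : cost ([] : List (ℕ × List (ℕ ⊕ A))) = 0 := rfl
              omega
            exact absurd (Finset.card_eq_zero.mp this) hn'.ne_empty
          | cons B Bs =>
            obtain ⟨hB1, hB2⟩ := h2 B (List.mem_cons_self)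
            have hxB : x = B.1 := by
              by_contra hne
              have hxq2 : Sum.inl x ∈ q := mem_vs.mp hxq
              rw [h1, word_cons, List.mem_append] at hxq2
              rcases hxq2 with h5 | h5
              · exact hne (h4 x hxT (mem_vs.mp hxq) B Bs rfl h5)
              · refine hq x hxT B.1 hB1 hne ?_
                rw [h1, word_cons]
                refine List.cons_sublist_cons.mpr ?_
                exact List.Sublist.append (List.singleton_sublist.mpr hB2)
                  (List.singleton_sublist.mpr h5)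
            subst hxB
            refine ⟨(B.1, Sum.inl B.1 :: B.2) :: Bs, prep B Bs h1, ?_, ?_, ?_⟩
            · intro B' hB'
              rcases List.mem_cons.mp hB' with rfl | hB'
              · exact ⟨hB1, List.mem_cons_self⟩
              · exact h2 B' (List.mem_cons_of_mem _ hB')
            · have h5 : cost ((B.1, Sum.inl B.1 :: B.2) :: Bs) =
                  ns B.1 (Sum.inl B.1 :: B.2) + 1 + cost Bs := rfl
              rw [h5, ns_self, ← h3]
              rfl
            · intro y hy _ B' Bs' hB' hyB
              obtain ⟨rfl, rfl⟩ := List.cons.inj hB'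
              rcases List.mem_cons.mp hyB with h | h
              · exact Sum.inl.inj h
              · have h6 : Sum.inl y ∈ q := by
                  rw [h1, word_cons]
                  exact List.mem_append_left _ h
                exact h4 y hy h6 B Bs rfl h
        · -- the last occurrence of the variable
          have hcard : (vs (Sum.inl x :: q) ∩ T).card = (vs q ∩ T).card + 1 := by
            rw [vs_inl, Finset.insert_inter_of_mem hxT, Finset.card_insert_of_notMem]
            intro h
            exact hxq (Finset.mem_inter.mp h).1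
          rw [hcard]
          rcases Finset.eq_empty_or_nonempty (vs q ∩ T) with h0 | h0
          · refine ⟨[(x, Sum.inl x :: q)], by simp [word], ?_, ?_, ?_⟩
            · intro B hB
              rw [List.mem_singleton] at hB
              subst hB
              exact ⟨hxT, List.mem_cons_self⟩
            · have h5 : cost [(x, (Sum.inl x :: q : List (ℕ ⊕ A)))] =
                ns x (Sum.inl x :: q) + 1 + 0 := rfl
              rw [h5, ns_self, ns_po hxT q h0, h0, Finset.card_empty]
              omega
            · intro y hy _ B Bs' hB hyB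
              obtain ⟨rfl, rfl⟩ := List.cons.inj hB
              rcases List.mem_cons.mp hyB with h | h
              · exact Sum.inl.inj h
              · exfalso
                have : y ∈ vs q ∩ T := Finset.mem_inter.mpr ⟨mem_vs.mpr h, hy⟩
                rw [h0] at this
                exact absurd this (Finset.notMem_empty _)
          · obtain ⟨Bs, h1, h2, h3, h4⟩ := ih hq' h0
            refine ⟨(x, [Sum.inl x]) :: Bs, by rw [word_cons, ← h1]; rfl, ?_, ?_, ?_⟩
            · intro B hB
              rcases List.mem_cons.mp hB with rfl | hB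
              · exact ⟨hxT, List.mem_cons_self⟩
              · exact h2 B hB
            · have h5 : cost ((x, ([Sum.inl x] : List (ℕ ⊕ A))) :: Bs) =
                ns x [Sum.inl x] + 1 + cost Bs := rfl
              rw [h5, ns_self, ns_nil, h3]
              omega
            · intro y hy _ B Bs' hB hyB
              obtain ⟨rfl, rfl⟩ := List.cons.inj hB
              exact Sum.inl.inj (List.mem_singleton.mp hyB)
      · -- a variable outside `T`
        have hv : vs (Sum.inl x :: q) ∩ T = vs q ∩ T := by
          rw [vs_inl, Finset.insert_inter_of_notMem hxT]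
        rw [hv] at hn ⊢
        rw [po_out hxT]
        obtain ⟨Bs, h1, h2, h3, h4⟩ := ih hq' hn
        cases Bs with
        | nil =>
          have : (vs q ∩ T).card = 0 := by
            have : cost ([] : List (ℕ × List (ℕ ⊕ A))) = 0 := rfl
            omega
          exact absurd (Finset.card_eq_zero.mp this) hn.ne_empty
        | cons B Bs =>
          obtain ⟨hB1, hB2⟩ := h2 B (List.mem_cons_self)
          have hxB : x ≠ B.1 := by rintro rfl; exact hxT hB1
          refine ⟨(B.1, Sum.inl x :: B.2) :: Bs, prep B Bs h1, ?_, ?_, ?_⟩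
          · intro B' hB'
            rcases List.mem_cons.mp hB' with rfl | hB'
            · exact ⟨hB1, List.mem_cons_of_mem _ hB2⟩
            · exact h2 B' (List.mem_cons_of_mem _ hB')
          · have h5 : cost ((B.1, Sum.inl x :: B.2) :: Bs) =
              ns B.1 (Sum.inl x :: B.2) + 1 + cost Bs := rfl
            have h6 : cost (B :: Bs) = ns B.1 B.2 + 1 + cost Bs := rfl
            rw [h5, ns_other hxB]
            omega
          · intro y hy _ B' Bs' hB' hyB
            obtain ⟨rfl, rfl⟩ := List.cons.inj hB'
            rcases List.mem_cons.mp hyB with h | h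
            · exact absurd hy (by rw [Sum.inl.inj h]; exact hxT)
            · have h6 : Sum.inl y ∈ q := by
                rw [h1, word_cons]
                exact List.mem_append_left _ h
              exact h4 y hy h6 B Bs rfl h

lemma lift_sub (q : List (ℕ ⊕ A)) : ((q.filterMap Sum.getLeft?).map Sum.inl).Sublist q := by
  induction q with
  | nil => simp
  | cons s q ih =>
    cases s with
    | inr a =>
      rw [List.filterMap_cons_none (by rfl)]
      exact ih.trans (List.sublist_cons_self _ _)
    | inl x =>
      rw [List.filterMap_cons_some (b := x) (by rfl), List.map_cons]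
      exact List.cons_sublist_cons.mpr ih

/-- a pattern whose repeated variables are non-cross is a product of blocks of the right cost -/
lemma blocks_R {q : List (ℕ ⊕ A)} (hq : RNonCross q) (hn : 1 ≤ nvar q) :
    ∃ Bs : List (ℕ × List (ℕ ⊕ A)), q = word Bs ∧ (∀ B ∈ Bs, ns B.1 B.2 + 1 ≤ B.2.length) ∧
      cost Bs = nvar q := by
  classical
  set T : Finset ℕ := (vs q).filter fun y => [Sum.inl y, Sum.inl y].Sublist q with hT
  set L := q.filterMap Sum.getLeft? with hL
  -- the variables outside `T` occur once
  have hnd : (L.filter fun x => decide (x ∉ T)).Nodup := by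
    rw [List.nodup_iff_sublist]
    intro y hy
    have h1 : y ∈ L.filter fun x => decide (x ∉ T) := hy.subset (List.mem_cons_self)
    obtain ⟨h2, h3⟩ := List.mem_filter.mp h1
    have h4 : y ∉ T := by simpa using h3
    apply h4
    rw [hT, Finset.mem_filter]
    refine ⟨List.mem_toFinset.mpr h2, ?_⟩
    have h5 : [y, y].Sublist L := hy.trans List.filter_sublist
    have h6 := (h5.map (Sum.inl : ℕ → ℕ ⊕ A)).trans (lift_sub q)
    exact h6
  have hcount : po T q = (vs q \ T).card := by
    have h1 : po T q = (L.filter fun x => decide (x ∉ T)).length := by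
      rw [po, List.countP_eq_length_filter]
    rw [h1, ← List.toFinset_card_of_nodup hnd]
    congr 1
    ext y
    rw [List.mem_toFinset, List.mem_filter, Finset.mem_sdiff]
    have : y ∈ vs q ↔ y ∈ L := List.mem_toFinset
    rw [this]
    simp
  have hsum : (vs q ∩ T).card + (vs q \ T).card = nvar q := by
    have := Finset.card_inter_add_card_sdiff (vs q) T
    rw [this]; rfl
  rcases Finset.eq_empty_or_nonempty (vs q ∩ T) with h0 | h0
  · -- every variable occurs once
    obtain ⟨x, hx⟩ := Finset.card_pos.mp (show 0 < (vs q).card from hn)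
    refine ⟨[(x, q)], by simp [word], ?_, ?_⟩
    · intro B hB
      rw [List.mem_singleton] at hB
      subst hB
      exact ns_mem (mem_vs.mp hx)
    · have h5 : cost [(x, q)] = ns x q + 1 + 0 := rfl
      have hall : ∀ y ∈ L, y ∉ T := by
        intro y hy hyT
        have : y ∈ vs q ∩ T := Finset.mem_inter.mpr ⟨List.mem_toFinset.mpr hy, hyT⟩
        rw [h0] at this
        exact absurd this (Finset.notMem_empty _)
      have hf : (L.filter fun x => decide (x ∉ T)) = L := by
        rw [List.filter_eq_self]
        intro y hy
        simpa using hall y hy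
      rw [hf] at hnd
      have hxL : x ∈ L := List.mem_toFinset.mp hx
      have h6 : L.count x = 1 := List.count_eq_one_of_mem hnd hxL
      have h7 : ns x q = L.countP fun y => decide (y ≠ x) := rfl
      have h8 : L.countP (fun y => decide (y ≠ x)) + L.count x = L.length := by
        have := List.length_eq_countP_add_countP (fun y => decide (y ≠ x)) (l := L)
        rw [this]
        congr 1
        rw [List.count]
        apply List.countP_congr
        intro y _
        simp
      have h9 : nvar q = L.length := by
        rw [← List.toFinset_card_of_nodup hnd]; rfl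
      omega
  · obtain ⟨Bs, h1, h2, h3, _⟩ := blocksW T q (fun x hx y hy hxy => by
      rw [hT, Finset.mem_filter] at hy
      exact hq x y hxy hy.2) h0
    refine ⟨Bs, h1, fun B hB => ns_mem (h2 B hB).2, ?_⟩
    rw [h3, hcount, hsum]

/-- the law when the repeated variables of the upper pattern are non-cross -/
theorem law_R [Fintype A] [Nontrivial A] {p q : List (ℕ ⊕ A)} (hq : RNonCross q)
    (h : Lang p ⊂ Lang q) : 2 * q.length + nvar p < 2 * p.length + nvar q := by
  rcases Nat.eq_zero_or_pos (nvar q) with h0 | h0
  · refine law_nonCross (fun x y _ hs => ?_) h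
    have h1 : vs q = ∅ := Finset.card_eq_zero.mp h0
    have h2 : x ∈ vs q := mem_vs.mpr (hs.subset (List.mem_cons_self))
    rw [h1] at h2
    exact absurd h2 (Finset.notMem_empty _)
  · obtain ⟨Bs, h1, h2, h3⟩ := blocks_R hq h0
    have h4 := h
    rw [h1] at h4
    have h5 := law_word h2 h4
    rw [← h1, h3] at h5
    exact h5

end Pool.Agent.H54.PD
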