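import Mathlib
import Pool.Agent.H54.PD.LawW

/-!
# MP_7f399b_lc: the chain of patterns whose repeated variables are non-cross
-/

namespace Pool.Agent.H54.PD

open Pool.Agent.PatDepth Pool.Agent.H344R3.PD

variable {A : Type}

/-- There are non-empty patterns `c 0, ..., c n` with
`L(x₁) = L(c 0) ⊋ L(c 1) ⊋ ... ⊋ L(c n) = L(p)`, in all of which, except possibly the last one, no
repeated variable occurs between two occurrences of another variable. -/
def HasRChain {A : Type} (p : List (ℕ ⊕ A)) (n : ℕ) : Prop :=
  ∃ c : ℕ → List (ℕ ⊕ A), (∀ i ≤ n, c i ≠ []) ∧ (∀ i < n, RNonCross (c i)) ∧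
    Lang (c 0) = Lang [Sum.inl 1] ∧ Lang (c n) = Lang p ∧
    ∀ i < n, Lang (c (i + 1)) ⊂ Lang (c i)

/-- a chain all of whose members have the property -/
def FullR (p : List (ℕ ⊕ A)) (n : ℕ) : Prop :=
  ∃ c : ℕ → List (ℕ ⊕ A), (∀ i ≤ n, c i ≠ []) ∧ (∀ i ≤ n, RNonCross (c i)) ∧
    Lang (c 0) = Lang [Sum.inl 1] ∧ Lang (c n) = Lang p ∧
    ∀ i < n, Lang (c (i + 1)) ⊂ Lang (c i)

lemma fullR_congr {p p' : List (ℕ ⊕ A)} {n : ℕ} (h : FullR p n) (he : Lang p = Lang p') :
    FullR p' n := by
  obtain ⟨c, h0, hn, h1, h2, h3⟩ := h
  exact ⟨c, h0, hn, h1, h2.trans he, h3⟩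

lemma fullR_ext {p p' : List (ℕ ⊕ A)} {n : ℕ} (h : FullR p n)
    (hp' : p' ≠ []) (hn : RNonCross p') (hs : Lang p' ⊂ Lang p) : FullR p' (n + 1) := by
  obtain ⟨c, h0, hnc, h1, h2, h3⟩ := h
  refine ⟨fun i => if i ≤ n then c i else p', fun i _ => ?_, fun i _ => ?_, ?_, ?_,
    fun i hi => ?_⟩
  · by_cases hin : i ≤ n
    · simp only [hin, if_true]; exact h0 i hin
    · simp only [hin, if_false]; exact hp'
  · by_cases hin : i ≤ n
    · simp only [hin, if_true]; exact hnc i hin
    · simp only [hin, if_false]; exact hn
  · simp only [Nat.zero_le, if_true]; exact h1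
  · have : ¬ n + 1 ≤ n := by omega
    simp only [this, if_false]
  · rcases Nat.lt_or_ge i n with hin | hin
    · have h4 : i + 1 ≤ n := hin
      have h5 : i ≤ n := hin.le
      simp only [h4, h5, if_true]
      exact h3 i hin
    · have h6 : i = n := by omega
      subst h6
      have h7 : ¬ i + 1 ≤ i := by omega
      simp only [h7, if_false, le_refl, if_true]
      rw [h2]; exact hs

lemma fresh_nodup (M k : ℕ) : (fresh A M k).Nodup := by
  rw [fresh]
  exact (List.nodup_range' ).map Sum.inl_injective

lemma rNonCross_fresh {p : List (ℕ ⊕ A)} {M : ℕ} (hp : RNonCross p)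
    (hM : ∀ x, Sum.inl x ∈ p → x < M) (k : ℕ) : RNonCross (p ++ fresh A M k) := by
  intro x y hxy hy h
  have hnd := fresh_nodup (A := A) M k
  -- the other variable is repeated in `p`
  obtain ⟨l1, l2, h1, h2, h3⟩ := List.sublist_append_iff.mp h
  have key : [Sum.inl x, Sum.inl y, Sum.inl x].Sublist p := by
    cases l1 with
    | nil =>
      rw [List.nil_append] at h1
      rw [← h1] at h3
      have := hnd.sublist h3
      simp at this
    | cons a l1 =>
      obtain ⟨rfl, h4⟩ := List.cons.inj h1
      have hxp : Sum.inl x ∈ p := h2.subset (List.mem_cons_self)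
      cases l1 with
      | nil =>
        have h4' : l2 = [Sum.inl y, Sum.inl x] := h4.symm
        rw [h4'] at h3
        have : Sum.inl x ∈ fresh A M k := h3.subset (by simp)
        rw [mem_fresh] at this
        have := hM x hxp
        omega
      | cons b l1 =>
        obtain ⟨rfl, h5⟩ := List.cons.inj h4
        cases l1 with
        | nil =>
          have h5' : l2 = [Sum.inl x] := h5.symm
          rw [h5'] at h3
          have : Sum.inl x ∈ fresh A M k := h3.subset (by simp)
          rw [mem_fresh] at this
          have := hM x hxp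
          omega
        | cons c l1 =>
          obtain ⟨rfl, h6⟩ := List.cons.inj h5
          obtain ⟨h7, h8⟩ := List.append_eq_nil_iff.mp h6.symm
          subst h7
          exact h2
  have hyp : Sum.inl y ∈ p := key.subset (by simp)
  obtain ⟨m1, m2, h4, h5, h6⟩ := List.sublist_append_iff.mp hy
  cases m1 with
  | nil =>
    rw [List.nil_append] at h4
    rw [← h4] at h6
    have := hnd.sublist h6
    simp at this
  | cons a m1 =>
    obtain ⟨rfl, h7⟩ := List.cons.inj h4
    cases m1 with
    | nil =>
      have h7' : m2 = [Sum.inl y] := h7.symm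
      rw [h7'] at h6
      have : Sum.inl y ∈ fresh A M k := h6.subset (by simp)
      rw [mem_fresh] at this
      have := hM y hyp
      omega
    | cons b m1 =>
      obtain ⟨rfl, h8⟩ := List.cons.inj h7
      obtain ⟨h9, h10⟩ := List.append_eq_nil_iff.mp h8.symm
      subst h9
      exact hp x y hxy h5 key

lemma fullR_fresh [Nontrivial A] (M k : ℕ) : FullR (fresh A M (k + 1)) k := by
  have hnc : ∀ k, RNonCross (fresh A M k) := by
    intro k
    have := rNonCross_fresh (A := A) (p := []) (M := M) (fun x y _ _ h => by simp at h)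
      (fun x hx => by simp at hx) k
    rwa [List.nil_append] at this
  induction k with
  | zero =>
    refine ⟨fun _ => fresh A M 1, fun i _ => ?_, fun i _ => hnc 1, ?_, rfl,
      fun i hi => absurd hi (Nat.not_lt_zero _)⟩
    · show fresh A M (0 + 1) ≠ []
      rw [fresh_succ]
      exact List.cons_ne_nil _ _
    · show Lang (fresh A M (0 + 1)) = _
      rw [fresh_succ]
      exact lang_singleton M 1
  | succ k ih =>
    refine fullR_ext ih ?_ (hnc _) ?_
    · rw [fresh_succ]; exact List.cons_ne_nil _ _
    · refine (fresh_subset M k).ssubset_of_ne fun h => ?_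
      have := (lang_eq_invariant h).1
      rw [length_fresh, length_fresh] at this
      omega

/-- the invariant -/
theorem fullR_mix [Nontrivial A] (p : List (ℕ ⊕ A)) : RNonCross p → ∀ k : ℕ, 1 ≤ p.length + k →
    ∃ N, ∀ M ≥ N, FullR (p ++ fresh A M k)
      (2 * (p.length + k) - nvar (p ++ fresh A M k) - 1) := by
  classical
  induction p using List.reverseRecOn with
  | nil =>
    intro _ k hk
    refine ⟨0, fun M _ => ?_⟩
    obtain ⟨k, rfl⟩ : ∃ k', k = k' + 1 := ⟨k - 1, by simp at hk; omega⟩
    rw [List.nil_append, nvar_fresh]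
    have h1 : 2 * (([] : List (ℕ ⊕ A)).length + (k + 1)) - (k + 1) - 1 = k := by
      simp only [List.length_nil]; omega
    rw [h1]
    exact fullR_fresh M k
  | append_singleton p s ih =>
    intro hnc k _
    obtain ⟨N, hN⟩ := ih (hnc.sublist (List.sublist_append_left _ _)) (k + 1) (by omega)
    -- a bound for the variables of `p ++ [s]`
    obtain ⟨N1, hN1⟩ : ∃ N1, ∀ x, Sum.inl x ∈ p ++ [s] → x < N1 := by
      refine ⟨(((p ++ [s]).filterMap Sum.getLeft?).toFinset.sup id) + 1, fun x hx => ?_⟩
      have : x ≤ ((p ++ [s]).filterMap Sum.getLeft?).toFinset.sup id :=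
        Finset.le_sup (f := id) (mem_vars.mpr hx)
      omega
    refine ⟨max N N1 + 1, fun M hM => ?_⟩
    obtain ⟨M, rfl⟩ : ∃ M', M = M' + 1 := ⟨M - 1, by omega⟩
    have hchain := hN M (by omega)
    have hnc' : RNonCross (p ++ [s] ++ fresh A (M + 1) k) :=
      rNonCross_fresh hnc (fun x hx => by have := hN1 x hx; omega) k
    set q := p ++ fresh A M (k + 1) with hq
    set q' := p ++ [s] ++ fresh A (M + 1) k with hq'
    have hqe : q = p ++ Sum.inl M :: fresh A (M + 1) k := by rw [hq, fresh_succ]
    have hmap : q' = q.map (Sum.elim (Function.update Sum.inl M s) Sum.inr) := by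
      rw [hqe, hq', List.map_append, List.map_cons, Sum.elim_inl, Function.update_self,
        List.append_assoc, List.singleton_append]
      have hid : ∀ l : List (ℕ ⊕ A), Sum.inl M ∉ l →
          l.map (Sum.elim (Function.update Sum.inl M s) Sum.inr) = l := by
        intro l hl
        conv_rhs => rw [← List.map_id l]
        apply List.map_congr_left
        intro t ht
        cases t with
        | inr a => rfl
        | inl x =>
          have : x ≠ M := by rintro rfl; exact hl ht
          rw [Sum.elim_inl, Function.update_of_ne this]; rfl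
      rw [hid p fun h => ?_, hid _ fun h => ?_]
      · rw [mem_fresh] at h; omega
      · have := hN1 M (List.mem_append_left _ h); omega
    have hsub : Lang q' ⊆ Lang q := by rw [hmap]; exact lang_map_subset _ _
    have hlen : q'.length = q.length := by rw [hmap, List.length_map]
    have hlen' : q.length = p.length + (k + 1) := by
      rw [hq, List.length_append, length_fresh]
    obtain ⟨h1, h2⟩ := same_length hsub hlen
    have h3 : nvar q ≤ nvar q' + 1 := by
      have hss : (q.filterMap Sum.getLeft?).toFinset ⊆
          insert M (q'.filterMap Sum.getLeft?).toFinset := by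
        intro x hx
        rw [mem_vars, hqe, List.mem_append, List.mem_cons] at hx
        rw [Finset.mem_insert, mem_vars, hq']
        rcases hx with hx | hx | hx
        · right; simp [hx]
        · left; exact Sum.inl.inj hx
        · right; simp [hx]
      exact (Finset.card_le_card hss).trans (Finset.card_insert_le _ _)
    have h4 := nvar_le_length q
    have hL : (p ++ [s]).length + k = p.length + (k + 1) := by
      rw [List.length_append, List.length_singleton]; omega
    rw [hL]
    by_cases he : nvar q' = nvar q
    · rw [he]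
      exact fullR_congr hchain (h2 he).symm
    · have h5 : nvar q = nvar q' + 1 := by omega
      have h6 : 2 * (p.length + (k + 1)) - nvar q' - 1 =
          (2 * (p.length + (k + 1)) - nvar q - 1) + 1 := by omega
      rw [h6]
      refine fullR_ext hchain ?_ hnc' (hsub.ssubset_of_ne fun h => he ?_)
      · intro h
        have := congrArg List.length h
        rw [hlen, hlen'] at this
        simp at this
      · exact (lang_eq_invariant h).2

/-- the upper bound for these chains -/
theorem r_upper [Fintype A] [Nontrivial A] {p : List (ℕ ⊕ A)} {n : ℕ} (h : HasRChain p n) :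
    n + 1 + nvar p ≤ 2 * p.length := by
  obtain ⟨c, _, hnc, hc0, hcn, hstep⟩ := h
  have key : ∀ i ≤ n, i + 1 + nvar (c i) ≤ 2 * (c i).length := by
    intro i
    induction i with
    | zero =>
      intro _
      obtain ⟨h1, h2⟩ := lang_eq_invariant hc0
      have h3 : nvar ([Sum.inl 1] : List (ℕ ⊕ A)) = 1 := by simp [nvar]
      rw [h1, h2, h3]
      simp
    | succ i ih =>
      intro hi
      have h3 := law_R (hnc i (by omega)) (hstep i (by omega))
      have h4 := ih (by omega)
      omega
  obtain ⟨h1, h2⟩ := lang_eq_invariant hcn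
  have := key n le_rfl
  omega

/-- the exact length of the longest chain -/
theorem r_depth [Fintype A] [Nontrivial A] {p : List (ℕ ⊕ A)} (hp : p ≠ [])
    (hnc : RNonCross p) : IsGreatest {n | HasRChain p n} (2 * p.length - nvar p - 1) := by
  constructor
  · have hpos : 1 ≤ p.length := List.length_pos_iff.mpr hp
    obtain ⟨N, hN⟩ := fullR_mix p hnc 0 (by omega)
    have h := hN N le_rfl
    have h0 : p ++ fresh A N 0 = p := by simp [fresh]
    rw [h0, Nat.add_zero] at h
    obtain ⟨c, h1, h2, h3, h4, h5⟩ := h
    exact ⟨c, h1, fun i hi => h2 i hi.le, h3, h4, h5⟩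
  · intro n hn
    have := r_upper (show HasRChain p n from hn)
    omega

end Pool.Agent.H54.PD
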