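import Mathlib
import Pool.Graph.R_seed8.H344R3.PD.Law

/-!
# MP_7f399b_lc: a finer count of the words of a given length in a pattern language
-/

namespace Pool.Agent.H54.PD

open Pool.Agent.PatDepth Pool.Agent.H344R3.PD Finset

variable {A : Type}

/-- the variables that occur exactly once -/
def sgl (q : List (ℕ ⊕ A)) : Finset ℕ := (vars q).filter fun x => occ x q = 1

/-- the variables that occur at least twice -/
def rpt (q : List (ℕ ⊕ A)) : Finset ℕ := (vars q).filter fun x => ¬ occ x q = 1

lemma sum_split (q : List (ℕ ⊕ A)) (g : ℕ → ℕ) :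
    ∑ x ∈ vars q, g x = ∑ x ∈ sgl q, g x + ∑ x : rpt q, g x := by
  rw [sgl, ← Finset.sum_filter_add_sum_filter_not (vars q) (fun x => occ x q = 1) g]
  congr 1
  exact (Finset.sum_coe_sort (rpt q) g).symm

/-- the weighted sum of the lengths -/
def wt (q : List (ℕ ⊕ A)) (e : rpt q → ℕ) : ℕ := ∑ x : rpt q, occ (x : ℕ) q * e x

/-- the finer counting inequality -/
theorem count_fine [Fintype A] [Nonempty A] {p q : List (ℕ ⊕ A)} {k : ℕ} (h : Lang p ⊆ Lang q)
    (hk : p.length = q.length + k) :
    Fintype.card A ^ nvar p ≤
      ∑ e ∈ (Fintype.piFinset fun _ : rpt q => range (k + 1)).filter (fun e => wt q e ≤ k),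
        ((sgl q).card + (k - wt q e) - 1).choose (k - wt q e) *
          Fintype.card A ^ (nvar q + (k - wt q e) + ∑ x, e x) := by
  classical
  obtain ⟨a0⟩ := ‹Nonempty A›
  -- the words
  let ext : (vars p → A) → ℕ → A := fun f x => if hx : x ∈ vars p then f ⟨x, hx⟩ else a0
  have hmem : ∀ f : vars p → A, ∃ τ : ℕ → List A, (∀ x, τ x ≠ []) ∧
      lets (ext f) p = subst τ q := fun f => h (lets_mem (ext f) p)
  choose τ hτ hw using hmem
  have hlen : ∀ f, ∑ x ∈ vars q, occ x q * ((τ f x).length - 1) = k := by
    intro f
    have h1 := congrArg List.length (hw f)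
    rw [lets_length, length_subst (hτ f) (vars q) q subset_rfl] at h1
    omega
  -- the lengths on the repeated variables
  let eR : (vars p → A) → (rpt q → ℕ) := fun f x => (τ f x).length - 1
  have hsplit : ∀ f, ∑ x ∈ sgl q, ((τ f x).length - 1) + wt q (eR f) = k := by
    intro f
    have h1 := hlen f
    rw [sum_split] at h1
    have h2 : ∑ x ∈ sgl q, occ x q * ((τ f x).length - 1) =
        ∑ x ∈ sgl q, ((τ f x).length - 1) := by
      apply Finset.sum_congr rfl
      intro x hx
      rw [(Finset.mem_filter.mp hx).2, one_mul]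
    rw [h2] at h1
    exact h1
  have hbox : ∀ f ∈ (Finset.univ : Finset (vars p → A)), eR f ∈
      (Fintype.piFinset fun _ : rpt q => range (k + 1)).filter (fun e => wt q e ≤ k) := by
    intro f _
    have h1 := hsplit f
    rw [Finset.mem_filter, Fintype.mem_piFinset]
    refine ⟨fun x => ?_, by omega⟩
    rw [Finset.mem_range]
    have h2 : occ (x : ℕ) q * eR f x ≤ wt q (eR f) :=
      Finset.single_le_sum (f := fun x : rpt q => occ (x : ℕ) q * eR f x)
        (fun _ _ => Nat.zero_le _) (Finset.mem_univ x)
    have h3 := occ_pos (Finset.mem_filter.mp x.2).1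
    have h4 : eR f x ≤ occ (x : ℕ) q * eR f x := Nat.le_mul_of_pos_left _ h3
    omega
  let flat : (vars p → A) → List A := fun f => (vars q).toList.flatMap (τ f)
  have hflat : ∀ f, (flat f).length = nvar q + (k - wt q (eR f)) + ∑ x, eR f x := by
    intro f
    have h1 : (flat f).length = ∑ x ∈ vars q, (τ f x).length := by
      show ((vars q).toList.flatMap (τ f)).length = _
      rw [length_flat]
      exact Finset.sum_map_toList (vars q) _
    have h2 : ∑ x ∈ vars q, (τ f x).length = ∑ x ∈ vars q, (1 + ((τ f x).length - 1)) := by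
      apply Finset.sum_congr rfl
      intro x _
      have h4 := List.length_pos_iff.mpr (hτ f x)
      omega
    have h3 : ∑ x ∈ vars q, ((τ f x).length - 1) =
        ∑ x ∈ sgl q, ((τ f x).length - 1) + ∑ x, eR f x := sum_split q _
    rw [h1, h2, Finset.sum_add_distrib, Finset.sum_const, smul_eq_mul, mul_one, card_vars, h3]
    have := hsplit f
    omega
  have hcount := Finset.card_eq_sum_card_fiberwise hbox
  rw [Finset.card_univ, Fintype.card_fun, Fintype.card_coe, card_vars] at hcount
  rw [hcount]
  apply Finset.sum_le_sum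
  intro e _
  set j := k - wt q e with hj
  let L := nvar q + j + ∑ x, e x
  let pad : (vars p → A) → List.Vector A L := fun f =>
    if hf : (flat f).length = L then ⟨flat f, hf⟩ else List.Vector.replicate L a0
  have hsup : ∀ (f : vars p → A) (x : ℕ),
      (if x ∈ sgl q then (τ f x).length - 1 else 0) ≠ 0 → x ∈ sgl q := by
    intro f x hx
    by_contra hcon
    exact hx (if_neg hcon)
  let eS : (vars p → A) → (ℕ →₀ ℕ) := fun f =>
    Finsupp.onFinset (sgl q) (fun x => if x ∈ sgl q then (τ f x).length - 1 else 0) (hsup f)
  have hcard : (Finset.univ.filter fun f => eR f = e).card ≤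
      (((sgl q).finsuppAntidiag j) ×ˢ (Finset.univ : Finset (List.Vector A L))).card := by
    apply Finset.card_le_card_of_injOn (fun f => (eS f, pad f))
    · intro f hf
      have hfe : eR f = e := (Finset.mem_filter.mp hf).2
      rw [Finset.mem_coe, Finset.mem_product]
      refine ⟨?_, Finset.mem_univ _⟩
      rw [Finset.mem_finsuppAntidiag]
      refine ⟨?_, Finsupp.support_onFinset_subset (hf := hsup f)⟩
      show ∑ x ∈ sgl q, (if x ∈ sgl q then (τ f x).length - 1 else 0) = j
      have h1 := hsplit f
      rw [hfe] at h1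
      have h2 : ∑ x ∈ sgl q, (if x ∈ sgl q then (τ f x).length - 1 else 0) =
          ∑ x ∈ sgl q, ((τ f x).length - 1) :=
        Finset.sum_congr rfl fun x hx => if_pos hx
      rw [h2]
      omega
    · intro f hf f' hf' hff
      have hfe : eR f = e := (Finset.mem_filter.mp hf).2
      have hfe' : eR f' = e := (Finset.mem_filter.mp hf').2
      have h1 : eS f = eS f' := (Prod.ext_iff.mp hff).1
      have h2 : pad f = pad f' := (Prod.ext_iff.mp hff).2
      have hL : (flat f).length = L := by rw [hflat f, hfe]
      have hL' : (flat f').length = L := by rw [hflat f', hfe']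
      have h2' : flat f = flat f' := by
        have h5 : pad f = ⟨flat f, hL⟩ := dif_pos hL
        have h6 : pad f' = ⟨flat f', hL'⟩ := dif_pos hL'
        rw [h5, h6] at h2
        exact congrArg Subtype.val h2
      have h3 : ∀ x ∈ vars q, (τ f x).length = (τ f' x).length := by
        intro x hx
        have h6 := List.length_pos_iff.mpr (hτ f x)
        have h7 := List.length_pos_iff.mpr (hτ f' x)
        by_cases hxs : occ x q = 1
        · have hxS : x ∈ sgl q := Finset.mem_filter.mpr ⟨hx, hxs⟩
          have h4 : (if x ∈ sgl q then (τ f x).length - 1 else 0) =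
              (if x ∈ sgl q then (τ f' x).length - 1 else 0) := DFunLike.congr_fun h1 x
          rw [if_pos hxS, if_pos hxS] at h4
          omega
        · have hxR : x ∈ rpt q := Finset.mem_filter.mpr ⟨hx, hxs⟩
          have h4 : eR f ⟨x, hxR⟩ = eR f' ⟨x, hxR⟩ := by rw [hfe, hfe']
          have h5 : (τ f x).length - 1 = (τ f' x).length - 1 := h4
          omega
      have h8 : ∀ x ∈ vars q, τ f x = τ f' x := by
        intro x hx
        refine flat_inj (vars q).toList [] [] (fun z hz => h3 z (Finset.mem_toList.mp hz))
          ?_ x (Finset.mem_toList.mpr hx)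
        rw [List.append_nil, List.append_nil]
        exact h2'
      have h9 : lets (ext f) p = lets (ext f') p := by
        rw [hw, hw]
        exact subst_congr fun x hx => h8 x (mem_vars'.mpr hx)
      funext ⟨x, hx⟩
      have h10 : ∀ g : vars p → A, Sum.elim (ext g) id (Sum.inl x : ℕ ⊕ A) = g ⟨x, hx⟩ := by
        intro g
        show ext g x = _
        simp only [ext, hx, dif_pos]
      have h11 := List.map_inj_left.mp h9 _ (mem_vars'.mp hx)
      rw [h10, h10] at h11
      exact h11
  rw [Finset.card_product, Finset.card_univ, card_vector,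
    Finset.card_finsuppAntidiag_nat_eq_choose] at hcard
  exact hcard

end Pool.Agent.H54.PD
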