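import Mathlib
import Pool.Agent.H54.PD.Fine
import Pool.Agent.H54.PD.LawW

/-!
# MP_7f399b_lc: the inclusion law for patterns with few single-occurrence variables
-/

namespace Pool.Agent.H54.PD

open Pool.Agent.PatDepth Pool.Agent.H344R3.PD Finset

variable {A : Type}

lemma g_step {s σ : ℕ} (hs : s + 2 ≤ 3 * σ) {j : ℕ} (hj : 2 ≤ j) :
    (s + (j + 1) - 1).choose (j + 1) ≤ σ * (s + j - 1).choose j := by
  have h1 : s + (j + 1) - 1 = (s + j - 1) + 1 := by omega
  have h2 := Nat.add_one_mul_choose_eq (s + j - 1) j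
  have h3 : s + j - 1 + 1 = s + j := by omega
  rw [h1]
  have h4 : s + j ≤ σ * (j + 1) := by
    obtain ⟨i, rfl⟩ : ∃ i, j = i + 2 := ⟨j - 2, by omega⟩
    have h5 : 1 ≤ σ := by omega
    have h6 : i ≤ σ * i := Nat.le_mul_of_pos_left _ h5
    have h7 : σ * (i + 2 + 1) = σ * i + 3 * σ := by ring
    omega
  have h6 : (s + j - 1 + 1).choose (j + 1) * (j + 1) ≤
      (σ * (s + j - 1).choose j) * (j + 1) := by
    rw [← h2]
    calc (s + j - 1 + 1) * (s + j - 1).choose j ≤ (σ * (j + 1)) * (s + j - 1).choose j :=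
          Nat.mul_le_mul_right _ (by rw [h3]; exact h4)
      _ = (σ * (s + j - 1).choose j) * (j + 1) := by ring
  exact Nat.le_of_mul_le_mul_right h6 (Nat.succ_pos j)

lemma g_two {s σ : ℕ} (hs : s + 2 ≤ 3 * σ) (j : ℕ) :
    2 * (s + (j + 2) - 1).choose (j + 2) ≤ s * (s + 1) * σ ^ j := by
  induction j with
  | zero =>
    have h1 : s + (0 + 2) - 1 = s + 1 := by omega
    rw [h1, Nat.zero_add, pow_zero, mul_one, Nat.choose_two_right]
    have h2 : s + 1 - 1 = s := by omega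
    rw [h2]
    have := Nat.mul_div_le ((s + 1) * s) 2
    calc _ ≤ (s + 1) * s := this
      _ = s * (s + 1) := mul_comm _ _
  | succ j ih =>
    have h1 := g_step hs (j := j + 2) (by omega)
    calc 2 * (s + (j + 1 + 2) - 1).choose (j + 1 + 2)
        ≤ 2 * (σ * (s + (j + 2) - 1).choose (j + 2)) := Nat.mul_le_mul_left _ h1
      _ = σ * (2 * (s + (j + 2) - 1).choose (j + 2)) := by ring
      _ ≤ σ * (s * (s + 1) * σ ^ j) := Nat.mul_le_mul_left _ ih
      _ = s * (s + 1) * σ ^ (j + 1) := by ring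

lemma geom_le {ρ : ℝ} (h0 : 0 ≤ ρ) (h1 : ρ < 1) (k : ℕ) :
    ∑ i ∈ range (k + 1), ρ ^ i ≤ (1 - ρ)⁻¹ := by
  rw [inv_eq_one_div, le_div_iff₀ (by linarith), geom_sum_mul_neg]
  have := pow_nonneg h0 (k + 1)
  linarith

/-- the number `σ ^ (1 - 2 m)` -/
noncomputable def rho (σ m : ℕ) : ℝ := (σ : ℝ) / ((σ : ℝ) ^ 2) ^ m

lemma rho_nonneg (σ m : ℕ) : 0 ≤ rho σ m := by unfold rho; positivity

lemma rho_le {σ m : ℕ} (hσ : 2 ≤ σ) (hm : 2 ≤ m) : rho σ m ≤ 1 / 8 := by
  obtain ⟨i, rfl⟩ : ∃ i, m = i + 2 := ⟨m - 2, by omega⟩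
  have h1 : (2 : ℝ) ≤ σ := by exact_mod_cast hσ
  have h2 : (1 : ℝ) ≤ ((σ : ℝ) ^ 2) ^ i := one_le_pow₀ (by nlinarith)
  have h3 : (8 : ℝ) ≤ (σ : ℝ) ^ 3 := by
    calc (8 : ℝ) = 2 ^ 3 := by norm_num
      _ ≤ (σ : ℝ) ^ 3 := pow_le_pow_left₀ (by norm_num) h1 3
  unfold rho
  rw [div_le_div_iff₀ (by positivity) (by norm_num)]
  calc (σ : ℝ) * 8 ≤ σ * (σ : ℝ) ^ 3 := mul_le_mul_of_nonneg_left h3 (by linarith)
    _ = 1 * ((σ : ℝ) ^ 2) ^ 2 := by ring
    _ ≤ ((σ : ℝ) ^ 2) ^ i * ((σ : ℝ) ^ 2) ^ 2 := mul_le_mul_of_nonneg_right h2 (by positivity)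
    _ = 1 * ((σ : ℝ) ^ 2) ^ (i + 2) := by ring

lemma occ_two {q : List (ℕ ⊕ A)} {x : ℕ} (hx : x ∈ rpt q) : 2 ≤ occ x q := by
  have h1 := Finset.mem_filter.mp hx
  have h2 := occ_pos h1.1
  have h3 := h1.2
  omega

/-- the criterion: few single-occurrence variables -/
def FewSingles (σ : ℕ) (q : List (ℕ ⊕ A)) : Prop :=
  ((sgl q).card * ((sgl q).card + 1) : ℝ) / (2 * (σ : ℝ) ^ 2) +
    max 1 (((sgl q).card : ℝ) / σ) * (∏ x ∈ rpt q, (1 - rho σ (occ x q))⁻¹ - 1) < 1

/-- the law for patterns with few single-occurrence variables -/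
theorem law_fine [Fintype A] [Nontrivial A] {p q : List (ℕ ⊕ A)} (h : Lang p ⊂ Lang q)
    (hc : FewSingles (Fintype.card A) q) :
    2 * q.length + nvar p < 2 * p.length + nvar q := by
  classical
  have h0 := ne_length h.subset
  set k := p.length - q.length with hk
  rcases Nat.lt_or_ge k 2 with h1 | h1
  · exact partOne h (by omega)
  by_contra hcon
  push Not at hcon
  have hv : nvar q + 2 * k ≤ nvar p := by omega
  have hcf := count_fine h.subset h0
  unfold FewSingles at hc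
  set σ := Fintype.card A with hσ
  have hσ2 : 2 ≤ σ := Fintype.one_lt_card
  have hσ0 : (0 : ℝ) < σ := by exact_mod_cast (by omega : 0 < σ)
  set s := (sgl q).card with hsd
  set ρ : ℕ → ℝ := fun x => rho σ (occ x q) with hρ
  have hρ0 : ∀ x, 0 ≤ ρ x := fun x => rho_nonneg _ _
  have hρ1 : ∀ x ∈ rpt q, ρ x < 1 := fun x hx =>
    lt_of_le_of_lt (rho_le hσ2 (occ_two hx)) (by norm_num)
  set c0 : ℝ := (s * (s + 1) : ℝ) / (2 * (σ : ℝ) ^ 2) with hc0
  have hc00 : 0 ≤ c0 :=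
    div_nonneg (mul_nonneg (Nat.cast_nonneg s) (add_nonneg (Nat.cast_nonneg s) zero_le_one))
      (mul_nonneg zero_le_two (sq_nonneg _))
  set M : ℝ := max 1 ((s : ℝ) / σ) with hM
  have hM1 : 1 ≤ M := le_max_left _ _
  have hM2 : (s : ℝ) / σ ≤ M := le_max_right _ _
  set P := ∏ x ∈ rpt q, (1 - ρ x)⁻¹ with hP
  have hP1 : 1 ≤ P := by
    rw [hP]
    have h2 : ∏ x ∈ rpt q, (1 : ℝ) ≤ ∏ x ∈ rpt q, (1 - ρ x)⁻¹ := by
      apply Finset.prod_le_prod (fun _ _ => zero_le_one)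
      intro x hx
      have h3 := hρ0 x
      have h4 := hρ1 x hx
      exact one_le_inv_iff₀.mpr ⟨by linarith, by linarith⟩
    rwa [Finset.prod_const_one] at h2
  have hc01 : c0 < 1 := by
    have : 0 ≤ M * (P - 1) := mul_nonneg (by linarith) (by linarith)
    linarith
  have hs : s + 2 ≤ 3 * σ := by
    by_contra hcon
    push Not at hcon
    rw [hc0, div_lt_one (by positivity)] at hc01
    have h2 : (3 * σ : ℝ) ≤ s + 1 := by exact_mod_cast (by omega : 3 * σ ≤ s + 1)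
    have h3 : (2 * σ : ℝ) ≤ s := by exact_mod_cast (by omega : 2 * σ ≤ s)
    nlinarith
  set box := Fintype.piFinset fun _ : rpt q => range (k + 1) with hbox
  set T : ℝ := (σ : ℝ) ^ (nvar q + 2 * k) with hT
  have hT0 : 0 < T := by positivity
  -- the count in the reals
  have h2 : T ≤ ∑ e ∈ box.filter (fun e => wt q e ≤ k),
      ((((s + (k - wt q e) - 1).choose (k - wt q e) : ℕ) : ℝ) *
        (σ : ℝ) ^ (nvar q + (k - wt q e) + ∑ x, e x)) := by
    have h3 : σ ^ (nvar q + 2 * k) ≤ σ ^ nvar p := Nat.pow_le_pow_right (by omega) hv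
    have h4 := h3.trans hcf
    have h5 : ((σ ^ (nvar q + 2 * k) : ℕ) : ℝ) ≤ ((∑ e ∈ box.filter (fun e => wt q e ≤ k),
      ((s + (k - wt q e) - 1).choose (k - wt q e)) *
          σ ^ (nvar q + (k - wt q e) + ∑ x, e x) : ℕ) : ℝ) := by exact_mod_cast h4
    push_cast at h5
    exact h5
  have hF : ∀ e : rpt q → ℕ,
      ∏ x : rpt q, ρ x ^ e x = (σ : ℝ) ^ (∑ x, e x) / (σ : ℝ) ^ (2 * wt q e) := by
    intro e
    have h3 : ∀ x : rpt q, ρ x ^ e x =
        (σ : ℝ) ^ e x / ((σ : ℝ) ^ 2) ^ (occ (x : ℕ) q * e x) := by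
      intro x
      rw [hρ]
      simp only [rho]
      rw [div_pow, ← pow_mul]
    rw [Finset.prod_congr rfl fun x _ => h3 x, Finset.prod_div_distrib,
      Finset.prod_pow_eq_pow_sum, Finset.prod_pow_eq_pow_sum, pow_mul]
    rfl
  have hF0 : ∀ e : rpt q → ℕ, 0 ≤ ∏ x : rpt q, ρ x ^ e x := fun e =>
    Finset.prod_nonneg fun x _ => pow_nonneg (hρ0 x) _
  have hg0 : ∀ j, 2 ≤ j → (((s + j - 1).choose j : ℕ) : ℝ) / (σ : ℝ) ^ j ≤ c0 := by
    intro j hj
    obtain ⟨i, rfl⟩ : ∃ i, j = i + 2 := ⟨j - 2, by omega⟩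
    have h7 := g_two hs i
    have h8 : (2 * ((s + (i + 2) - 1).choose (i + 2) : ℕ) : ℝ) ≤
        (s : ℝ) * (s + 1) * (σ : ℝ) ^ i := by exact_mod_cast h7
    rw [hc0, div_le_div_iff₀ (by positivity) (by positivity), pow_add]
    calc _ = (2 * ((s + (i + 2) - 1).choose (i + 2) : ℕ) : ℝ) * (σ : ℝ) ^ 2 := by ring
      _ ≤ ((s : ℝ) * (s + 1) * (σ : ℝ) ^ i) * (σ : ℝ) ^ 2 :=
        mul_le_mul_of_nonneg_right h8 (by positivity)
      _ = _ := by ring
  have hgM : ∀ j, (((s + j - 1).choose j : ℕ) : ℝ) / (σ : ℝ) ^ j ≤ M := by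
    intro j
    rcases Nat.lt_or_ge j 2 with hj | hj
    · have h3 : j = 0 ∨ j = 1 := by omega
      rcases h3 with rfl | rfl
      · simpa using hM1
      · have h4 : s + 1 - 1 = s := by omega
        rw [h4, Nat.choose_one_right, pow_one]
        exact hM2
    · exact (hg0 j hj).trans (hc01.le.trans hM1)
  have hterm : ∀ e ∈ box.filter (fun e => wt q e ≤ k),
      ((((s + (k - wt q e) - 1).choose (k - wt q e) : ℕ) : ℝ) *
        (σ : ℝ) ^ (nvar q + (k - wt q e) + ∑ x, e x)) ≤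
      T * (M * ∏ x : rpt q, ρ x ^ e x - if e = 0 then M - c0 else 0) := by
    intro e he
    have hwt := (Finset.mem_filter.mp he).2
    set j := k - wt q e with hj
    have h3 : ((((s + j - 1).choose j : ℕ) : ℝ) * (σ : ℝ) ^ (nvar q + j + ∑ x, e x)) =
        T * ((((s + j - 1).choose j : ℕ) : ℝ) / (σ : ℝ) ^ j * ∏ x : rpt q, ρ x ^ e x) := by
      rw [hF, hT]
      have h4 : nvar q + 2 * k = nvar q + j + j + 2 * wt q e := by omega
      rw [h4]
      field_simp
      ring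
    rw [h3]
    apply mul_le_mul_of_nonneg_left _ hT0.le
    by_cases he0 : e = 0
    · rw [if_pos he0]
      have h5 : wt q e = 0 := by rw [he0]; simp [wt]
      have h6 : ∏ x : rpt q, ρ x ^ e x = 1 := by rw [he0]; simp
      rw [h6, mul_one, mul_one, sub_sub_cancel]
      exact hg0 j (by omega)
    · rw [if_neg he0, sub_zero]
      exact mul_le_mul_of_nonneg_right (hgM j) (hF0 e)
  have h3 : T ≤ T * (∑ e ∈ box.filter (fun e => wt q e ≤ k),
      (M * ∏ x : rpt q, ρ x ^ e x - if e = 0 then M - c0 else 0)) := by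
    rw [Finset.mul_sum]
    exact h2.trans (Finset.sum_le_sum hterm)
  have hzero : (0 : rpt q → ℕ) ∈ box.filter (fun e => wt q e ≤ k) := by
    rw [Finset.mem_filter, hbox, Fintype.mem_piFinset]
    refine ⟨fun x => Finset.mem_range.mpr (Nat.succ_pos k), ?_⟩
    simp [wt]
  have h4 : ∑ e ∈ box.filter (fun e => wt q e ≤ k),
      (M * ∏ x : rpt q, ρ x ^ e x - if e = 0 then M - c0 else 0) < 1 := by
    rw [Finset.sum_sub_distrib, Finset.sum_ite_eq' _ (0 : rpt q → ℕ), if_pos hzero,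
      ← Finset.mul_sum]
    have h5 : ∑ e ∈ box.filter (fun e => wt q e ≤ k), ∏ x : rpt q, ρ x ^ e x ≤
        ∑ e ∈ box, ∏ x : rpt q, ρ x ^ e x :=
      Finset.sum_le_sum_of_subset_of_nonneg (Finset.filter_subset _ _) fun e _ _ => hF0 e
    have h6 : ∑ e ∈ box, ∏ x : rpt q, ρ x ^ e x =
        ∏ x : rpt q, ∑ i ∈ range (k + 1), ρ x ^ i :=
      (Finset.prod_univ_sum (fun _ : rpt q => range (k + 1)) fun x i => ρ x ^ i).symm
    have h7 : ∏ x : rpt q, ∑ i ∈ range (k + 1), ρ x ^ i =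
        ∏ x ∈ rpt q, ∑ i ∈ range (k + 1), ρ x ^ i :=
      Finset.prod_coe_sort (rpt q) fun x => ∑ i ∈ range (k + 1), ρ x ^ i
    have h8 : ∏ x ∈ rpt q, ∑ i ∈ range (k + 1), ρ x ^ i ≤ P :=
      Finset.prod_le_prod
        (fun x _ => Finset.sum_nonneg fun i _ => pow_nonneg (hρ0 x) i)
        fun x hx => geom_le (hρ0 x) (hρ1 x hx) k
    rw [h6, h7] at h5
    have h9 := mul_le_mul_of_nonneg_left (h5.trans h8) (by linarith : (0 : ℝ) ≤ M)
    have h10 : M * (P - 1) = M * P - M := by ring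
    rw [h10] at hc
    linarith
  nlinarith

lemma rNonCross_few {q : List (ℕ ⊕ A)} (h : (rpt q).card ≤ 1) : RNonCross q := by
  intro x y hxy hy hx
  have hcount : ∀ z : ℕ, [Sum.inl z, Sum.inl z].Sublist q → z ∈ rpt q := by
    intro z hz
    have h1 := (hz.filterMap Sum.getLeft?).count_le z
    have h2 : List.count z (List.filterMap Sum.getLeft?
        ([Sum.inl z, Sum.inl z] : List (ℕ ⊕ A))) = 2 := by simp
    have h3 : 2 ≤ occ z q := by rw [h2] at h1; exact h1
    exact Finset.mem_filter.mpr ⟨occ_ne (by omega), by omega⟩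
  have h1 := hcount y hy
  have h2 := hcount x (List.Sublist.trans (by simp) hx)
  exact hxy (Finset.card_le_one.mp h x h2 y h1)

/-- the law for at most three variables -/
theorem law_three [Fintype A] [Nontrivial A] {p q : List (ℕ ⊕ A)} (h : Lang p ⊂ Lang q)
    (hq : nvar q ≤ 3) : 2 * q.length + nvar p < 2 * p.length + nvar q := by
  rcases Nat.lt_or_ge (rpt q).card 2 with hr | hr
  · exact law_R (rNonCross_few (by omega)) h
  · refine law_fine h ?_
    have hσ2 : 2 ≤ Fintype.card A := Fintype.one_lt_card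
    have hcard : (sgl q).card + (rpt q).card = nvar q := by
      rw [sgl, rpt, Finset.card_filter_add_card_filter_not, card_vars]
    have hs : (sgl q).card ≤ 1 := by omega
    have hr3 : (rpt q).card ≤ 3 := by omega
    unfold FewSingles
    set σ := Fintype.card A with hσ
    have hσr : (2 : ℝ) ≤ σ := by exact_mod_cast hσ2
    have hsr : ((sgl q).card : ℝ) ≤ 1 := by exact_mod_cast hs
    have hs0 : (0 : ℝ) ≤ (sgl q).card := Nat.cast_nonneg _
    have hM : max 1 (((sgl q).card : ℝ) / σ) = 1 := by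
      apply max_eq_left
      rw [div_le_one (by linarith)]
      linarith
    have hP : ∏ x ∈ rpt q, (1 - rho σ (occ x q))⁻¹ ≤ (8 / 7 : ℝ) ^ 3 := by
      calc _ ≤ ∏ x ∈ rpt q, (8 / 7 : ℝ) := by
            apply Finset.prod_le_prod
            · intro x hx
              have h1 := rho_le hσ2 (occ_two hx)
              exact inv_nonneg.mpr (by linarith)
            · intro x hx
              have h1 := rho_le hσ2 (occ_two hx)
              rw [inv_le_comm₀ (by linarith) (by norm_num)]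
              norm_num
              linarith
        _ = (8 / 7 : ℝ) ^ (rpt q).card := by rw [Finset.prod_const]
        _ ≤ (8 / 7 : ℝ) ^ 3 := pow_le_pow_right₀ (by norm_num) hr3
    have hc0 : ((sgl q).card * ((sgl q).card + 1) : ℝ) / (2 * (σ : ℝ) ^ 2) ≤ 1 / 4 := by
      rw [div_le_div_iff₀ (by positivity) (by norm_num)]
      nlinarith
    rw [hM, one_mul]
    have : (8 / 7 : ℝ) ^ 3 < 1.5 := by norm_num
    linarith

end Pool.Agent.H54.PD
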