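import Mathlib
import Pool.Agent.H54.PD.ChainW
import Pool.Graph.R_seed8.PatDepth.Chain

/-!
# MP_7f399b_lc: chains whose long steps start at patterns with non-cross repeated variables
-/

namespace Pool.Agent.H54.PD

open Pool.Agent.PatDepth Pool.Agent.H344R3.PD

variable {A : Type}

/-- There are non-empty patterns `c 0, ..., c n` with
`L(x₁) = L(c 0) ⊋ L(c 1) ⊋ ... ⊋ L(c n) = L(p)` such that `c (i + 1)` is at most one symbol longer
than `c i` unless no repeated variable of `c i` occurs between two occurrences of another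
variable. -/
def HasMixedChain {A : Type} (p : List (ℕ ⊕ A)) (n : ℕ) : Prop :=
  ∃ c : ℕ → List (ℕ ⊕ A), (∀ i ≤ n, c i ≠ []) ∧ Lang (c 0) = Lang [Sum.inl 1] ∧
    Lang (c n) = Lang p ∧
    ∀ i < n, Lang (c (i + 1)) ⊂ Lang (c i) ∧
      ((c (i + 1)).length ≤ (c i).length + 1 ∨ RNonCross (c i))

/-- the upper bound for these chains -/
theorem mixed_upper [Fintype A] [Nontrivial A] {p : List (ℕ ⊕ A)} {n : ℕ}
    (h : HasMixedChain p n) : n + 1 + nvar p ≤ 2 * p.length := by
  obtain ⟨c, _, hc0, hcn, hstep⟩ := h
  have key : ∀ i ≤ n, i + 1 + nvar (c i) ≤ 2 * (c i).length := by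
    intro i
    induction i with
    | zero =>
      intro _
      obtain ⟨h1, h2⟩ := lang_eq_invariant hc0
      have h3 : nvar ([Sum.inl 1] : List (ℕ ⊕ A)) = 1 := by simp [nvar]
      rw [h1, h2, h3]
      simp
    | succ i ih =>
      intro hi
      obtain ⟨h1, h2⟩ := hstep i (by omega)
      have h4 := ih (by omega)
      rcases h2 with h2 | h2
      · have h3 := partOne h1 h2
        omega
      · have h3 := law_R h2 h1
        omega
  obtain ⟨h1, h2⟩ := lang_eq_invariant hcn
  have := key n le_rfl
  omega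

/-- the exact length of the longest chain of this kind, for every pattern -/
theorem mixed_depth [Fintype A] [Nontrivial A] {p : List (ℕ ⊕ A)} (hp : p ≠ []) :
    IsGreatest {n | HasMixedChain p n} (2 * p.length - nvar p - 1) := by
  constructor
  · obtain ⟨c, h1, h2, h3, h4⟩ := (chain_greatest hp).1
    exact ⟨c, h1, h2, h3, fun i hi => ⟨(h4 i hi).1, Or.inl (h4 i hi).2⟩⟩
  · intro n hn
    have := mixed_upper (show HasMixedChain p n from hn)
    omega

end Pool.Agent.H54.PD
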