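import Mathlib
import Pool.Agent.H54.PD.Kill

/-!
# MP_7f399b_lc: short words outside the language of a pattern that is not regular
-/

namespace Pool.Agent.H54.PD

open Pool.Agent.PatDepth Pool.Agent.H344R3.PD

variable {A : Type}

/-- no factor of `w` is in the language of `q` -/
def Av (q : List (ℕ ⊕ A)) (w : List A) : Prop :=
  ∀ τ : ℕ → List A, (∀ x, τ x ≠ []) → ¬ subst τ q <:+: w

lemma Av.factor {q : List (ℕ ⊕ A)} {w w' : List A} (h : Av q w) (hw : w' <:+: w) : Av q w' :=
  fun τ hτ h' => h τ hτ (h'.trans hw)

lemma Av.comp {q1 q2 : List (ℕ ⊕ A)} {w1 w2 : List A} (h1 : Av q1 w1) (h2 : Av q2 w2) (a : A) :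
    Av (q1 ++ q2) (w1 ++ a :: w2) := by
  rintro τ hτ ⟨u, v, huv⟩
  rw [subst_append] at huv
  have e1 : (u ++ subst τ q1) ++ (subst τ q2 ++ v) = w1 ++ (a :: w2) := by
    rw [← huv]; simp
  rcases List.append_eq_append_iff.mp e1 with ⟨c, hc1, hc2⟩ | ⟨c, hc1, hc2⟩
  · exact h1 τ hτ ⟨u, c, by rw [hc1]⟩
  · cases c with
    | nil =>
      rw [List.append_nil] at hc1
      exact h1 τ hτ ⟨u, [], by rw [hc1, List.append_nil]⟩
    | cons b c =>
      obtain ⟨_, hc3⟩ := List.cons.inj hc2
      exact h2 τ hτ ⟨c, v, by rw [hc3]; simp⟩

/-- the symbols of the image of a product `a ^ i b ^ j` -/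
lemma split_two {τ : ℕ → List A} {a b : A} (hab : a ≠ b) (q : List (ℕ ⊕ A)) : ∀ i j : ℕ, 1 ≤ j →
    (∀ s ∈ q, ∃ x, s = Sum.inl x) →
    subst τ q = List.replicate i a ++ List.replicate j b →
    ∃ q1 x q2, q = q1 ++ Sum.inl x :: q2 ∧ (∀ y, Sum.inl y ∈ q1 → b ∉ τ y) ∧ b ∈ τ x ∧
      ∀ y, Sum.inl y ∈ q2 → a ∉ τ y := by
  induction q with
  | nil =>
    intro i j hj _ h
    have := congrArg List.length h
    simp [subst] at this
    omega
  | cons s q ih =>
    intro i j hj hvar h
    obtain ⟨x, rfl⟩ := hvar s List.mem_cons_self
    have hvar' : ∀ s ∈ q, ∃ x, s = Sum.inl x := fun s hs => hvar s (List.mem_cons_of_mem _ hs)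
    rw [subst_cons] at h
    have h' : τ x ++ subst τ q = List.replicate i a ++ List.replicate j b := h
    by_cases hb : b ∈ τ x
    · refine ⟨[], x, q, rfl, fun y hy => absurd hy (List.not_mem_nil), hb, fun y hy hay => ?_⟩
      rcases List.append_eq_append_iff.mp h' with ⟨c, hc1, hc2⟩ | ⟨c, hc1, hc2⟩
      · -- `τ x` is inside the block of `a`
        have h3 : b ∈ List.replicate i a := by rw [hc1]; exact List.mem_append_left _ hb
        exact hab (List.eq_of_mem_replicate h3).symm
      · have h3 : a ∈ subst τ q := by
          rw [subst, List.mem_flatMap]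
          exact ⟨Sum.inl y, hy, hay⟩
        have h4 : a ∈ List.replicate j b := by rw [hc2]; exact List.mem_append_right _ h3
        exact hab (List.eq_of_mem_replicate h4)
    · rcases List.append_eq_append_iff.mp h' with ⟨c, hc1, hc2⟩ | ⟨c, hc1, hc2⟩
      · -- the rest is again of this form
        have hc3 : c = List.replicate c.length a := by
          rw [List.eq_replicate_iff]
          refine ⟨rfl, fun z hz => ?_⟩
          have : z ∈ List.replicate i a := by rw [hc1]; exact List.mem_append_right _ hz
          exact List.eq_of_mem_replicate this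
        obtain ⟨q1, y, q2, h1, h2, h3, h4⟩ := ih c.length j hj hvar' (by rw [hc2, ← hc3])
        refine ⟨Sum.inl x :: q1, y, q2, by rw [h1]; rfl, fun z hz => ?_, h3, h4⟩
        rcases List.mem_cons.mp hz with hz | hz
        · rw [Sum.inl.inj hz]; exact hb
        · exact h2 z hz
      · cases c with
        | nil =>
          rw [List.append_nil] at hc1
          rw [List.nil_append] at hc2
          obtain ⟨q1, y, q2, h1, h2, h3, h4⟩ := ih 0 j hj hvar' (by rw [← hc2]; rfl)
          refine ⟨Sum.inl x :: q1, y, q2, by rw [h1]; rfl, fun z hz => ?_, h3, h4⟩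
          rcases List.mem_cons.mp hz with hz | hz
          · rw [Sum.inl.inj hz]; exact hb
          · exact h2 z hz
        | cons d c =>
          exfalso
          apply hb
          have : d ∈ List.replicate j b := by rw [hc2]; simp
          rw [hc1, ← List.eq_of_mem_replicate this]
          simp

/-- a factor of `a ^ m b ^ m` is of the form `a ^ i b ^ j` -/
lemma infix_two {a b : A} {m : ℕ} {w : List A}
    (h : w <:+: List.replicate m a ++ List.replicate m b) :
    ∃ i j, i ≤ m ∧ j ≤ m ∧ w = List.replicate i a ++ List.replicate j b := by
  obtain ⟨u, v, huv⟩ := h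
  have e1 : u ++ (w ++ v) = List.replicate m a ++ List.replicate m b := by rw [← huv]; simp
  have hrep : ∀ {c : List A} {n : ℕ} {z : A}, (∀ t ∈ c, t = z) → c.length ≤ n →
      ∃ i, i ≤ n ∧ c = List.replicate i z := fun {c} _ _ hc hn =>
    ⟨c.length, hn, List.eq_replicate_iff.mpr ⟨rfl, hc⟩⟩
  rcases List.append_eq_append_iff.mp e1 with ⟨c, hc1, hc2⟩ | ⟨c, hc1, hc2⟩
  · have hca : ∀ t ∈ c, t = a := fun t ht => by
      have : t ∈ List.replicate m a := by rw [hc1]; exact List.mem_append_right _ ht
      exact List.eq_of_mem_replicate this
    have hcl : c.length ≤ m := by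
      have := congrArg List.length hc1
      rw [List.length_replicate, List.length_append] at this
      omega
    rcases List.append_eq_append_iff.mp hc2 with ⟨d, hd1, hd2⟩ | ⟨d, hd1, hd2⟩
    · -- `w` inside the block of `a`
      obtain ⟨i, hi, hw⟩ := hrep (c := w) (n := m) (z := a)
        (fun t ht => hca t (by rw [hd1]; exact List.mem_append_left _ ht)) (by
          have := congrArg List.length hd1
          rw [List.length_append] at this
          omega)
      exact ⟨i, 0, hi, Nat.zero_le _, by rw [hw]; simp⟩
    · obtain ⟨i, hi, hw⟩ := hrep (c := c) (n := m) (z := a) hca hcl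
      obtain ⟨j, hj, hw'⟩ := hrep (c := d) (n := m) (z := b)
        (fun t ht => by
          have : t ∈ List.replicate m b := by rw [hd2]; exact List.mem_append_left _ ht
          exact List.eq_of_mem_replicate this) (by
          have := congrArg List.length hd2
          rw [List.length_replicate, List.length_append] at this
          omega)
      exact ⟨i, j, hi, hj, by rw [hd1, hw, hw']⟩
  · obtain ⟨j, hj, hw'⟩ := hrep (c := w) (n := m) (z := b)
      (fun t ht => by
        have : t ∈ List.replicate m b := by
          rw [hc2]; exact List.mem_append_right _ (List.mem_append_left _ ht)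
        exact List.eq_of_mem_replicate this) (by
        have := congrArg List.length hc2
        rw [List.length_replicate, List.length_append, List.length_append] at this
        omega)
    exact ⟨0, j, Nat.zero_le _, hj, by rw [hw']; simp⟩

lemma length_rep (τ : ℕ → List A) (x m : ℕ) :
    (subst τ (List.replicate m (Sum.inl x : ℕ ⊕ A))).length = m * (τ x).length := by
  induction m with
  | zero => simp [subst]
  | succ m ih =>
    rw [List.replicate_succ, subst_cons, List.length_append, ih, Sum.elim_inl]
    ring

lemma subst_rep {τ : ℕ → List A} {x : ℕ} {c : A} (h : τ x = [c]) (m : ℕ) :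
    subst τ (List.replicate m (Sum.inl x : ℕ ⊕ A)) = List.replicate m c := by
  induction m with
  | zero => rfl
  | succ m ih =>
    rw [List.replicate_succ, subst_cons, ih, Sum.elim_inl, h, List.replicate_succ]
    rfl

/-- powers of a variable -/
lemma av_power {a b : A} (hab : a ≠ b) {m : ℕ} (hm : 2 ≤ m) (x : ℕ) :
    Av (List.replicate m (Sum.inl x : ℕ ⊕ A))
      (List.replicate (m - 1) a ++ b :: List.replicate (m - 1) a) := by
  classical
  intro τ hτ hinf
  have hlen := hinf.length_le
  rw [length_rep, List.length_append, List.length_cons, List.length_replicate] at hlen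
  have h1 := List.length_pos_iff.mpr (hτ x)
  have h2 : (τ x).length = 1 := by
    by_contra hcon
    have h3 : 2 ≤ (τ x).length := by omega
    have h4 : m * 2 ≤ m * (τ x).length := Nat.mul_le_mul_left _ h3
    omega
  obtain ⟨c, hc⟩ := List.length_eq_one_iff.mp h2
  rw [subst_rep hc] at hinf
  obtain ⟨u, v, huv⟩ := hinf
  have hl := congrArg List.length huv
  rw [List.length_append, List.length_append, List.length_append, List.length_cons,
    List.length_replicate, List.length_replicate] at hl
  have hbc : b = c := by
    rcases List.append_eq_append_iff.mp huv with ⟨d, hd1, hd2⟩ | ⟨d, hd1, hd2⟩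
    · have := congrArg List.length hd1
      rw [List.length_append, List.length_append, List.length_replicate,
        List.length_replicate] at this
      omega
    · cases d with
      | nil =>
        have := congrArg List.length hd1
        rw [List.length_append, List.length_append, List.length_replicate,
          List.length_replicate, List.length_nil] at this
        omega
      | cons z d =>
        obtain ⟨hz, _⟩ := List.cons.inj hd2
        rw [← hz] at hd1
        rcases List.append_eq_append_iff.mp hd1 with ⟨e, he1, he2⟩ | ⟨e, he1, he2⟩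
        · have : b ∈ List.replicate m c := by rw [he2]; simp
          exact List.eq_of_mem_replicate this
        · have h5 := congrArg List.length he1
          rw [List.length_append, List.length_replicate] at h5
          cases e with
          | nil =>
            rw [List.nil_append] at he2
            have : b ∈ List.replicate m c := by rw [← he2]; simp
            exact List.eq_of_mem_replicate this
          | cons z' e =>
            rw [List.length_cons] at h5
            omega
  have h3 : List.count b (List.replicate (m - 1) a ++ b :: List.replicate (m - 1) a) = 1 := by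
    rw [List.count_append, List.count_cons_self, List.count_replicate]
    have : ¬ (a == b) = true := by simpa using hab
    rw [if_neg this]
  have h4 : m ≤ List.count b (List.replicate (m - 1) a ++ b :: List.replicate (m - 1) a) := by
    rw [← huv, List.count_append, List.count_append, ← hbc, List.count_replicate_self]
    omega
  omega

/-- short words avoiding a pattern without constants -/
theorem exists_av [Nontrivial A] (n : ℕ) : ∀ q : List (ℕ ⊕ A), q.length = n → q ≠ [] →
    (∀ s ∈ q, ∃ x, s = Sum.inl x) →
    ∃ w : List A, Av q w ∧ 2 * q.length ≤ w.length + 1 + nvar q ∧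
      (¬ q.Nodup → 2 * q.length ≤ w.length + nvar q) := by
  classical
  obtain ⟨a, b, hab⟩ := exists_pair_ne A
  induction n using Nat.strong_induction_on with
  | _ n ih =>
  intro q hqn hq hvar
  by_cases hred : ∃ q1 q2 : List (ℕ ⊕ A), q = q1 ++ q2 ∧ q1 ≠ [] ∧ q2 ≠ [] ∧
      ∀ x, Sum.inl x ∈ q1 → Sum.inl x ∉ q2
  · obtain ⟨q1, q2, rfl, hq1, hq2, hdis⟩ := hred
    have hl1 := List.length_pos_iff.mpr hq1
    have hl2 := List.length_pos_iff.mpr hq2
    rw [List.length_append] at hqn
    obtain ⟨w1, hw1, hb1, hc1⟩ := ih q1.length (by omega) q1 rfl hq1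
      fun s hs => hvar s (List.mem_append_left _ hs)
    obtain ⟨w2, hw2, hb2, hc2⟩ := ih q2.length (by omega) q2 rfl hq2
      fun s hs => hvar s (List.mem_append_right _ hs)
    have hnv : nvar (q1 ++ q2) = nvar q1 + nvar q2 := by
      show (vs (q1 ++ q2)).card = (vs q1).card + (vs q2).card
      rw [vs_append, Finset.card_union_of_disjoint]
      rw [Finset.disjoint_left]
      intro x hx hx'
      exact hdis x (mem_vs.mp hx) (mem_vs.mp hx')
    refine ⟨w1 ++ a :: w2, hw1.comp hw2 a, ?_, fun hnd => ?_⟩
    · rw [hnv, List.length_append, List.length_append, List.length_cons]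
      omega
    · rw [hnv, List.length_append, List.length_append, List.length_cons]
      have h1 : ¬ q1.Nodup ∨ ¬ q2.Nodup := by
        by_contra hcon
        push Not at hcon
        apply hnd
        rw [List.nodup_append]
        refine ⟨hcon.1, hcon.2, fun s hs t ht hst => ?_⟩
        subst hst
        obtain ⟨x, rfl⟩ := hvar s (List.mem_append_left _ hs)
        exact hdis x hs ht
      rcases h1 with h1 | h1
      · have := hc1 h1
        omega
      · have := hc2 h1
        omega
  · push Not at hred
    have hlq := List.length_pos_iff.mpr hq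
    rcases Nat.lt_or_ge q.length 2 with h2 | h2
    · -- one variable
      have h3 : q.length = 1 := by omega
      obtain ⟨s, rfl⟩ := List.length_eq_one_iff.mp h3
      obtain ⟨x, rfl⟩ := hvar s (by simp)
      have hn : nvar ([Sum.inl x] : List (ℕ ⊕ A)) = 1 := by simp [nvar]
      refine ⟨[], fun τ hτ h => ?_, ?_, fun hnd => absurd (List.nodup_singleton _) hnd⟩
      · have h4 := List.infix_nil.mp h
        have h5 : τ x = [] := by simpa [subst] using h4
        exact hτ x h5
      · rw [hn]; simp
    · rcases Nat.lt_or_ge (nvar q) 2 with h3 | h3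
      · -- a power of a variable
        obtain ⟨s, q', rfl⟩ := List.exists_cons_of_ne_nil hq
        obtain ⟨x, rfl⟩ := hvar s List.mem_cons_self
        have hall : ∀ t ∈ (Sum.inl x :: q' : List (ℕ ⊕ A)), t = Sum.inl x := by
          intro t ht
          obtain ⟨y, rfl⟩ := hvar t ht
          by_contra hne
          have hxy : x ≠ y := fun h => hne (by rw [h])
          have h4 : ({x, y} : Finset ℕ) ⊆ vs (Sum.inl x :: q' : List (ℕ ⊕ A)) := by
            intro z hz
            rw [Finset.mem_insert, Finset.mem_singleton] at hz
            rcases hz with rfl | rfl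
            · exact mem_vs.mpr List.mem_cons_self
            · exact mem_vs.mpr ht
          have h5 := Finset.card_le_card h4
          rw [Finset.card_pair hxy] at h5
          have h6 : (vs (Sum.inl x :: q' : List (ℕ ⊕ A))).card =
            nvar (Sum.inl x :: q' : List (ℕ ⊕ A)) := rfl
          omega
        have hrep := List.eq_replicate_iff.mpr
          ⟨rfl, hall⟩
        set m := (Sum.inl x :: q' : List (ℕ ⊕ A)).length with hm
        have hpos : 1 ≤ nvar (Sum.inl x :: q' : List (ℕ ⊕ A)) :=
          Finset.card_pos.mpr ⟨x, mem_vs.mpr List.mem_cons_self⟩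
        rw [hrep] at hpos ⊢
        refine ⟨_, av_power hab h2 x, ?_, fun _ => ?_⟩
        · rw [List.length_append, List.length_cons, List.length_replicate]
          omega
        · rw [List.length_append, List.length_cons, List.length_replicate]
          omega
      · -- an irreducible pattern with two variables
        refine ⟨List.replicate (q.length - 1) a ++ List.replicate (q.length - 1) b, ?_, ?_,
          fun _ => ?_⟩
        · intro τ hτ hinf
          obtain ⟨i, j, hi, hj, hw⟩ := infix_two hinf
          have h4 := length_le hτ q
          rw [hw, List.length_append, List.length_replicate, List.length_replicate] at h4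
          obtain ⟨q1, x, q2, hq', h5, h6, h7⟩ := split_two hab q i j (by omega) hvar hw
          have hletter : ∀ y, Sum.inl y ∈ q → a ∈ τ y ∨ b ∈ τ y := by
            intro y hy
            obtain ⟨z, l, hzl⟩ := List.exists_cons_of_ne_nil (hτ y)
            have h8 : z ∈ subst τ q := by
              rw [subst, List.mem_flatMap]
              exact ⟨Sum.inl y, hy, by rw [Sum.elim_inl, hzl]; simp⟩
            rw [hw, List.mem_append] at h8
            rcases h8 with h8 | h8
            · left; rw [← List.eq_of_mem_replicate h8, hzl]; simp
            · right; rw [← List.eq_of_mem_replicate h8, hzl]; simp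
          by_cases hq1 : q1 = []
          · subst hq1
            rw [List.nil_append] at hq'
            have hq2 : q2 ≠ [] := by
              rintro rfl
              rw [hq'] at h2
              simp at h2
            obtain ⟨z, hz1, hz2⟩ := hred [Sum.inl x] q2 (by rw [hq']; rfl) (by simp) hq2
            have hzx : z = x := by simpa using hz1
            rw [hzx] at hz2
            obtain ⟨c, l, hcl⟩ := List.exists_cons_of_ne_nil (hτ x)
            obtain ⟨i', rfl⟩ : ∃ i', i = i' + 1 := ⟨i - 1, by omega⟩
            have h9 : c :: (l ++ subst τ q2) = a :: (List.replicate i' a ++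
                List.replicate j b) := by
              rw [hq', subst_cons, Sum.elim_inl, hcl] at hw
              rw [List.replicate_succ] at hw
              exact hw
            have h10 : c = a := (List.cons.inj h9).1
            exact h7 x hz2 (by rw [hcl, h10]; simp)
          · obtain ⟨z, hz1, hz2⟩ := hred q1 (Sum.inl x :: q2) hq' hq1 (by simp)
            have hb : b ∉ τ z := h5 z hz1
            rcases List.mem_cons.mp hz2 with hz2 | hz2
            · rw [Sum.inl.inj hz2] at hb
              exact hb h6
            · rcases hletter z (by rw [hq']; exact List.mem_append_left _ hz1) with h8 | h8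
              · exact h7 z hz2 h8
              · exact hb h8
        · rw [List.length_append, List.length_replicate, List.length_replicate]
          omega
        · rw [List.length_append, List.length_replicate, List.length_replicate]
          omega

lemma vars_list {p : List (ℕ ⊕ A)} (hp : ∀ s ∈ p, ∃ x, s = Sum.inl x) :
    ∃ l : List ℕ, p = l.map Sum.inl := by
  induction p with
  | nil => exact ⟨[], rfl⟩
  | cons s p ih =>
    obtain ⟨x, rfl⟩ := hp s List.mem_cons_self
    obtain ⟨l, rfl⟩ := ih fun s hs => hp s (List.mem_cons_of_mem _ hs)
    exact ⟨x :: l, rfl⟩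

lemma getLeft_map (l : List ℕ) :
    ((l.map Sum.inl : List (ℕ ⊕ A)).filterMap Sum.getLeft?) = l := by
  induction l with
  | nil => rfl
  | cons x l ih => rw [List.map_cons, List.filterMap_cons_some (b := x) (by rfl), ih]

lemma nvar_nodup {l : List ℕ} (h : l.Nodup) : nvar (l.map Sum.inl : List (ℕ ⊕ A)) = l.length := by
  rw [nvar, getLeft_map]
  exact List.toFinset_card_of_nodup h

lemma mem_free [Inhabited A] {l : List ℕ} (h : l.Nodup) {w : List A} (hw : w.length = l.length) :
    w ∈ Lang (l.map Sum.inl : List (ℕ ⊕ A)) := by
  have h1 : lets (fun x => w.getD (l.idxOf x) default) (l.map Sum.inl : List (ℕ ⊕ A)) = w := by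
    rw [lets, List.map_map]
    apply List.ext_getElem
    · rw [List.length_map, hw]
    · intro i hi hi'
      rw [List.getElem_map]
      have h2 : i < l.length := by omega
      show w.getD (l.idxOf l[i]) default = w[i]
      rw [h.idxOf_getElem i h2]
      simp [List.getD_eq_getElem?_getD, hi']
  rw [← h1]
  exact lets_mem _ _

/-- the law below every pattern for the products of distinct variables -/
theorem law_free [Nontrivial A] {p q : List (ℕ ⊕ A)} (h : Lang p ⊂ Lang q)
    (hp : ∀ s ∈ p, ∃ x, s = Sum.inl x) (hnd : p.Nodup) :
    2 * q.length + nvar p < 2 * p.length + nvar q := by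
  classical
  obtain ⟨a0, a1, ha⟩ := exists_pair_ne A
  have : Inhabited A := ⟨a0⟩
  rcases Nat.lt_or_ge (q.length + 1) p.length with h1 | h1
  swap
  · exact partOne h h1
  obtain ⟨l, rfl⟩ := vars_list hp
  have hl : l.Nodup := List.Nodup.of_map _ hnd
  rw [nvar_nodup hl, List.length_map]
  rw [List.length_map] at h1
  -- no constants
  have hvar : ∀ s ∈ q, ∃ x, s = Sum.inl x := by
    intro s hs
    cases s with
    | inl x => exact ⟨x, rfl⟩
    | inr c =>
      exfalso
      obtain ⟨b, hb⟩ : ∃ b : A, b ≠ c := exists_ne c
      obtain ⟨τ, _, hw⟩ := h.subset (mem_free hl (w := List.replicate l.length b)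
        (List.length_replicate ..))
      have h2 : c ∈ subst τ q := by
        rw [subst, List.mem_flatMap]
        exact ⟨Sum.inr c, hs, by simp⟩
      rw [← hw] at h2
      exact hb (List.eq_of_mem_replicate h2).symm
  have hq : q ≠ [] := by
    rintro rfl
    obtain ⟨τ, _, hw⟩ := h.subset (mem_free hl (w := List.replicate l.length a0)
      (List.length_replicate ..))
    have := congrArg List.length hw
    rw [List.length_replicate] at this
    simp [subst] at this
    rw [this] at h1
    simp at h1
  obtain ⟨w, hw1, hw2, hw3⟩ := exists_av q.length q rfl hq hvar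
  by_cases hqn : q.Nodup
  · obtain ⟨m, rfl⟩ := vars_list hvar
    rw [nvar_nodup (List.Nodup.of_map _ hqn)]
    rw [List.length_map] at h1 ⊢
    omega
  · have h2 := hw3 hqn
    by_contra hcon
    push Not at hcon
    have h3 : l.length ≤ w.length := by omega
    have h4 : (w.take l.length).length = l.length := by
      rw [List.length_take]; omega
    obtain ⟨τ, hτ, hw⟩ := h.subset (mem_free hl h4)
    refine hw1 τ hτ ?_
    rw [← hw]
    exact (List.take_prefix _ _).isInfix

end Pool.Agent.H54.PD
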